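import Pool.Agent.R647.Setup2

/-!
# Trees for finitely generated groups with a free subgroup of finite index
-/

set_option autoImplicit false

namespace Pool.Agent.R647

open Pool.Agent.H97R3.VR Pool.Agent.TH97.VR
open Pointwise

section bdl

variable {G : Type} [Group G]

theorem CG_bd (L : Subgroup G) (Y : Finset G) (K : ℕ) (W : Set G)
    (hW : ∀ w, ∀ l ∈ L, (w * l ∈ W ↔ w ∈ W))
    (hK : ∀ y, (y ∈ Y ∨ y⁻¹ ∈ Y) → {w | w ∈ W ∧ w * y ∉ W}.Finite ∧
        {w | w ∈ W ∧ w * y ∉ W}.ncard ≤ K) :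
    ∃ C : Set (G ⧸ L), (∀ g : G, (g : G ⧸ L) ∈ C ↔ g ∈ W) ∧ (bd (CG L Y) C).Finite ∧
      (bd (CG L Y) C).ncard ≤ 2 * Y.card * K := by
  classical
  set Y2 : Finset G := Y ∪ Y.image (fun y => y⁻¹) with hY2
  have hY2c : Y2.card ≤ 2 * Y.card := by
    have h1 := Finset.card_union_le Y (Y.image (fun y => y⁻¹))
    have h2 := Finset.card_image_le (s := Y) (f := fun y => y⁻¹)
    rw [hY2]
    omega
  have hY2m : ∀ y, y ∈ Y2 ↔ (y ∈ Y ∨ y⁻¹ ∈ Y) := by
    intro y
    rw [hY2, Finset.mem_union, Finset.mem_image]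
    constructor
    · rintro (h | ⟨z, hz, rfl⟩)
      · exact Or.inl h
      · right
        rw [inv_inv]
        exact hz
    · rintro (h | h)
      · exact Or.inl h
      · exact Or.inr ⟨y⁻¹, h, inv_inv y⟩
  let C : Set (G ⧸ L) := {q | ∃ g : G, q = (g : G ⧸ L) ∧ g ∈ W}
  have hC : ∀ g : G, (g : G ⧸ L) ∈ C ↔ g ∈ W := by
    intro g
    constructor
    · rintro ⟨g', h1, h2⟩
      have h3 : g⁻¹ * g' ∈ L := QuotientGroup.eq.1 h1
      have h4 := hW g _ h3
      rw [mul_inv_cancel_left] at h4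
      exact h4.1 h2
    · intro h
      exact ⟨g, rfl, h⟩
  have hsub : bd (CG L Y) C ⊆ ⋃ y ∈ Y2, (fun w : G => (((w : G) : G ⧸ L),
      ((w * y : G) : G ⧸ L))) '' {w | w ∈ W ∧ w * y ∉ W} := by
    rintro ⟨p, q⟩ ⟨⟨-, g, y, hy, h1, h2⟩, h3, h4⟩
    have h1' : p = (g : G ⧸ L) := h1
    have h2' : q = ((g * y : G) : G ⧸ L) := h2
    subst h1'
    subst h2'
    exact Set.mem_biUnion ((hY2m y).2 hy) ⟨g, ⟨(hC g).1 h3, fun h5 => h4 ((hC _).2 h5)⟩, rfl⟩
  have hUf : (⋃ y ∈ Y2, (fun w : G => (((w : G) : G ⧸ L),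
      ((w * y : G) : G ⧸ L))) '' {w | w ∈ W ∧ w * y ∉ W}).Finite :=
    Set.Finite.biUnion Y2.finite_toSet fun y hy => (hK y ((hY2m y).1 hy)).1.image _
  refine ⟨C, hC, hUf.subset hsub, ?_⟩
  refine (Set.ncard_le_ncard hsub hUf).trans ?_
  refine (Finset.set_ncard_biUnion_le _ _).trans ?_
  refine (Finset.sum_le_card_nsmul _ _ K fun y hy => ?_).trans ?_
  · obtain ⟨h1, h2⟩ := hK y ((hY2m y).1 hy)
    exact (Set.ncard_image_le h1).trans h2
  · rw [smul_eq_mul]
    exact Nat.mul_le_mul_right K hY2c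

end bdl

section free

variable {G : Type} [Group G]

/-- the two ends of a cyclic subgroup -/
noncomputable def pr (s : G) : Ultrafilter (G ⧸ (⊥ : Subgroup G)) × Ultrafilter (G ⧸ (⊥ : Subgroup G)) :=
  ((Filter.hyperfilter ℕ).map (fun n => ((s ^ n : G) : G ⧸ (⊥ : Subgroup G))),
    (Filter.hyperfilter ℕ).map (fun n => (((s ^ n)⁻¹ : G) : G ⧸ (⊥ : Subgroup G))))

/-- the translates of the pairs of ends -/
def prss (N : Subgroup G) :
    Set (Ultrafilter (G ⧸ (⊥ : Subgroup G)) × Ultrafilter (G ⧸ (⊥ : Subgroup G))) :=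
  {p | ∃ g : G, ∃ s ∈ N, s ≠ 1 ∧ p = tp g (pr s)}

theorem tp_tp {V : Type} [MulAction G V] (g h : G) (p : Ultrafilter V × Ultrafilter V) :
    tp g (tp h p) = tp (g * h) p := by
  unfold tp
  refine Prod.ext ?_ ?_
  · show (p.1.map (fun v => h • v)).map (fun v => g • v) = p.1.map (fun v => (g * h) • v)
    rw [Ultrafilter.map_map]
    congr 1
    funext v
    exact (mul_smul g h v).symm
  · show (p.2.map (fun v => h • v)).map (fun v => g • v) = p.2.map (fun v => (g * h) • v)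
    rw [Ultrafilter.map_map]
    congr 1
    funext v
    exact (mul_smul g h v).symm

/-- a tree on which a given torsion-free normal subgroup acts freely -/
theorem exists_free_tree (N : Subgroup G) (htf : ∀ s ∈ N, s ≠ 1 → ∀ n : ℕ, n ≠ 0 → s ^ n ≠ 1)
    (Y : Finset G) (hY : Subgroup.closure (Y : Set G) = ⊤) (K : ℕ)
    (hends : ∀ s ∈ N, s ≠ 1 → ∃ W : Set G, (∀ n : ℕ, n ≠ 0 → s ^ n ∉ W ∧ (s ^ n)⁻¹ ∈ W) ∧
      ∀ y, (y ∈ Y ∨ y⁻¹ ∈ Y) → {w | w ∈ W ∧ w * y ∉ W}.Finite ∧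
        {w | w ∈ W ∧ w * y ∉ W}.ncard ≤ K) :
    ∃ (V : Type) (_ : MulAction G V) (X : SimpleGraph V), IsTr G X ∧
      ∀ s ∈ N, ∀ x : V, s • x = x → s = 1 := by
  have hX : (CG (⊥ : Subgroup G) (Y : Set G)).Connected := by
    apply CG_conn
    rw [eq_top_iff, ← hY]
    exact Subgroup.closure_mono Set.subset_union_right
  have hG := CG_act (⊥ : Subgroup G) (Y : Set G)
  have hst : ∀ a b : G ⧸ (⊥ : Subgroup G), (CG (⊥ : Subgroup G) (Y : Set G)).Adj a b →
      {g : G | g • a = a ∧ g • b = b}.Finite := by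
    intro a b _
    refine (Set.finite_singleton 1).subset ?_
    rintro g ⟨h1, -⟩
    induction a using QuotientGroup.induction_on with
    | H a =>
    have h1' : ((g * a : G) : G ⧸ (⊥ : Subgroup G)) = (a : G ⧸ (⊥ : Subgroup G)) := h1
    rw [QuotientGroup.eq, Subgroup.mem_bot] at h1'
    rw [Set.mem_singleton_iff]
    have h2 : g * a = a := inv_mul_eq_one.1 h1'
    exact mul_eq_right.1 h2
  have hinv : ∀ p ∈ prss N, ∀ g : G, tp g p ∈ prss N := by
    rintro _ ⟨h, s, hs, hs1, rfl⟩ g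
    exact ⟨g * h, s, hs, hs1, tp_tp g h _⟩
  have hB : Bdd (CG (⊥ : Subgroup G) (Y : Set G)) (prss N) (2 * Y.card * K) := by
    rintro _ ⟨g, s, hs, hs1, rfl⟩
    obtain ⟨W, w1, w2⟩ := hends s hs hs1
    obtain ⟨C, c1, c2, c3⟩ := CG_bd (⊥ : Subgroup G) Y K W (by
      intro w l hl
      rw [Subgroup.mem_bot] at hl
      rw [hl, mul_one]) w2
    refine ⟨g • C, ?_, bd_smul_finite hG g c2, ?_⟩
    · rw [sp_smul]
      have hcof : {n : ℕ | n ≠ 0} ∈ (Filter.hyperfilter ℕ : Filter ℕ) := by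
        apply Filter.hyperfilter_le_cofinite
        rw [Filter.mem_cofinite]
        refine (Set.finite_singleton 0).subset ?_
        intro n hn
        by_contra h
        exact hn h
      intro h
      have h1 : C ∈ (pr s).2 := by
        show {n : ℕ | (((s ^ n)⁻¹ : G) : G ⧸ (⊥ : Subgroup G)) ∈ C} ∈ (Filter.hyperfilter ℕ : Filter ℕ)
        refine Filter.mem_of_superset hcof ?_
        intro n hn
        exact (c1 _).2 (w1 n hn).2
      have h2 : C ∈ (pr s).1 := h.2 h1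
      have h3 : {n : ℕ | ((s ^ n : G) : G ⧸ (⊥ : Subgroup G)) ∈ C} ∈
        (Filter.hyperfilter ℕ : Filter ℕ) := h2
      have h4 : (∅ : Set ℕ) ∈ (Filter.hyperfilter ℕ : Filter ℕ) := by
        refine Filter.mem_of_superset (Filter.inter_mem hcof h3) ?_
        rintro n ⟨h5, h6⟩
        exact (w1 n h5).1 ((c1 _).1 h6)
      exact (Filter.hyperfilter ℕ).empty_notMem h4
    · rw [bd_smul_ncard hG]
      exact c3
  have S : TSys G (EE (CG (⊥ : Subgroup G) (Y : Set G)) (prss N)) := ⟨EE_hsys hX hB,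
    fun h hh k hk => EE_nested hX hB hh hk, fun g h hh => EE_smul hG hinv g hh⟩
  obtain ⟨V', act', X', pp, sd, T, h1, h2, h3, h4, h5, h6⟩ :=
    exists_tree S ((1 : G) : G ⧸ (⊥ : Subgroup G))
  refine ⟨V', act', X', T, fun s hs x hx => ?_⟩
  by_contra hs1
  obtain ⟨E, hE, hsp⟩ := EE_sep hB (p := pr s) ⟨1, s, hs, hs1, by
    unfold tp
    refine Prod.ext ?_ ?_
    · show (pr s).1 = (pr s).1.map (fun v => (1 : G) • v)
      have : (fun v : G ⧸ (⊥ : Subgroup G) => (1 : G) • v) = id := by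
        funext v
        exact one_smul G v
      rw [this, Ultrafilter.map_id]
    · show (pr s).2 = (pr s).2.map (fun v => (1 : G) • v)
      have : (fun v : G ⧸ (⊥ : Subgroup G) => (1 : G) • v) = id := by
        funext v
        exact one_smul G v
      rw [this, Ultrafilter.map_id]⟩
  have hEfin : {g : G | g • E = E}.Finite :=
    stab_finite hG hst (AL_card hB (EE_AL hE)).1
      (bd_nonempty hX (AL_nonempty (EE_AL hE)) (AL_nonempty (AL_compl (EE_AL hE))))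
  -- a translation moving infinitely many points across the wall
  have key : ∀ t : G, t ≠ 1 → (∀ n : ℕ, n ≠ 0 → t ^ n ≠ 1) → t • x = x →
      ¬ {n : ℕ | ¬ (sd x E ↔ ((t ^ n : G) : G ⧸ (⊥ : Subgroup G)) ∈ E)}.Infinite := by
    intro t ht1 htf htx hinf
    have htn : ∀ n : ℕ, t ^ n • x = x := by
      intro n
      induction n with
      | zero => rw [pow_zero, one_smul]
      | succ n ih => rw [pow_succ, mul_smul, htx, ih]
    have hfin2 : {h | h ∈ EE (CG (⊥ : Subgroup G) (Y : Set G)) (prss N) ∧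
        ¬ (sd x h ↔ sd (pp ((1 : G) : G ⧸ (⊥ : Subgroup G))) h)}.Finite := by
      refine ((h6 x (pp ((1 : G) : G ⧸ (⊥ : Subgroup G)))).union
        (h6 (pp ((1 : G) : G ⧸ (⊥ : Subgroup G))) x)).subset ?_
      rintro h ⟨g1, g2⟩
      by_cases g3 : sd x h
      · exact Or.inl ⟨g1, g3, fun g4 => g2 ⟨fun _ => g4, fun _ => g3⟩⟩
      · refine Or.inr ⟨g1, ?_, g3⟩
        by_contra g4
        exact g2 ⟨fun g5 => absurd g5 g3, fun g5 => absurd g5 g4⟩
    have hmaps : Set.MapsTo (fun n : ℕ => (t ^ n)⁻¹ • E)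
        {n : ℕ | ¬ (sd x E ↔ ((t ^ n : G) : G ⧸ (⊥ : Subgroup G)) ∈ E)}
        {h | h ∈ EE (CG (⊥ : Subgroup G) (Y : Set G)) (prss N) ∧
        ¬ (sd x h ↔ sd (pp ((1 : G) : G ⧸ (⊥ : Subgroup G))) h)} := by
      intro n hn
      have g1 : (t ^ n)⁻¹ • E ∈ EE (CG (⊥ : Subgroup G) (Y : Set G)) (prss N) := S.inv _ _ hE
      refine ⟨g1, fun g2 => hn ?_⟩
      rw [h4 _ _ g1, Set.mem_smul_set_iff_inv_smul_mem, inv_inv] at g2
      have g3 : (t ^ n)⁻¹ • x = x := by
        rw [inv_smul_eq_iff]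
        exact (htn n).symm
      have g4 := h5 (t ^ n)⁻¹ x E
      rw [g3] at g4
      rw [← g4, g2]
      have g5 : t ^ n • ((1 : G) : G ⧸ (⊥ : Subgroup G)) = ((t ^ n : G) : G ⧸ (⊥ : Subgroup G)) := by
        show ((t ^ n * 1 : G) : G ⧸ (⊥ : Subgroup G)) = _
        rw [mul_one]
      rw [g5]
    obtain ⟨m, -, n, -, hmn, he⟩ := hinf.exists_ne_map_eq_of_mapsTo hmaps hfin2
    have he' : (t ^ m)⁻¹ • E = (t ^ n)⁻¹ • E := he
    -- a nontrivial power stabilises the wall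
    obtain ⟨k, hk, hkE⟩ : ∃ k : ℕ, k ≠ 0 ∧ t ^ k • E = E := by
      rcases lt_or_gt_of_ne hmn with h | h
      · refine ⟨n - m, by omega, ?_⟩
        have e1 : t ^ (n - m) = t ^ n * (t ^ m)⁻¹ := by
          rw [eq_mul_inv_iff_mul_eq, ← pow_add]
          congr 1
          omega
        rw [e1, mul_smul, he', smul_inv_smul]
      · refine ⟨m - n, by omega, ?_⟩
        have e1 : t ^ (m - n) = t ^ m * (t ^ n)⁻¹ := by
          rw [eq_mul_inv_iff_mul_eq, ← pow_add]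
          congr 1
          omega
        rw [e1, mul_smul, ← he', smul_inv_smul]
    have hpow : ∀ i : ℕ, (t ^ k) ^ i • E = E := by
      intro i
      induction i with
      | zero => rw [pow_zero, one_smul]
      | succ i ih => rw [pow_succ, mul_smul, hkE, ih]
    have hinj : Function.Injective (fun i : ℕ => (t ^ k) ^ i) := by
      intro a b hab
      have hab' : (t ^ k) ^ a = (t ^ k) ^ b := hab
      by_contra hne
      rcases lt_or_gt_of_ne hne with h | h
      · refine htf (k * (b - a)) (Nat.mul_ne_zero hk (by omega)) ?_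
        rw [pow_mul]
        have e1 : (t ^ k) ^ b = (t ^ k) ^ (b - a) * (t ^ k) ^ a := by
          rw [← pow_add]
          congr 1
          omega
        rw [e1] at hab'
        exact (mul_eq_right.1 hab'.symm)
      · refine htf (k * (a - b)) (Nat.mul_ne_zero hk (by omega)) ?_
        rw [pow_mul]
        have e1 : (t ^ k) ^ a = (t ^ k) ^ (a - b) * (t ^ k) ^ b := by
          rw [← pow_add]
          congr 1
          omega
        rw [e1] at hab'
        exact (mul_eq_right.1 hab')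
    refine Set.infinite_range_of_injective hinj (hEfin.subset ?_)
    rintro _ ⟨i, rfl⟩
    exact hpow i
  have hU : ∀ A : Set ℕ, A ∈ (Filter.hyperfilter ℕ : Filter ℕ) → A.Infinite := by
    intro A hA hfin
    have h7 : Aᶜ ∈ (Filter.hyperfilter ℕ : Filter ℕ) := by
      apply Filter.hyperfilter_le_cofinite
      rw [Filter.mem_cofinite, compl_compl]
      exact hfin
    have h8 := Filter.inter_mem hA h7
    rw [Set.inter_compl_self] at h8
    exact (Filter.hyperfilter ℕ).empty_notMem h8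
  have hs' : s⁻¹ • x = x := by
    rw [inv_smul_eq_iff]
    exact hx.symm
  have k1 := key s hs1 (htf s hs hs1) hx
  have k2 := key s⁻¹ (inv_ne_one.2 hs1) (fun n hn => by
    rw [inv_pow]
    exact inv_ne_one.2 (htf s hs hs1 n hn)) hs'
  have m1 : {n : ℕ | ¬ (sd x E ↔ ((s ^ n : G) : G ⧸ (⊥ : Subgroup G)) ∈ E)} ∉
    (Filter.hyperfilter ℕ : Filter ℕ) := fun h => k1 (hU _ h)
  have m2 : {n : ℕ | ¬ (sd x E ↔ (((s⁻¹) ^ n : G) : G ⧸ (⊥ : Subgroup G)) ∈ E)} ∉
    (Filter.hyperfilter ℕ : Filter ℕ) := fun h => k2 (hU _ h)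
  simp only [inv_pow] at m2
  apply hsp
  have n1 : E ∈ (pr s).1 ↔ {n : ℕ | ((s ^ n : G) : G ⧸ (⊥ : Subgroup G)) ∈ E} ∈
    Filter.hyperfilter ℕ := Iff.rfl
  have n2 : E ∈ (pr s).2 ↔ {n : ℕ | (((s ^ n)⁻¹ : G) : G ⧸ (⊥ : Subgroup G)) ∈ E} ∈
    Filter.hyperfilter ℕ := Iff.rfl
  rw [n1, n2]
  by_cases hx : sd x E
  · have e1 : {n : ℕ | ((s ^ n : G) : G ⧸ (⊥ : Subgroup G)) ∈ E} ∈ Filter.hyperfilter ℕ := by
      by_contra hc
      rw [← Ultrafilter.compl_mem_iff_notMem] at hc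
      apply m1
      refine Filter.mem_of_superset (x := {n : ℕ | ((s ^ n : G) : G ⧸ (⊥ : Subgroup G)) ∈ E}ᶜ) hc ?_
      intro n hn h
      exact hn (h.1 hx)
    have e2 : {n : ℕ | (((s ^ n)⁻¹ : G) : G ⧸ (⊥ : Subgroup G)) ∈ E} ∈ Filter.hyperfilter ℕ := by
      by_contra hc
      rw [← Ultrafilter.compl_mem_iff_notMem] at hc
      apply m2
      refine Filter.mem_of_superset
        (x := {n : ℕ | (((s ^ n)⁻¹ : G) : G ⧸ (⊥ : Subgroup G)) ∈ E}ᶜ) hc ?_
      intro n hn h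
      exact hn (h.1 hx)
    exact ⟨fun _ => e2, fun _ => e1⟩
  · have e1 : {n : ℕ | ((s ^ n : G) : G ⧸ (⊥ : Subgroup G)) ∈ E} ∉ Filter.hyperfilter ℕ := by
      intro hc
      apply m1
      refine Filter.mem_of_superset (x := {n : ℕ | ((s ^ n : G) : G ⧸ (⊥ : Subgroup G)) ∈ E}) hc ?_
      intro n hn h
      exact hx (h.2 hn)
    have e2 : {n : ℕ | (((s ^ n)⁻¹ : G) : G ⧸ (⊥ : Subgroup G)) ∈ E} ∉ Filter.hyperfilter ℕ := by
      intro hc
      apply m2
      refine Filter.mem_of_superset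
        (x := {n : ℕ | (((s ^ n)⁻¹ : G) : G ⧸ (⊥ : Subgroup G)) ∈ E}) hc ?_
      intro n hn h
      exact hx (h.2 hn)
    exact ⟨fun h => absurd h e1, fun h => absurd h e2⟩

end free

end Pool.Agent.R647
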