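import Mathlib

/-!
# Finite edge cuts of graphs: tight cuts through an edge
-/

set_option autoImplicit false

namespace Pool.Agent.R647

section basic

variable {V : Type} (X : SimpleGraph V)

/-- the oriented edges leaving a set of vertices -/
def bd (C : Set V) : Set (V × V) := {p | X.Adj p.1 p.2 ∧ p.1 ∈ C ∧ p.2 ∉ C}

/-- a set of vertices which cannot be split into two parts without edges between them -/
def Cn (C : Set V) : Prop :=
  ∀ A : Set V, A ⊆ C → A.Nonempty → (C \ A).Nonempty → ∃ a ∈ A, ∃ b ∈ C \ A, X.Adj a b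

variable {X}

theorem mem_bd {C : Set V} {a b : V} : (a, b) ∈ bd X C ↔ X.Adj a b ∧ a ∈ C ∧ b ∉ C := Iff.rfl

theorem bd_compl (C : Set V) : bd X Cᶜ = Prod.swap '' bd X C := by
  ext ⟨a, b⟩
  constructor
  · rintro ⟨h1, h2, h3⟩
    exact ⟨(b, a), ⟨h1.symm, not_not.1 h3, h2⟩, rfl⟩
  · rintro ⟨⟨c, d⟩, ⟨h1, h2, h3⟩, h4⟩
    simp only [Prod.swap_prod_mk, Prod.mk.injEq] at h4
    obtain ⟨rfl, rfl⟩ := h4
    exact ⟨h1.symm, h3, not_not.2 h2⟩

theorem bd_compl_ncard (C : Set V) : (bd X Cᶜ).ncard = (bd X C).ncard := by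
  rw [bd_compl]
  exact Set.ncard_image_of_injective _ Prod.swap_injective

theorem bd_compl_finite {C : Set V} (h : (bd X C).Finite) : (bd X Cᶜ).Finite := by
  rw [bd_compl]
  exact h.image _

theorem bd_nonempty (hX : X.Connected) {C : Set V} (h1 : C.Nonempty) (h2 : Cᶜ.Nonempty) :
    (bd X C).Nonempty := by
  obtain ⟨a, ha⟩ := h1
  obtain ⟨b, hb⟩ := h2
  obtain ⟨p⟩ := hX.preconnected a b
  obtain ⟨d, -, h3, h4⟩ := p.exists_boundary_dart C ha hb
  exact ⟨(d.fst, d.snd), d.adj, h3, h4⟩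

theorem bd_inter_finite {C D : Set V} (hC : (bd X C).Finite) (hD : (bd X D).Finite) :
    (bd X (C ∩ D)).Finite := by
  refine (hC.union hD).subset ?_
  rintro ⟨a, b⟩ ⟨h1, ⟨h2, h3⟩, h4⟩
  by_cases hb : b ∈ C
  · exact Or.inr ⟨h1, h3, fun h => h4 ⟨hb, h⟩⟩
  · exact Or.inl ⟨h1, h2, hb⟩

/-- submodularity, for opposite corners -/
theorem submod {C D : Set V} (hC : (bd X C).Finite) (hD : (bd X D).Finite) :
    (bd X (C ∩ D)).ncard + (bd X (Cᶜ ∩ Dᶜ)).ncard ≤ (bd X C).ncard + (bd X D).ncard := by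
  have e : Cᶜ ∩ Dᶜ = (C ∪ D)ᶜ := (Set.compl_union C D).symm
  rw [e, bd_compl_ncard]
  have hI := bd_inter_finite hC hD
  have hU : (bd X (C ∪ D)).Finite := by
    have h := bd_compl_finite (bd_inter_finite (bd_compl_finite hC) (bd_compl_finite hD))
    rwa [e, compl_compl] at h
  rw [← Set.ncard_union_add_ncard_inter _ _ hI hU, ← Set.ncard_union_add_ncard_inter _ _ hC hD]
  refine Nat.add_le_add (Set.ncard_le_ncard ?_ (hC.union hD))
    (Set.ncard_le_ncard ?_ (hC.subset Set.inter_subset_left))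
  · rintro ⟨a, b⟩ (⟨h1, ⟨h2, h3⟩, h4⟩ | ⟨h1, h2, h3⟩)
    · by_cases hb : b ∈ C
      · exact Or.inr ⟨h1, h3, fun h => h4 ⟨hb, h⟩⟩
      · exact Or.inl ⟨h1, h2, hb⟩
    · rcases h2 with h2 | h2
      · exact Or.inl ⟨h1, h2, fun h => h3 (Or.inl h)⟩
      · exact Or.inr ⟨h1, h2, fun h => h3 (Or.inr h)⟩
  · rintro ⟨a, b⟩ ⟨⟨h1, ⟨h2, h3⟩, -⟩, -, -, h4⟩
    exact ⟨⟨h1, h2, fun h => h4 (Or.inl h)⟩, h1, h3, fun h => h4 (Or.inr h)⟩

end basic

section tight

variable {V : Type}

/-- the cuts of size at most `k` with connected sides separating the adjacent vertices `a`, `b` -/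
def tight (X : SimpleGraph V) (k : ℕ) (a b : V) : Set (Set V) :=
  {D | a ∈ D ∧ b ∉ D ∧ Cn X D ∧ Cn X Dᶜ ∧ (bd X D).Finite ∧ (bd X D).ncard ≤ k}

/-- a set inducing a connected subgraph containing `a` but not `b` lies in the component of `a`
after the edge from `a` to `b` is removed -/
theorem sub_reach {X : SimpleGraph V} {a b : V} {D : Set V} (ha : a ∈ D) (hb : b ∉ D)
    (hD : Cn X D) : ∀ v ∈ D, (X.deleteEdges {s(a, b)}).Reachable a v := by
  by_contra hcon
  push Not at hcon
  obtain ⟨v, hv, hv'⟩ := hcon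
  obtain ⟨c, hc, d, hd, hcd⟩ := hD (D ∩ {v | (X.deleteEdges {s(a, b)}).Reachable a v})
    Set.inter_subset_left ⟨a, ha, SimpleGraph.Reachable.refl a⟩ ⟨v, hv, fun h => hv' h.2⟩
  apply hd.2
  refine ⟨hd.1, ?_⟩
  have h1 : (X.deleteEdges {s(a, b)}).Adj c d := by
    rw [SimpleGraph.deleteEdges_adj]
    refine ⟨hcd, ?_⟩
    intro h
    rw [Set.mem_singleton_iff, Sym2.eq_iff] at h
    rcases h with ⟨-, h⟩ | ⟨h, -⟩
    · exact hb (h ▸ hd.1)
    · exact hb (h ▸ hc.1)
  exact hc.2.trans h1.reachable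

theorem tight_finite (k : ℕ) : ∀ (X : SimpleGraph V), X.Connected → ∀ a b : V, X.Adj a b →
    (tight X k a b).Finite := by
  induction k with
  | zero =>
    intro X _ a b hab
    refine Set.finite_empty.subset ?_
    rintro D ⟨h1, h2, -, -, h3, h4⟩
    have h5 : bd X D = ∅ := (Set.ncard_eq_zero h3).1 (Nat.le_zero.1 h4)
    have h6 : (a, b) ∈ bd X D := ⟨hab, h1, h2⟩
    rw [h5] at h6
    exact h6
  | succ k ih =>
    intro X hX a b hab
    set X' := X.deleteEdges {s(a, b)} with hX'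
    have hle : ∀ c d, X'.Adj c d → X.Adj c d := fun c d h =>
      (SimpleGraph.deleteEdges_adj.1 h).1
    by_cases hr : X'.Reachable a b
    · have hconn : X'.Connected := by
        have : Nonempty V := ⟨a⟩
        refine SimpleGraph.Connected.mk fun u v => ?_
        obtain ⟨p⟩ := hX.preconnected u v
        induction p with
        | nil => exact SimpleGraph.Reachable.refl _
        | @cons c d e hcd _ ih' =>
          refine SimpleGraph.Reachable.trans ?_ ih'
          by_cases h : s(c, d) = s(a, b)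
          · rw [Sym2.eq_iff] at h
            rcases h with ⟨rfl, rfl⟩ | ⟨rfl, rfl⟩
            · exact hr
            · exact hr.symm
          · refine SimpleGraph.Adj.reachable (G := X') ?_
            rw [hX', SimpleGraph.deleteEdges_adj]
            exact ⟨hcd, h⟩
      obtain ⟨p⟩ := hr
      refine (Set.Finite.biUnion (List.finite_toSet p.darts)
        (t := fun d => tight X' k d.fst d.snd) fun d _ => ih X' hconn d.fst d.snd d.adj).subset ?_
      rintro D ⟨h1, h2, h3, h4, h5, h6⟩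
      obtain ⟨d, hd, h7, h8⟩ := p.exists_boundary_dart D h1 h2
      refine Set.mem_biUnion (show d ∈ {x | x ∈ p.darts} from hd) ?_
      have hbd : bd X' D = bd X D \ {(a, b)} := by
        ext ⟨c, e⟩
        constructor
        · rintro ⟨g1, g2, g3⟩
          refine ⟨⟨hle _ _ g1, g2, g3⟩, ?_⟩
          intro g4
          rw [Set.mem_singleton_iff, Prod.mk.injEq] at g4
          obtain ⟨rfl, rfl⟩ := g4
          have g1' : X'.Adj c e := g1
          rw [hX', SimpleGraph.deleteEdges_adj] at g1'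
          exact g1'.2 rfl
        · rintro ⟨⟨g1, g2, g3⟩, g4⟩
          refine ⟨?_, g2, g3⟩
          show X'.Adj c e
          rw [hX', SimpleGraph.deleteEdges_adj]
          refine ⟨g1, ?_⟩
          intro g5
          rw [Set.mem_singleton_iff, Sym2.eq_iff] at g5
          rcases g5 with ⟨rfl, rfl⟩ | ⟨rfl, rfl⟩
          · exact g4 rfl
          · exact g3 h1
      have hCn : ∀ E : Set V, (a ∉ E ∨ b ∉ E) → Cn X E → Cn X' E := by
        intro E hE hc A hA hA1 hA2
        obtain ⟨u, hu, v, hv, huv⟩ := hc A hA hA1 hA2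
        refine ⟨u, hu, v, hv, ?_⟩
        rw [hX', SimpleGraph.deleteEdges_adj]
        refine ⟨huv, ?_⟩
        intro g5
        rw [Set.mem_singleton_iff, Sym2.eq_iff] at g5
        rcases g5 with ⟨rfl, rfl⟩ | ⟨rfl, rfl⟩
        · rcases hE with hE | hE
          · exact hE (hA hu)
          · exact hE hv.1
        · rcases hE with hE | hE
          · exact hE hv.1
          · exact hE (hA hu)
      refine ⟨h7, h8, hCn D (Or.inr h2) h3, hCn Dᶜ (Or.inl (not_not.2 h1)) h4, ?_, ?_⟩
      · rw [hbd]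
        exact h5.subset Set.sdiff_subset
      · have h9 := Set.ncard_sdiff_singleton_add_one (show (a, b) ∈ bd X D from ⟨hab, h1, h2⟩) h5
        rw [hbd]
        omega
    · refine (Set.finite_singleton {v | X'.Reachable a v}).subset ?_
      rintro D ⟨h1, h2, h3, h4, -, -⟩
      rw [Set.mem_singleton_iff]
      have s1 := sub_reach h1 h2 h3
      have s2 := sub_reach (X := X) (a := b) (b := a) (D := Dᶜ) h2 (not_not.2 h1) h4
      rw [Sym2.eq_swap] at s2
      refine Set.Subset.antisymm (fun v hv => s1 v hv) ?_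
      intro v hv
      by_contra hvD
      have h7 : X'.Reachable b v := s2 v hvD
      exact hr (SimpleGraph.Reachable.trans hv h7.symm)

end tight

end Pool.Agent.R647
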