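import Pool.Agent.R647.Cut1

/-!
# Optimal cuts are nested

Pairs of ultrafilters on the vertices are separated by finite cuts of bounded size.  Among the
smallest cuts separating a pair, those which cross the least number of other smallest cuts are
pairwise nested.
-/

set_option autoImplicit false

namespace Pool.Agent.R647

section def_crs

variable {V : Type}

/-- two sets cross if all four corners are nonempty -/
def Crs (C D : Set V) : Prop :=
  (C ∩ D).Nonempty ∧ (C ∩ Dᶜ).Nonempty ∧ (Cᶜ ∩ D).Nonempty ∧ (Cᶜ ∩ Dᶜ).Nonempty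

theorem Crs.symm {C D : Set V} (h : Crs C D) : Crs D C := by
  obtain ⟨h1, h2, h3, h4⟩ := h
  refine ⟨?_, ?_, ?_, ?_⟩
  · rwa [Set.inter_comm]
  · rwa [Set.inter_comm]
  · rwa [Set.inter_comm]
  · rwa [Set.inter_comm]

theorem Crs.compl_left {C D : Set V} (h : Crs C D) : Crs Cᶜ D := by
  obtain ⟨h1, h2, h3, h4⟩ := h
  refine ⟨h3, h4, ?_, ?_⟩
  · rwa [compl_compl]
  · rwa [compl_compl]

theorem Crs.compl_right {C D : Set V} (h : Crs C D) : Crs C Dᶜ := h.symm.compl_left.symm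

theorem crs_compl_left {C D : Set V} : Crs Cᶜ D ↔ Crs C D :=
  ⟨fun h => by have := h.compl_left; rwa [compl_compl] at this, Crs.compl_left⟩

theorem crs_compl_right {C D : Set V} : Crs C Dᶜ ↔ Crs C D :=
  ⟨fun h => by have := h.compl_right; rwa [compl_compl] at this, Crs.compl_right⟩

theorem not_crs {C D : Set V} :
    ¬ Crs C D ↔ (C ⊆ Dᶜ ∨ C ⊆ D ∨ Cᶜ ⊆ Dᶜ ∨ Cᶜ ⊆ D) := by
  unfold Crs
  constructor
  · intro h
    by_contra hc
    push Not at hc
    obtain ⟨h1, h2, h3, h4⟩ := hc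
    rw [Set.not_subset] at h1 h2 h3 h4
    obtain ⟨a, ha, ha'⟩ := h1
    obtain ⟨b, hb, hb'⟩ := h2
    obtain ⟨c, hc, hc'⟩ := h3
    obtain ⟨d, hd, hd'⟩ := h4
    exact h ⟨⟨a, ha, not_not.1 ha'⟩, ⟨b, hb, hb'⟩, ⟨c, hc, not_not.1 hc'⟩, ⟨d, hd, hd'⟩⟩
  · rintro (h | h | h | h) ⟨⟨a, ha⟩, ⟨b, hb⟩, ⟨c, hc⟩, ⟨d, hd⟩⟩
    · exact h ha.1 ha.2
    · exact hb.2 (h hb.1)
    · exact h hc.1 hc.2
    · exact hd.2 (h hd.1)

/-- a set crossing a corner crosses one of the two sets -/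
theorem crs_corner {B C D : Set V} (hne : (Cᶜ ∩ Dᶜ).Nonempty) (h : Crs B (C ∩ D)) :
    Crs B C ∨ Crs B D := by
  by_contra hc
  push Not at hc
  obtain ⟨h1, h2⟩ := hc
  obtain ⟨⟨a, ha⟩, ⟨b, hb⟩, ⟨c, hc⟩, ⟨d, hd⟩⟩ := h
  obtain ⟨e, he1, he2⟩ := hne
  rw [not_crs] at h1 h2
  rcases h1 with h1 | h1 | h1 | h1
  · exact h1 ha.1 ha.2.1
  · rcases h2 with h2 | h2 | h2 | h2
    · exact h2 ha.1 ha.2.2
    · exact hb.2 ⟨h1 hb.1, h2 hb.1⟩
    · exact h2 hc.1 hc.2.2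
    · by_cases heB : e ∈ B
      · exact he1 (h1 heB)
      · exact he2 (h2 heB)
  · exact h1 hc.1 hc.2.1
  · rcases h2 with h2 | h2 | h2 | h2
    · exact h2 ha.1 ha.2.2
    · by_cases heB : e ∈ B
      · exact he2 (h2 heB)
      · exact he1 (h1 heB)
    · exact h2 hc.1 hc.2.2
    · exact hd.2 ⟨h1 hd.1, h2 hd.1⟩

/-- a set crossing two opposite corners crosses both sets -/
theorem crs_corners {B C D : Set V} (h1 : Crs B (C ∩ D)) (h2 : Crs B (Cᶜ ∩ Dᶜ)) : Crs B C := by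
  obtain ⟨⟨a, ha⟩, -, ⟨c, hc⟩, -⟩ := h1
  obtain ⟨⟨a', ha'⟩, -, ⟨c', hc'⟩, -⟩ := h2
  exact ⟨⟨a, ha.1, ha.2.1⟩, ⟨a', ha'.1, ha'.2.1⟩, ⟨c, hc.1, hc.2.1⟩, ⟨c', hc'.1, hc'.2.1⟩⟩

end def_crs

section family

variable {V : Type}

/-- `C` separates the pair `p` of ultrafilters -/
def Sp (p : Ultrafilter V × Ultrafilter V) (C : Set V) : Prop := ¬ (C ∈ p.1 ↔ C ∈ p.2)

theorem sp_compl {p : Ultrafilter V × Ultrafilter V} {C : Set V} : Sp p Cᶜ ↔ Sp p C := by
  unfold Sp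
  rw [Ultrafilter.compl_mem_iff_notMem, Ultrafilter.compl_mem_iff_notMem]
  tauto

variable (X : SimpleGraph V) (PP : Set (Ultrafilter V × Ultrafilter V))

/-- the smallest size of a finite cut separating a pair -/
noncomputable def kk (p : Ultrafilter V × Ultrafilter V) : ℕ :=
  sInf {n | ∃ C, Sp p C ∧ (bd X C).Finite ∧ (bd X C).ncard = n}

/-- the smallest cuts separating a pair -/
def Mn (p : Ultrafilter V × Ultrafilter V) : Set (Set V) :=
  {C | Sp p C ∧ (bd X C).Finite ∧ (bd X C).ncard = kk X p}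

/-- all smallest cuts -/
def AL : Set (Set V) := {C | ∃ p ∈ PP, C ∈ Mn X p}

/-- the number of smallest cuts crossing `C` -/
noncomputable def mm (C : Set V) : ℕ := {B | B ∈ AL X PP ∧ Crs B C}.ncard

/-- the optimal cuts separating a pair -/
def Opt (p : Ultrafilter V × Ultrafilter V) : Set (Set V) :=
  {C | C ∈ Mn X p ∧ ∀ D ∈ Mn X p, mm X PP C ≤ mm X PP D}

/-- the family of all optimal cuts -/
def EE : Set (Set V) := {C | ∃ p ∈ PP, C ∈ Opt X PP p}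

variable {X PP}

theorem kk_le {p : Ultrafilter V × Ultrafilter V} {C : Set V} (h : Sp p C)
    (hC : (bd X C).Finite) : kk X p ≤ (bd X C).ncard := Nat.sInf_le ⟨C, h, hC, rfl⟩

theorem Mn_nonempty {p : Ultrafilter V × Ultrafilter V} {C : Set V} (h : Sp p C)
    (hC : (bd X C).Finite) : (Mn X p).Nonempty :=
  Nat.sInf_mem (s := {n | ∃ C, Sp p C ∧ (bd X C).Finite ∧ (bd X C).ncard = n}) ⟨_, C, h, hC, rfl⟩

theorem Opt_nonempty {p : Ultrafilter V × Ultrafilter V} {C : Set V} (h : Sp p C)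
    (hC : (bd X C).Finite) : (Opt X PP p).Nonempty := by
  obtain ⟨D, hD⟩ := Mn_nonempty h hC
  have hex : ∃ n, ∃ D, D ∈ Mn X p ∧ mm X PP D = n := ⟨_, D, hD, rfl⟩
  classical
  obtain ⟨E, hE, hE'⟩ := Nat.find_spec hex
  refine ⟨E, hE, fun D' hD' => ?_⟩
  rw [hE']
  exact Nat.find_min' hex ⟨D', hD', rfl⟩

theorem Mn_compl {p : Ultrafilter V × Ultrafilter V} {C : Set V} (h : C ∈ Mn X p) :
    Cᶜ ∈ Mn X p := by
  obtain ⟨h1, h2, h3⟩ := h
  exact ⟨sp_compl.2 h1, bd_compl_finite h2, by rw [bd_compl_ncard]; exact h3⟩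

theorem AL_compl {C : Set V} (h : C ∈ AL X PP) : Cᶜ ∈ AL X PP := by
  obtain ⟨p, hp, h⟩ := h
  exact ⟨p, hp, Mn_compl h⟩

theorem mm_compl (C : Set V) : mm X PP Cᶜ = mm X PP C := by
  unfold mm
  congr 1
  ext B
  exact and_congr_right fun _ => crs_compl_right

theorem Opt_compl {p : Ultrafilter V × Ultrafilter V} {C : Set V} (h : C ∈ Opt X PP p) :
    Cᶜ ∈ Opt X PP p := by
  refine ⟨Mn_compl h.1, fun D hD => ?_⟩
  rw [mm_compl]
  exact h.2 D hD

theorem EE_compl {C : Set V} (h : C ∈ EE X PP) : Cᶜ ∈ EE X PP := by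
  obtain ⟨p, hp, h⟩ := h
  exact ⟨p, hp, Opt_compl h⟩

theorem EE_AL {C : Set V} (h : C ∈ EE X PP) : C ∈ AL X PP := by
  obtain ⟨p, hp, h⟩ := h
  exact ⟨p, hp, h.1⟩

theorem sp_nonempty {p : Ultrafilter V × Ultrafilter V} {C : Set V} (h : Sp p C) :
    C.Nonempty ∧ Cᶜ.Nonempty := by
  constructor
  · by_contra hc
    rw [Set.not_nonempty_iff_eq_empty] at hc
    subst hc
    apply h
    exact ⟨fun h => absurd h p.1.empty_notMem, fun h => absurd h p.2.empty_notMem⟩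
  · by_contra hc
    rw [Set.not_nonempty_iff_eq_empty] at hc
    have : C = Set.univ := by rw [← compl_compl C, hc, Set.compl_empty]
    subst this
    exact h ⟨fun _ => Filter.univ_mem, fun _ => Filter.univ_mem⟩

theorem AL_nonempty {C : Set V} (h : C ∈ AL X PP) : C.Nonempty := by
  obtain ⟨p, -, h⟩ := h
  exact (sp_nonempty h.1).1

/-- a smallest cut has connected sides -/
theorem Mn_cn (hX : X.Connected) {p : Ultrafilter V × Ultrafilter V} {C : Set V}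
    (h : C ∈ Mn X p) : Cn X C := by
  intro A hA hA1 hA2
  by_contra hcon
  push Not at hcon
  obtain ⟨h1, h2, h3⟩ := h
  have hCne := sp_nonempty h1
  have hAc : Aᶜ.Nonempty := hCne.2.mono (Set.compl_subset_compl.2 hA)
  have hBc : (C \ A)ᶜ.Nonempty := hCne.2.mono (Set.compl_subset_compl.2 Set.sdiff_subset)
  have hbA : bd X A ⊆ bd X C := by
    rintro ⟨a, b⟩ ⟨g1, g2, g3⟩
    refine ⟨g1, hA g2, fun hb => hcon a g2 b ⟨hb, g3⟩ g1⟩
  have hbB : bd X (C \ A) ⊆ bd X C := by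
    rintro ⟨a, b⟩ ⟨g1, g2, g3⟩
    refine ⟨g1, g2.1, fun hb => hcon b ?_ a g2 g1.symm⟩
    by_contra hbA
    exact g3 ⟨hb, hbA⟩
  have hfA := h2.subset hbA
  have hfB := h2.subset hbB
  have hdis : Disjoint (bd X A) (bd X (C \ A)) := by
    rw [Set.disjoint_left]
    rintro ⟨a, b⟩ ⟨-, g2, -⟩ ⟨-, g3, -⟩
    exact g3.2 g2
  have hsum : (bd X A).ncard + (bd X (C \ A)).ncard ≤ (bd X C).ncard := by
    rw [← Set.ncard_union_eq hdis hfA hfB]
    exact Set.ncard_le_ncard (Set.union_subset hbA hbB) h2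
  have hpA : 0 < (bd X A).ncard := (Set.ncard_pos hfA).2 (bd_nonempty hX hA1 hAc)
  have hpB : 0 < (bd X (C \ A)).ncard := (Set.ncard_pos hfB).2 (bd_nonempty hX hA2 hBc)
  have key : Sp p A ∨ Sp p (C \ A) := by
    have hun : A ∪ (C \ A) = C := Set.union_sdiff_cancel hA
    have e1 : C ∈ p.1 ↔ A ∈ p.1 ∨ C \ A ∈ p.1 := by
      rw [← Ultrafilter.union_mem_iff, hun]
    have e2 : C ∈ p.2 ↔ A ∈ p.2 ∨ C \ A ∈ p.2 := by
      rw [← Ultrafilter.union_mem_iff, hun]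
    unfold Sp at h1 ⊢
    rw [e1, e2] at h1
    tauto
  rcases key with h | h
  · have := kk_le h hfA
    omega
  · have := kk_le h hfB
    omega

theorem AL_cn (hX : X.Connected) {C : Set V} (h : C ∈ AL X PP) : Cn X C := by
  obtain ⟨p, -, h⟩ := h
  exact Mn_cn hX h

/-- all pairs are separated by cuts of size at most `K` -/
def Bdd (X : SimpleGraph V) (PP : Set (Ultrafilter V × Ultrafilter V)) (K : ℕ) : Prop :=
  ∀ p ∈ PP, ∃ C, Sp p C ∧ (bd X C).Finite ∧ (bd X C).ncard ≤ K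

theorem AL_card {K : ℕ} (hK : Bdd X PP K) {C : Set V} (h : C ∈ AL X PP) :
    (bd X C).Finite ∧ (bd X C).ncard ≤ K := by
  obtain ⟨p, hp, h1, h2, h3⟩ := h
  obtain ⟨D, g1, g2, g3⟩ := hK p hp
  have := kk_le g1 g2
  exact ⟨h2, by omega⟩

theorem AL_tight (hX : X.Connected) {K : ℕ} (hK : Bdd X PP K) {C : Set V} (h : C ∈ AL X PP)
    {a b : V} (ha : a ∈ C) (hb : b ∉ C) : C ∈ tight X K a b :=
  ⟨ha, hb, AL_cn hX h, AL_cn hX (AL_compl h), AL_card hK h⟩

/-- only finitely many smallest cuts separate two vertices -/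
theorem AL_fin (hX : X.Connected) {K : ℕ} (hK : Bdd X PP K) (a b : V) :
    {C | C ∈ AL X PP ∧ a ∈ C ∧ b ∉ C}.Finite := by
  obtain ⟨p⟩ := hX.preconnected a b
  refine (Set.Finite.biUnion (List.finite_toSet p.darts)
    (t := fun d => tight X K d.fst d.snd) fun d _ => tight_finite K X hX d.fst d.snd d.adj).subset ?_
  rintro C ⟨h1, h2, h3⟩
  obtain ⟨d, hd, h4, h5⟩ := p.exists_boundary_dart C h2 h3
  exact Set.mem_biUnion (show d ∈ {x | x ∈ p.darts} from hd) (AL_tight hX hK h1 h4 h5)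

/-- only finitely many smallest cuts cross a given one -/
theorem crs_fin (hX : X.Connected) {K : ℕ} (hK : Bdd X PP K) {C : Set V}
    (hC : (bd X C).Finite) : {B | B ∈ AL X PP ∧ Crs B C}.Finite := by
  set P : Set V := Prod.fst '' bd X C ∪ Prod.snd '' bd X C with hP
  have hPf : P.Finite := (hC.image _).union (hC.image _)
  refine (Set.Finite.biUnion hPf (t := fun a => ⋃ b ∈ P, {B | B ∈ AL X PP ∧ a ∈ B ∧ b ∉ B})
    fun a _ => Set.Finite.biUnion hPf fun b _ => AL_fin hX hK a b).subset ?_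
  rintro B ⟨hB, hcr⟩
  have key : ∀ B : Set V, Cn X B → Crs B C → ∃ a ∈ P, a ∈ B := by
    intro B hB hcr
    obtain ⟨⟨a, ha⟩, ⟨b, hb⟩, -, -⟩ := hcr
    obtain ⟨c, hc, d, hd, hcd⟩ := hB (B ∩ C) Set.inter_subset_left ⟨a, ha⟩
      ⟨b, hb.1, fun h => hb.2 h.2⟩
    refine ⟨c, Or.inl ⟨(c, d), ⟨hcd, hc.2, fun h => hd.2 ⟨hd.1, h⟩⟩, rfl⟩, hc.1⟩
  obtain ⟨a, ha, ha'⟩ := key B (AL_cn hX hB) hcr
  obtain ⟨b, hb, hb'⟩ := key Bᶜ (AL_cn hX (AL_compl hB)) hcr.compl_left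
  exact Set.mem_biUnion ha (Set.mem_biUnion hb ⟨hB, ha', hb'⟩)

/-- the crossing numbers of opposite corners -/
theorem mm_lt (hX : X.Connected) {K : ℕ} (hK : Bdd X PP K) {C D : Set V} (hC : C ∈ AL X PP)
    (hD : D ∈ AL X PP) (hcr : Crs C D) :
    mm X PP (C ∩ D) + mm X PP (Cᶜ ∩ Dᶜ) < mm X PP C + mm X PP D := by
  have fC := crs_fin hX hK (AL_card hK hC).1
  have fD := crs_fin hX hK (AL_card hK hD).1
  have f1 := crs_fin hX hK (bd_inter_finite (AL_card hK hC).1 (AL_card hK hD).1)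
  have f2 := crs_fin hX hK (bd_inter_finite (bd_compl_finite (AL_card hK hC).1)
    (bd_compl_finite (AL_card hK hD).1))
  unfold mm
  rw [← Set.ncard_union_add_ncard_inter _ _ f1 f2, ← Set.ncard_union_add_ncard_inter _ _ fC fD]
  refine Nat.add_lt_add_of_lt_of_le ?_ ?_
  · refine Set.ncard_lt_ncard ?_ (fC.union fD)
    rw [Set.ssubset_iff_of_subset]
    · refine ⟨C, Or.inr ⟨hC, hcr⟩, ?_⟩
      rintro (⟨-, h⟩ | ⟨-, h⟩)
      · obtain ⟨-, -, ⟨c, hc⟩, -⟩ := h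
        exact hc.1 hc.2.1
      · obtain ⟨⟨c, hc⟩, -, -, -⟩ := h
        exact hc.2.1 hc.1
    · rintro B (⟨h1, h2⟩ | ⟨h1, h2⟩)
      · rcases crs_corner hcr.2.2.2 h2 with h | h
        · exact Or.inl ⟨h1, h⟩
        · exact Or.inr ⟨h1, h⟩
      · have hne : (Cᶜᶜ ∩ Dᶜᶜ).Nonempty := by
          rw [compl_compl, compl_compl]
          exact hcr.1
        rcases crs_corner hne h2 with h | h
        · exact Or.inl ⟨h1, crs_compl_right.1 h⟩
        · exact Or.inr ⟨h1, crs_compl_right.1 h⟩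
  · refine Set.ncard_le_ncard ?_ (fC.subset Set.inter_subset_left)
    rintro B ⟨⟨h1, h2⟩, -, h3⟩
    refine ⟨⟨h1, crs_corners h2 h3⟩, h1, ?_⟩
    rw [Set.inter_comm] at h2 h3
    exact crs_corners h2 h3

/-- opposite corners separating the two pairs give a contradiction -/
theorem good_case (hX : X.Connected) {K : ℕ} (hK : Bdd X PP K)
    {p q : Ultrafilter V × Ultrafilter V} (hp : p ∈ PP) (hq : q ∈ PP) {C D : Set V}
    (hC : C ∈ Opt X PP p) (hD : D ∈ Opt X PP q) (hcr : Crs C D)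
    (h : (Sp p (C ∩ D) ∧ Sp q (Cᶜ ∩ Dᶜ)) ∨ (Sp q (C ∩ D) ∧ Sp p (Cᶜ ∩ Dᶜ))) : False := by
  have fC := hC.1.2.1
  have fD := hD.1.2.1
  have f1 := bd_inter_finite fC fD
  have f2 := bd_inter_finite (bd_compl_finite fC) (bd_compl_finite fD)
  have hs := submod fC fD
  have hlt := mm_lt hX hK ⟨p, hp, hC.1⟩ ⟨q, hq, hD.1⟩ hcr
  have eC := hC.1.2.2
  have eD := hD.1.2.2
  rcases h with ⟨h1, h2⟩ | ⟨h1, h2⟩
  · have k1 := kk_le h1 f1
    have k2 := kk_le h2 f2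
    have m1 := hC.2 (C ∩ D) ⟨h1, f1, by omega⟩
    have m2 := hD.2 (Cᶜ ∩ Dᶜ) ⟨h2, f2, by omega⟩
    omega
  · have k1 := kk_le h1 f1
    have k2 := kk_le h2 f2
    have m1 := hD.2 (C ∩ D) ⟨h1, f1, by omega⟩
    have m2 := hC.2 (Cᶜ ∩ Dᶜ) ⟨h2, f2, by omega⟩
    omega

/-- the remaining case -/
theorem bad_case (hX : X.Connected) {K : ℕ} (hK : Bdd X PP K)
    {p q : Ultrafilter V × Ultrafilter V} (hp : p ∈ PP) (hq : q ∈ PP) {C D : Set V}
    (hC : C ∈ Opt X PP p) (hD : D ∈ Opt X PP q) (hcr : Crs C D)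
    (h1 : Sp p (C ∩ D)) (h2 : Sp p (Cᶜ ∩ Dᶜ)) (h3 : Sp q (C ∩ Dᶜ)) (h4 : Sp q (Cᶜ ∩ D))
    (h5 : Sp q C) (h6 : Sp p D) : False := by
  have fC := hC.1.2.1
  have fD := hD.1.2.1
  have f1 := bd_inter_finite fC fD
  have f2 := bd_inter_finite (bd_compl_finite fC) (bd_compl_finite fD)
  have f3 := bd_inter_finite fC (bd_compl_finite fD)
  have f4 := bd_inter_finite (bd_compl_finite fC) fD
  have hs := submod fC fD
  have hs' := submod fC (bd_compl_finite fD)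
  rw [compl_compl, bd_compl_ncard] at hs'
  have hlt := mm_lt hX hK ⟨p, hp, hC.1⟩ ⟨q, hq, hD.1⟩ hcr
  have eC := hC.1.2.2
  have eD := hD.1.2.2
  have k1 := kk_le h1 f1
  have k2 := kk_le h2 f2
  have k3 := kk_le h3 f3
  have k4 := kk_le h4 f4
  have m1 := hC.2 (C ∩ D) ⟨h1, f1, by omega⟩
  have m2 := hC.2 (Cᶜ ∩ Dᶜ) ⟨h2, f2, by omega⟩
  have m3 := hD.2 C ⟨h5, fC, by omega⟩
  have m4 := hC.2 D ⟨h6, fD, by omega⟩
  omega

/-- optimal cuts are nested -/
theorem EE_nested (hX : X.Connected) {K : ℕ} (hK : Bdd X PP K) {C D : Set V}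
    (hC : C ∈ EE X PP) (hD : D ∈ EE X PP) : ¬ Crs C D := by
  intro hcr
  obtain ⟨p, hp, hC⟩ := hC
  obtain ⟨q, hq, hD⟩ := hD
  have g1 := good_case hX hK hp hq hC hD hcr
  have g2 := good_case hX hK hp hq (Opt_compl hC) hD hcr.compl_left
  have b1 := bad_case hX hK hp hq hC hD hcr
  have b2 := bad_case hX hK hp hq (Opt_compl hC) hD hcr.compl_left
  have sC := hC.1.1
  have sD := hD.1.1
  rw [compl_compl] at g2 b2
  have e : ∀ (r : Ultrafilter V) (A B : Set V), A ∩ B ∈ r ↔ A ∈ r ∧ B ∈ r := fun r A B =>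
    Filter.inter_mem_iff
  simp only [Sp, e, Ultrafilter.compl_mem_iff_notMem] at g1 g2 b1 b2 sC sD
  clear e hC hD hcr
  generalize (C ∈ p.1) = c1 at *
  generalize (C ∈ p.2) = c2 at *
  generalize (D ∈ p.1) = d1 at *
  generalize (D ∈ p.2) = d2 at *
  generalize (C ∈ q.1) = c3 at *
  generalize (C ∈ q.2) = c4 at *
  generalize (D ∈ q.1) = d3 at *
  generalize (D ∈ q.2) = d4 at *
  rcases Classical.propComplete c1 with rfl | rfl <;>
  rcases Classical.propComplete c2 with rfl | rfl <;>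
  first
  | exact sC Iff.rfl
  | (rcases Classical.propComplete d3 with rfl | rfl <;>
     rcases Classical.propComplete d4 with rfl | rfl <;>
     first
     | exact sD Iff.rfl
     | (rcases Classical.propComplete d1 with rfl | rfl <;>
        rcases Classical.propComplete d2 with rfl | rfl <;>
        rcases Classical.propComplete c3 with rfl | rfl <;>
        rcases Classical.propComplete c4 with rfl | rfl <;>
        simp at g1 g2 b1 b2))

end family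

end Pool.Agent.R647
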