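import Pool.Agent.R647.Cut2
import Pool.Agent.TH97.VR.Dual

/-!
# Optimal cuts: invariance under a group
-/

set_option autoImplicit false

namespace Pool.Agent.R647

open Pool.Agent.H97R3.VR Pool.Agent.TH97.VR
open Pointwise

section inv

variable {G V : Type} [Group G] [MulAction G V] {X : SimpleGraph V}
  {PP : Set (Ultrafilter V × Ultrafilter V)}

/-- the translate of a pair of ultrafilters -/
def tp (g : G) (p : Ultrafilter V × Ultrafilter V) : Ultrafilter V × Ultrafilter V :=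
  (p.1.map (fun v => g • v), p.2.map (fun v => g • v))

theorem pre_smul (g : G) (C : Set V) : (fun v => g • v) ⁻¹' (g • C) = C := by
  ext v
  exact Set.smul_mem_smul_set_iff

theorem sp_smul (g : G) (p : Ultrafilter V × Ultrafilter V) (C : Set V) :
    Sp (tp g p) (g • C) ↔ Sp p C := by
  unfold Sp tp
  rw [Ultrafilter.mem_map, Ultrafilter.mem_map, pre_smul]

variable (hG : ∀ (g : G) (a b : V), X.Adj a b → X.Adj (g • a) (g • b))

include hG

theorem adj_iff (g : G) (a b : V) : X.Adj (g • a) (g • b) ↔ X.Adj a b := by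
  refine ⟨fun h => ?_, hG g a b⟩
  have := hG g⁻¹ _ _ h
  rwa [inv_smul_smul, inv_smul_smul] at this

theorem bd_smul (g : G) (C : Set V) :
    bd X (g • C) = (fun p : V × V => (g • p.1, g • p.2)) '' bd X C := by
  ext ⟨a, b⟩
  constructor
  · rintro ⟨h1, h2, h3⟩
    refine ⟨(g⁻¹ • a, g⁻¹ • b), ⟨hG g⁻¹ _ _ h1, ?_, ?_⟩, ?_⟩
    · exact Set.mem_smul_set_iff_inv_smul_mem.1 h2
    · exact fun h => h3 (Set.mem_smul_set_iff_inv_smul_mem.2 h)
    · show (g • g⁻¹ • a, g • g⁻¹ • b) = (a, b)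
      rw [smul_inv_smul, smul_inv_smul]
  · rintro ⟨⟨c, d⟩, ⟨h1, h2, h3⟩, h4⟩
    simp only [Prod.mk.injEq] at h4
    obtain ⟨rfl, rfl⟩ := h4
    exact ⟨hG g _ _ h1, Set.smul_mem_smul_set h2, fun h => h3 (Set.smul_mem_smul_set_iff.1 h)⟩

theorem bd_smul_inj (g : G) : Function.Injective (fun p : V × V => (g • p.1, g • p.2)) := by
  rintro ⟨a, b⟩ ⟨c, d⟩ h
  simp only [Prod.mk.injEq] at h
  rw [smul_left_cancel_iff, smul_left_cancel_iff] at h
  rw [h.1, h.2]

theorem bd_smul_ncard (g : G) (C : Set V) : (bd X (g • C)).ncard = (bd X C).ncard := by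
  rw [bd_smul hG]
  exact Set.ncard_image_of_injective _ (bd_smul_inj hG g)

theorem bd_smul_finite (g : G) {C : Set V} (h : (bd X C).Finite) : (bd X (g • C)).Finite := by
  rw [bd_smul hG]
  exact h.image _

theorem kk_smul (g : G) (p : Ultrafilter V × Ultrafilter V) : kk X (tp g p) = kk X p := by
  have key : ∀ (g : G) (p : Ultrafilter V × Ultrafilter V) (n : ℕ),
      (∃ C, Sp p C ∧ (bd X C).Finite ∧ (bd X C).ncard = n) →
      ∃ C, Sp (tp g p) C ∧ (bd X C).Finite ∧ (bd X C).ncard = n := by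
    rintro g p n ⟨C, h1, h2, h3⟩
    exact ⟨g • C, (sp_smul g p C).2 h1, bd_smul_finite hG g h2, by rw [bd_smul_ncard hG]; exact h3⟩
  have e : tp g⁻¹ (tp g p) = p := by
    unfold tp
    refine Prod.ext ?_ ?_
    · show (p.1.map (fun v => g • v)).map (fun v => g⁻¹ • v) = p.1
      rw [Ultrafilter.map_map]
      have : ((fun v : V => g⁻¹ • v) ∘ fun v => g • v) = id := by
        funext v
        simp
      rw [this, Ultrafilter.map_id]
    · show (p.2.map (fun v => g • v)).map (fun v => g⁻¹ • v) = p.2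
      rw [Ultrafilter.map_map]
      have : ((fun v : V => g⁻¹ • v) ∘ fun v => g • v) = id := by
        funext v
        simp
      rw [this, Ultrafilter.map_id]
  unfold kk
  congr 1
  ext n
  constructor
  · intro h
    have := key g⁻¹ _ n h
    rwa [e] at this
  · exact key g p n

theorem Mn_smul (g : G) {p : Ultrafilter V × Ultrafilter V} {C : Set V} (h : C ∈ Mn X p) :
    g • C ∈ Mn X (tp g p) := by
  obtain ⟨h1, h2, h3⟩ := h
  exact ⟨(sp_smul g p C).2 h1, bd_smul_finite hG g h2, by rw [bd_smul_ncard hG, kk_smul hG]; exact h3⟩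

omit hG in
theorem crs_smul (g : G) {B C : Set V} (h : Crs B C) : Crs (g • B) (g • C) := by
  obtain ⟨h1, h2, h3, h4⟩ := h
  refine ⟨?_, ?_, ?_, ?_⟩
  · rw [← Set.smul_set_inter]
    exact h1.smul_set
  · rw [← Set.smul_set_compl, ← Set.smul_set_inter]
    exact h2.smul_set
  · rw [← Set.smul_set_compl, ← Set.smul_set_inter]
    exact h3.smul_set
  · rw [← Set.smul_set_compl, ← Set.smul_set_compl, ← Set.smul_set_inter]
    exact h4.smul_set

omit hG in
theorem crs_smul_iff (g : G) {B C : Set V} : Crs (g • B) (g • C) ↔ Crs B C := by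
  refine ⟨fun h => ?_, crs_smul g⟩
  have := crs_smul g⁻¹ h
  rwa [inv_smul_smul, inv_smul_smul] at this

variable (hP : ∀ p ∈ PP, ∀ g : G, tp g p ∈ PP)

include hP

theorem AL_smul (g : G) {C : Set V} (h : C ∈ AL X PP) : g • C ∈ AL X PP := by
  obtain ⟨p, hp, h⟩ := h
  exact ⟨tp g p, hP p hp g, Mn_smul hG g h⟩

theorem mm_smul (g : G) (C : Set V) : mm X PP (g • C) = mm X PP C := by
  unfold mm
  have e : {B | B ∈ AL X PP ∧ Crs B (g • C)} = (fun B => g • B) '' {B | B ∈ AL X PP ∧ Crs B C} := by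
    ext B
    constructor
    · rintro ⟨h1, h2⟩
      refine ⟨g⁻¹ • B, ⟨AL_smul hG hP g⁻¹ h1, ?_⟩, smul_inv_smul g B⟩
      have := crs_smul g⁻¹ h2
      rwa [inv_smul_smul] at this
    · rintro ⟨D, ⟨h1, h2⟩, rfl⟩
      exact ⟨AL_smul hG hP g h1, crs_smul g h2⟩
  rw [e]
  exact Set.ncard_image_of_injective _ (MulAction.injective g)

theorem EE_smul (g : G) {C : Set V} (h : C ∈ EE X PP) : g • C ∈ EE X PP := by
  obtain ⟨p, hp, h1, h2⟩ := h
  refine ⟨tp g p, hP p hp g, Mn_smul hG g h1, fun D hD => ?_⟩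
  rw [mm_smul hG hP]
  have e : tp g⁻¹ (tp g p) = p := by
    unfold tp
    refine Prod.ext ?_ ?_
    · show (p.1.map (fun v => g • v)).map (fun v => g⁻¹ • v) = p.1
      rw [Ultrafilter.map_map]
      have : ((fun v : V => g⁻¹ • v) ∘ fun v => g • v) = id := by
        funext v
        simp
      rw [this, Ultrafilter.map_id]
    · show (p.2.map (fun v => g • v)).map (fun v => g⁻¹ • v) = p.2
      rw [Ultrafilter.map_map]
      have : ((fun v : V => g⁻¹ • v) ∘ fun v => g • v) = id := by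
        funext v
        simp
      rw [this, Ultrafilter.map_id]
  have h3 := Mn_smul hG g⁻¹ hD
  rw [e] at h3
  have h4 := h2 _ h3
  rwa [mm_smul hG hP] at h4

end inv

section hsys

variable {V : Type} {X : SimpleGraph V} {PP : Set (Ultrafilter V × Ultrafilter V)}

theorem EE_hsys (hX : X.Connected) {K : ℕ} (hK : Bdd X PP K) : HSys (EE X PP) where
  compl := fun _ h => EE_compl h
  ne := fun _ h => AL_nonempty (EE_AL h)
  fin := fun a b => (AL_fin hX hK a b).subset fun _ h => ⟨EE_AL h.1, h.2⟩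

theorem EE_sep {K : ℕ} (hK : Bdd X PP K) {p : Ultrafilter V × Ultrafilter V} (hp : p ∈ PP) :
    ∃ E ∈ EE X PP, Sp p E := by
  obtain ⟨C, h1, h2, -⟩ := hK p hp
  obtain ⟨E, hE⟩ := Opt_nonempty (PP := PP) h1 h2
  exact ⟨E, ⟨p, hp, hE⟩, hE.1.1⟩

end hsys

/-! ### finite edge stabilisers -/

section stab

variable {G V : Type} [Group G] [MulAction G V] {X : SimpleGraph V}

/-- a cut with finite nonempty boundary has finite stabiliser if edges have finite stabilisers -/
theorem stab_finite (hG : ∀ (g : G) (a b : V), X.Adj a b → X.Adj (g • a) (g • b))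
    (hst : ∀ a b : V, X.Adj a b → {g : G | g • a = a ∧ g • b = b}.Finite) {C : Set V}
    (hC : (bd X C).Finite) (hne : (bd X C).Nonempty) : {g : G | g • C = C}.Finite := by
  obtain ⟨⟨a, b⟩, hab⟩ := hne
  have hsub : {g : G | g • C = C} ⊆ ⋃ p ∈ bd X C, {g : G | g • a = p.1 ∧ g • b = p.2} := by
    intro g hg
    have hg' : g • C = C := hg
    have h1 : (g • a, g • b) ∈ bd X (g • C) := by
      rw [bd_smul hG]
      exact ⟨(a, b), hab, rfl⟩
    rw [hg'] at h1
    exact Set.mem_biUnion h1 ⟨rfl, rfl⟩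
  refine (Set.Finite.biUnion hC fun p _ => ?_).subset hsub
  by_cases hp : ∃ g0 : G, g0 • a = p.1 ∧ g0 • b = p.2
  · obtain ⟨g0, h1, h2⟩ := hp
    refine ((hst a b hab.1).image fun g => g0 * g).subset ?_
    rintro g ⟨h3, h4⟩
    refine ⟨g0⁻¹ * g, ⟨?_, ?_⟩, mul_inv_cancel_left g0 g⟩
    · rw [mul_smul, h3, ← h1, inv_smul_smul]
    · rw [mul_smul, h4, ← h2, inv_smul_smul]
  · refine Set.finite_empty.subset ?_
    rintro g ⟨h3, h4⟩
    exact hp ⟨g, h3, h4⟩

end stab

end Pool.Agent.R647
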