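import Pool.Agent.R647.Tel

/-!
# Extension of homomorphisms: one step
-/

set_option autoImplicit false

namespace Pool.Agent.R647

open Pool.Agent.H97R3.VR Pool.Agent.TH97.VR
open Pointwise

section graph

variable {G V M : Type} [Group G] [MulAction G V] [Group M] {X : SimpleGraph V}

/-- the pairs of distinct vertices -/
def prs (V : Type) : Set (Ultrafilter V × Ultrafilter V) :=
  {p | ∃ a b : V, a ≠ b ∧ p = (pure a, pure b)}

theorem sp_pure {a b : V} {C : Set V} :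
    Sp ((pure a, pure b) : Ultrafilter V × Ultrafilter V) C ↔ ¬ (a ∈ C ↔ b ∈ C) := Iff.rfl

theorem tp_prs (g : G) {p : Ultrafilter V × Ultrafilter V} (hp : p ∈ prs V) : tp g p ∈ prs V := by
  obtain ⟨a, b, hab, rfl⟩ := hp
  refine ⟨g • a, g • b, fun h => hab (MulAction.injective g h), ?_⟩
  unfold tp
  rw [Ultrafilter.map_pure, Ultrafilter.map_pure]

/-- extension from the stabiliser of a vertex of a graph with finite edge stabilisers, all of whose
vertices are separated by small cuts -/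
theorem estep_graph (hX : X.Connected)
    (hG : ∀ (g : G) (a b : V), X.Adj a b → X.Adj (g • a) (g • b))
    (hst : ∀ a b : V, X.Adj a b → {g : G | g • a = a ∧ g • b = b}.Finite) (K : ℕ)
    (hK : ∀ a b : V, a ≠ b → ∃ C : Set V, ¬ (a ∈ C ↔ b ∈ C) ∧ (bd X C).Finite ∧
      (bd X C).ncard ≤ K) (o : V) (L : Subgroup G) (hL : ∀ g, g ∈ L ↔ g • o = o) (π : G →* M)
    (ψ : L →* M) (hψ : ∀ U : Subgroup G, (U : Set G).Finite → U ≤ L → ∃ m : M, ∀ u : L, (u : G) ∈ U →
      ψ u = m * π u * m⁻¹) :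
    ∃ ψ' : G →* M, (∀ u : L, ψ' u = ψ u) ∧ ∀ U : Subgroup G, (U : Set G).Finite →
      ∃ m : M, ∀ u ∈ U, ψ' u = m * π u * m⁻¹ := by
  have hB : Bdd X (prs V) K := by
    rintro p ⟨a, b, hab, rfl⟩
    obtain ⟨C, h1, h2, h3⟩ := hK a b hab
    exact ⟨C, sp_pure.2 h1, h2, h3⟩
  have S : TSys G (EE X (prs V)) := ⟨EE_hsys hX hB, fun h hh k hk => EE_nested hX hB hh hk,
    fun g h hh => EE_smul hG (fun p hp g => tp_prs g hp) g hh⟩
  obtain ⟨V', act', X', pp, sd, T, h1, h2, h3, h4, h5, h6⟩ := exists_tree S o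
  have hL' : ∀ g, g ∈ L ↔ g • pp o = pp o := by
    intro g
    rw [hL, h1, h2]
    constructor
    · intro e h _
      rw [e]
    · intro e
      by_contra hne
      obtain ⟨E, hE1, hE2⟩ := EE_sep hB (p := (pure (g • o), pure o)) ⟨g • o, o, hne, rfl⟩
      exact hE2 (e E hE1)
  have hfin : ∀ x y : V', X'.Adj x y → {g : G | g • x = x ∧ g • y = y}.Finite := by
    intro x y hxy
    obtain ⟨h, hh, hh2⟩ := h3 x y hxy
    have hne := AL_nonempty (EE_AL hh)
    have hne2 := AL_nonempty (AL_compl (EE_AL hh))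
    exact (stab_finite hG hst (AL_card hB (EE_AL hh)).1 (bd_nonempty hX hne hne2)).subset
      fun g hg => hh2 g hg.1 hg.2
  obtain ⟨ψ', g1, g2⟩ := tel T.med T.act T.nosq (pp o) π L hL' ψ (by
    intro x hx
    let U : Subgroup G := MulAction.stabilizer G (pp o) ⊓ MulAction.stabilizer G x
    obtain ⟨m, hm⟩ := hψ U (hfin _ _ hx) (fun g hg => (hL' g).2 hg.1)
    exact ⟨m, fun u hu => hm u ⟨(hL' u).1 u.2, hu⟩⟩)
  refine ⟨ψ', g1, fun U hU => ?_⟩
  obtain ⟨c, hc⟩ := T.fix U hU (pp o)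
  by_cases hO : ∃ g : G, g • pp o = c
  · obtain ⟨g, hg⟩ := hO
    let U' : Subgroup G := U.map (MulAut.conj g⁻¹).toMonoidHom
    have hU' : (U' : Set G).Finite := by
      rw [Subgroup.coe_map]
      exact hU.image _
    have hUL : U' ≤ L := by
      rintro _ ⟨u, hu, rfl⟩
      rw [hL']
      show (g⁻¹ * u * g⁻¹⁻¹) • pp o = pp o
      rw [inv_inv, mul_smul, mul_smul, hg, hc u hu, ← hg, inv_smul_smul]
    obtain ⟨m, hm⟩ := hψ U' hU' hUL
    refine ⟨ψ' g * m * (π g)⁻¹, fun u hu => ?_⟩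
    have hu' : g⁻¹ * u * g⁻¹⁻¹ ∈ U' := ⟨u, hu, rfl⟩
    have e1 := hm ⟨_, hUL hu'⟩ hu'
    rw [← g1] at e1
    have e2 : ψ' (g⁻¹ * u * g⁻¹⁻¹) = m * π (g⁻¹ * u * g⁻¹⁻¹) * m⁻¹ := e1
    simp only [map_mul, map_inv, inv_inv] at e2
    have e3 : ψ' u = ψ' g * ((ψ' g)⁻¹ * ψ' u * ψ' g) * (ψ' g)⁻¹ := by group
    rw [e3, e2]
    group
  · obtain ⟨m, hm⟩ := g2 c hO
    exact ⟨m, fun u hu => hm u (hc u hu)⟩

end graph

section coset

variable {G M : Type} [Group G] [Group M]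

/-- the coset graph -/
def CG (L : Subgroup G) (Y : Set G) : SimpleGraph (G ⧸ L) where
  Adj a b := a ≠ b ∧ ∃ g : G, ∃ y : G, (y ∈ Y ∨ y⁻¹ ∈ Y) ∧ a = (g : G ⧸ L) ∧ b = ((g * y : G) : G ⧸ L)
  symm := ⟨by
    rintro a b ⟨h, g, y, hy, h1, h2⟩
    refine ⟨h.symm, g * y, y⁻¹, ?_, h2, ?_⟩
    · rw [inv_inv]
      exact hy.symm
    · rw [mul_inv_cancel_right]
      exact h1⟩
  loopless := ⟨fun _ h => h.1 rfl⟩

theorem CG_act (L : Subgroup G) (Y : Set G) (g : G) (a b : G ⧸ L) (h : (CG L Y).Adj a b) :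
    (CG L Y).Adj (g • a) (g • b) := by
  obtain ⟨h, k, y, hy, h1, h2⟩ := h
  refine ⟨fun e => h (MulAction.injective g e), g * k, y, hy, ?_, ?_⟩
  · rw [h1]
    rfl
  · rw [h2, mul_assoc]
    rfl

theorem CG_conn (L : Subgroup G) (Y : Set G) (hY : Subgroup.closure ((L : Set G) ∪ Y) = ⊤) :
    (CG L Y).Connected := by
  have : Nonempty (G ⧸ L) := ⟨((1 : G) : G ⧸ L)⟩
  have key : ∀ g a : G, (CG L Y).Reachable (a : G ⧸ L) ((a * g : G) : G ⧸ L) := by
    intro g
    have hg : g ∈ Subgroup.closure ((L : Set G) ∪ Y) := by rw [hY]; exact Subgroup.mem_top g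
    induction hg using Subgroup.closure_induction with
    | mem s hs =>
      intro a
      by_cases h : (a : G ⧸ L) = ((a * s : G) : G ⧸ L)
      · rw [← h]
      · rcases hs with hs | hs
        · exact absurd (QuotientGroup.eq.2 (by rw [inv_mul_cancel_left]; exact hs)) h
        · exact SimpleGraph.Adj.reachable (G := CG L Y) ⟨h, a, s, Or.inl hs, rfl, rfl⟩
    | one =>
      intro a
      rw [mul_one]
    | mul x y _ _ hx hy =>
      intro a
      rw [← mul_assoc]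
      exact (hx a).trans (hy (a * x))
    | inv x _ hx =>
      intro a
      have h := hx (a * x⁻¹)
      rw [inv_mul_cancel_right] at h
      exact h.symm
  refine SimpleGraph.Connected.mk fun x y => ?_
  induction x using QuotientGroup.induction_on with
  | H a =>
  induction y using QuotientGroup.induction_on with
  | H b =>
  have h := key (a⁻¹ * b) a
  rwa [mul_inv_cancel_left] at h

/-- extension from a subgroup which is almost malnormal and whose cosets are separated by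
subsets with small boundary -/
theorem estep (π : G →* M) (L : Subgroup G) (Y : Finset G)
    (hY : Subgroup.closure ((L : Set G) ∪ Y) = ⊤)
    (hmal : ∀ g : G, g ∉ L → {x | x ∈ L ∧ g⁻¹ * x * g ∈ L}.Finite) (K : ℕ)
    (hsep : ∀ g : G, g ∉ L → ∃ W : Set G, (∀ w, ∀ l ∈ L, (w * l ∈ W ↔ w ∈ W)) ∧
      ¬ ((1 : G) ∈ W ↔ g ∈ W) ∧ ∀ y, (y ∈ Y ∨ y⁻¹ ∈ Y) → {w | w ∈ W ∧ w * y ∉ W}.Finite ∧
        {w | w ∈ W ∧ w * y ∉ W}.ncard ≤ K)
    (ψ : L →* M) (hψ : ∀ U : Subgroup G, (U : Set G).Finite → U ≤ L → ∃ m : M, ∀ u : L, (u : G) ∈ U →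
      ψ u = m * π u * m⁻¹) :
    ∃ ψ' : G →* M, (∀ u : L, ψ' u = ψ u) ∧ ∀ U : Subgroup G, (U : Set G).Finite →
      ∃ m : M, ∀ u ∈ U, ψ' u = m * π u * m⁻¹ := by
  classical
  set Y2 : Finset G := Y ∪ Y.image (fun y => y⁻¹) with hY2
  have hY2m : ∀ y, y ∈ Y2 ↔ (y ∈ Y ∨ y⁻¹ ∈ Y) := by
    intro y
    rw [hY2, Finset.mem_union, Finset.mem_image]
    constructor
    · rintro (h | ⟨z, hz, rfl⟩)
      · exact Or.inl h
      · right
        rw [inv_inv]
        exact hz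
    · rintro (h | h)
      · exact Or.inl h
      · exact Or.inr ⟨y⁻¹, h, inv_inv y⟩
  refine estep_graph (V := G ⧸ L) (X := CG L Y) (CG_conn L Y hY) (CG_act L Y) ?_ (Y2.card * K) ?_
    ((1 : G) : G ⧸ L) L ?_ π ψ hψ
  · intro a b hab
    induction a using QuotientGroup.induction_on with
    | H a =>
    induction b using QuotientGroup.induction_on with
    | H b =>
    have hne : a⁻¹ * b ∉ L := fun h => hab.1 (QuotientGroup.eq.2 h)
    refine ((hmal _ hne).image fun x => a * x * a⁻¹).subset ?_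
    rintro g ⟨h1, h2⟩
    have h1' : ((g * a : G) : G ⧸ L) = (a : G ⧸ L) := h1
    have h2' : ((g * b : G) : G ⧸ L) = (b : G ⧸ L) := h2
    rw [QuotientGroup.eq] at h1' h2'
    refine ⟨a⁻¹ * g * a, ⟨?_, ?_⟩, by group⟩
    · have := L.inv_mem h1'
      have e : ((g * a)⁻¹ * a)⁻¹ = a⁻¹ * g * a := by group
      rwa [e] at this
    · have := L.inv_mem h2'
      have e : ((g * b)⁻¹ * b)⁻¹ = (a⁻¹ * b)⁻¹ * (a⁻¹ * g * a) * (a⁻¹ * b) := by group
      rwa [e] at this
  · intro a b hab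
    induction a using QuotientGroup.induction_on with
    | H a =>
    induction b using QuotientGroup.induction_on with
    | H b =>
    have hne : a⁻¹ * b ∉ L := fun h => hab (QuotientGroup.eq.2 h)
    obtain ⟨W, hW1, hW2, hW3⟩ := hsep _ hne
    let C : Set (G ⧸ L) := {q | ∃ g : G, q = (g : G ⧸ L) ∧ a⁻¹ * g ∈ W}
    have hC : ∀ g : G, (g : G ⧸ L) ∈ C ↔ a⁻¹ * g ∈ W := by
      intro g
      constructor
      · rintro ⟨g', h1, h2⟩
        have h3 : g⁻¹ * g' ∈ L := QuotientGroup.eq.1 h1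
        have h4 := hW1 (a⁻¹ * g) _ h3
        have e : a⁻¹ * g * (g⁻¹ * g') = a⁻¹ * g' := by group
        rw [e] at h4
        exact h4.1 h2
      · intro h
        exact ⟨g, rfl, h⟩
    have hsub : bd (CG L Y) C ⊆ ⋃ y ∈ Y2, (fun w : G => (((a * w : G) : G ⧸ L),
        ((a * w * y : G) : G ⧸ L))) '' {w | w ∈ W ∧ w * y ∉ W} := by
      rintro ⟨p, q⟩ ⟨⟨-, g, y, hy, h1, h2⟩, h3, h4⟩
      have h1' : p = (g : G ⧸ L) := h1
      have h2' : q = ((g * y : G) : G ⧸ L) := h2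
      subst h1'
      subst h2'
      refine Set.mem_biUnion ((hY2m y).2 hy) ⟨a⁻¹ * g, ⟨(hC g).1 h3, fun h5 => h4 ?_⟩, ?_⟩
      · refine (hC _).2 ?_
        rw [← mul_assoc]
        exact h5
      · show (((a * (a⁻¹ * g) : G) : G ⧸ L), ((a * (a⁻¹ * g) * y : G) : G ⧸ L)) = _
        rw [mul_inv_cancel_left]
    have hUf : (⋃ y ∈ Y2, (fun w : G => (((a * w : G) : G ⧸ L),
        ((a * w * y : G) : G ⧸ L))) '' {w | w ∈ W ∧ w * y ∉ W}).Finite :=
      Set.Finite.biUnion Y2.finite_toSet fun y hy => (hW3 y ((hY2m y).1 hy)).1.image _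
    refine ⟨C, ?_, hUf.subset hsub, ?_⟩
    · rw [hC, hC, inv_mul_cancel]
      exact hW2
    · refine (Set.ncard_le_ncard hsub hUf).trans ?_
      refine (Finset.set_ncard_biUnion_le _ _).trans ?_
      rw [← smul_eq_mul]
      refine Finset.sum_le_card_nsmul _ _ _ fun y hy => ?_
      obtain ⟨h1, h2⟩ := hW3 y ((hY2m y).1 hy)
      exact (Set.ncard_image_le h1).trans h2
  · intro g
    show g ∈ L ↔ ((g * 1 : G) : G ⧸ L) = ((1 : G) : G ⧸ L)
    rw [mul_one, eq_comm, QuotientGroup.eq, inv_one, one_mul]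

end coset

end Pool.Agent.R647
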