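import Pool.Agent.R647.Estep

/-!
# Extension steps for homomorphisms defined on subgroups
-/

set_option autoImplicit false

namespace Pool.Agent.R647

section sub

variable {G M : Type} [Group G] [Group M]

/-- `f` is multiplicative on `L` -/
def PHom (L : Subgroup G) (f : G → M) : Prop := ∀ a ∈ L, ∀ b ∈ L, f (a * b) = f a * f b

/-- on the finite subgroups of `L`, `f` is conjugate to `π` -/
def Good (π : G →* M) (L : Subgroup G) (f : G → M) : Prop :=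
  ∀ U : Subgroup G, (U : Set G).Finite → U ≤ L → ∃ m : M, ∀ u ∈ U, f u = m * π u * m⁻¹

theorem estep_sub (π : G →* M) {L L' : Subgroup G} (hLL : L ≤ L') (Y : Finset G)
    (hYL : ∀ y ∈ Y, y ∈ L') (hY : ∀ g ∈ L', g ∈ Subgroup.closure ((L : Set G) ∪ Y))
    (hmal : ∀ g ∈ L', g ∉ L → {x | x ∈ L ∧ g⁻¹ * x * g ∈ L}.Finite) (K : ℕ)
    (hsep : ∀ g ∈ L', g ∉ L → ∃ W : Set G, (∀ w, ∀ l ∈ L, (w * l ∈ W ↔ w ∈ W)) ∧
      ¬ ((1 : G) ∈ W ↔ g ∈ W) ∧ ∀ y, (y ∈ Y ∨ y⁻¹ ∈ Y) → {w | w ∈ W ∧ w * y ∉ W}.Finite ∧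
        {w | w ∈ W ∧ w * y ∉ W}.ncard ≤ K) (f : G → M) (hf : PHom L f) (hg : Good π L f) :
    ∃ f' : G → M, PHom L' f' ∧ Good π L' f' ∧ ∀ l ∈ L, f' l = f l := by
  classical
  let L0 : Subgroup L' := L.subgroupOf L'
  have hL0 : ∀ x : L', x ∈ L0 ↔ (x : G) ∈ L := fun x => Subgroup.mem_subgroupOf
  let Y0 : Finset L' := Y.attach.image (fun y => ⟨y.1, hYL y.1 y.2⟩)
  have hY0 : ∀ y : L', y ∈ Y0 ↔ (y : G) ∈ Y := by
    intro y
    rw [Finset.mem_image]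
    constructor
    · rintro ⟨z, -, rfl⟩
      exact z.2
    · intro h
      exact ⟨⟨y.1, h⟩, Finset.mem_attach _ _, rfl⟩
  let ψ : L0 →* M := MonoidHom.mk' (fun l => f ((l : L') : G)) (by
    intro a b
    exact hf _ ((hL0 _).1 a.2) _ ((hL0 _).1 b.2))
  have hψ : ∀ l : L0, ψ l = f ((l : L') : G) := fun l => rfl
  obtain ⟨ψ', h1, h2⟩ := estep (π.comp L'.subtype) L0 Y0 (by
    rw [eq_top_iff]
    rintro ⟨g, hg⟩ -
    have key : ∀ x, x ∈ Subgroup.closure ((L : Set G) ∪ Y) → ∀ hx : x ∈ L',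
        (⟨x, hx⟩ : L') ∈ Subgroup.closure ((L0 : Set L') ∪ Y0) := by
      intro x hx
      have hle : Subgroup.closure ((L : Set G) ∪ Y) ≤
          (Subgroup.closure ((L0 : Set L') ∪ Y0)).map L'.subtype := by
        rw [Subgroup.closure_le]
        rintro y (hy | hy)
        · exact ⟨⟨y, hLL hy⟩, Subgroup.subset_closure (Or.inl ((hL0 _).2 hy)), rfl⟩
        · exact ⟨⟨y, hYL y hy⟩, Subgroup.subset_closure (Or.inr ((hY0 _).2 hy)), rfl⟩
      intro hx'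
      obtain ⟨y, hy, e⟩ := hle hx
      have : (⟨x, hx'⟩ : L') = y := Subtype.ext e.symm
      rw [this]
      exact hy
    exact key g (hY g hg) hg) (by
    intro g hgL
    have h3 := hmal g g.2 (fun h => hgL ((hL0 g).2 h))
    refine Set.Finite.of_finite_image (f := fun x : L' => (x : G)) (h3.subset ?_)
      (fun a _ b _ e => Subtype.ext e)
    rintro _ ⟨x, ⟨hx1, hx2⟩, rfl⟩
    exact ⟨(hL0 x).1 hx1, (hL0 _).1 hx2⟩) K (by
    intro g hgL
    obtain ⟨W, w1, w2, w3⟩ := hsep g g.2 (fun h => hgL ((hL0 g).2 h))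
    refine ⟨{x | (x : G) ∈ W}, ?_, w2, ?_⟩
    · intro w l hl
      exact w1 w l ((hL0 l).1 hl)
    · intro y hy
      obtain ⟨w4, w5⟩ := w3 y (by
        rcases hy with hy | hy
        · exact Or.inl ((hY0 y).1 hy)
        · exact Or.inr ((hY0 _).1 hy))
      have himg : (fun x : L' => (x : G)) '' {w : L' | w ∈ {x : L' | (x : G) ∈ W} ∧
          w * y ∉ {x : L' | (x : G) ∈ W}} ⊆ {w | w ∈ W ∧ w * (y : G) ∉ W} := by
        rintro _ ⟨x, ⟨hx1, hx2⟩, rfl⟩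
        exact ⟨hx1, hx2⟩
      refine ⟨Set.Finite.of_finite_image (w4.subset himg) (fun a _ b _ e => Subtype.ext e), ?_⟩
      rw [← Set.ncard_image_of_injective _ (Subtype.val_injective (p := fun x => x ∈ L'))]
      exact (Set.ncard_le_ncard himg w4).trans w5) ψ (by
    intro U hU hUL
    obtain ⟨m, hm⟩ := hg (U.map L'.subtype) (by
      rw [Subgroup.coe_map]
      exact hU.image _) (by
      rintro _ ⟨u, hu, rfl⟩
      exact (hL0 u).1 (hUL hu))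
    refine ⟨m, fun u hu => ?_⟩
    exact hm _ ⟨u, hu, rfl⟩)
  refine ⟨fun g => if h : g ∈ L' then ψ' ⟨g, h⟩ else 1, ?_, ?_, ?_⟩
  · intro a ha b hb
    show (if h : a * b ∈ L' then ψ' ⟨a * b, h⟩ else 1) = (if h : a ∈ L' then ψ' ⟨a, h⟩ else 1) *
      (if h : b ∈ L' then ψ' ⟨b, h⟩ else 1)
    rw [dif_pos ha, dif_pos hb, dif_pos (L'.mul_mem ha hb), ← map_mul]
    rfl
  · intro U hU hUL
    have hU' : ((U.subgroupOf L' : Subgroup L') : Set L').Finite := by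
      refine Set.Finite.of_finite_image (f := fun x : L' => (x : G)) (hU.subset ?_)
        (fun a _ b _ e => Subtype.ext e)
      rintro _ ⟨x, hx, rfl⟩
      exact Subgroup.mem_subgroupOf.1 hx
    obtain ⟨m, hm⟩ := h2 _ hU'
    refine ⟨m, fun u hu => ?_⟩
    show (if h : u ∈ L' then ψ' ⟨u, h⟩ else 1) = _
    rw [dif_pos (hUL hu)]
    exact hm ⟨u, hUL hu⟩ (Subgroup.mem_subgroupOf.2 hu)
  · intro l hl
    show (if h : l ∈ L' then ψ' ⟨l, h⟩ else 1) = _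
    rw [dif_pos (hLL hl)]
    exact h1 ⟨⟨l, hLL hl⟩, (hL0 _).2 hl⟩

end sub

end Pool.Agent.R647
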