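import Pool.Agent.R647.Base1

/-!
# Virtually free groups: finitely generated subgroups are virtual retracts
-/

set_option autoImplicit false

namespace Pool.Agent.R647

open Pool.Agent.H97R3.VR Pool.Agent.TH97.VR
open FreeGroup (of)

section vr

variable {G Z : Type} [Group G]

/-- virtual retractions from commuting actions -/
theorem vr_of_action (H : Subgroup G) (η : H →* Equiv.Perm Z) (Φ : G →* Equiv.Perm Z)
    (hcomm : ∀ (g : G) (h : H) (z : Z), Φ g (η h z) = η h (Φ g z)) (z0 : Z)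
    (hz : ∀ h : H, Φ (h : G)⁻¹ z0 = η h z0) (hfree : ∀ h : H, η h z0 = z0 → h = 1) (T : Set Z)
    (hT : T.Finite) (hcov : ∀ z, ∃ h : H, η h z ∈ T) :
    ∃ K : Subgroup G, K.FiniteIndex ∧ H ≤ K ∧
      ∃ ρ : K →* G, (∀ k : K, ρ k ∈ H) ∧ ∀ h : G, ∀ hk : h ∈ K, h ∈ H → ρ ⟨h, hk⟩ = h := by
  have hη : ∀ (a b : H) (z : Z), η (a * b) z = η a (η b z) := fun a b z => by
    rw [map_mul]
    rfl
  have hΦ : ∀ (a b : G) (z : Z), Φ (a * b) z = Φ a (Φ b z) := fun a b z => by
    rw [map_mul]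
    rfl
  have h1η : ∀ z : Z, η 1 z = z := fun z => by
    rw [map_one]
    rfl
  have h1Φ : ∀ z : Z, Φ 1 z = z := fun z => by
    rw [map_one]
    rfl
  have huniq : ∀ a b : H, η a z0 = η b z0 → a = b := by
    intro a b h
    have h1 : η (b⁻¹ * a) z0 = z0 := by
      rw [hη, h, ← hη, inv_mul_cancel, h1η]
    exact (inv_mul_eq_one.1 (hfree _ h1)).symm
  let K : Subgroup G :=
    { carrier := {g | ∃ h : H, Φ g⁻¹ z0 = η h z0}
      one_mem' := ⟨1, by rw [inv_one, h1Φ, h1η]⟩
      mul_mem' := by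
        rintro a b ⟨h, hh⟩ ⟨k, hk⟩
        refine ⟨h * k, ?_⟩
        rw [mul_inv_rev, hΦ, hh, hcomm, hk, hη]
      inv_mem' := by
        rintro a ⟨h, hh⟩
        refine ⟨h⁻¹, ?_⟩
        have h1 : z0 = η h (Φ a z0) := by
          rw [← hcomm, ← hh, ← hΦ, mul_inv_cancel, h1Φ]
        have h2 : η h⁻¹ z0 = Φ a z0 := by
          conv_lhs => rw [h1]
          rw [← hη, inv_mul_cancel, h1η]
        rw [inv_inv, h2] }
  have hK : ∀ g, g ∈ K ↔ ∃ h : H, Φ g⁻¹ z0 = η h z0 := fun g => Iff.rfl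
  have hHK : H ≤ K := fun h hh => ⟨⟨h, hh⟩, hz ⟨h, hh⟩⟩
  have hfin : K.FiniteIndex := by
    choose t ht using hcov
    have : Finite T := hT
    have : Finite (G ⧸ K) := by
      refine Finite.of_injective (β := T) (fun q => ⟨_, ht (Φ q.out z0)⟩) ?_
      intro q q' e
      have e1 : η (t (Φ q.out z0)) (Φ q.out z0) = η (t (Φ q'.out z0)) (Φ q'.out z0) :=
        congrArg Subtype.val e
      rw [← QuotientGroup.out_eq' q, ← QuotientGroup.out_eq' q']
      refine QuotientGroup.eq.2 ?_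
      refine ⟨(t (Φ q.out z0))⁻¹ * t (Φ q'.out z0), ?_⟩
      have e2 : Φ q.out z0 = η ((t (Φ q.out z0))⁻¹ * t (Φ q'.out z0)) (Φ q'.out z0) := by
        rw [hη, ← e1, ← hη, inv_mul_cancel, h1η]
      rw [mul_inv_rev, inv_inv, hΦ]
      conv_lhs => rw [e2]
      rw [hcomm, ← hΦ, inv_mul_cancel, h1Φ]
    exact Subgroup.finiteIndex_of_finite_quotient
  choose ρ hρ using fun k : K => (hK k).1 k.2
  refine ⟨K, hfin, hHK, MonoidHom.mk' (fun k => (ρ k : G)) ?_, fun k => (ρ k).2, ?_⟩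
  · intro a b
    have h1 : ρ (a * b) = ρ a * ρ b := by
      apply huniq
      rw [← hρ, hη, ← hρ b, Subgroup.coe_mul, mul_inv_rev, hΦ, hρ a, hcomm]
    show ((ρ (a * b) : H) : G) = (ρ a : G) * (ρ b : G)
    rw [h1]
    rfl
  · intro h hk hh
    have h1 : ρ ⟨h, hk⟩ = ⟨h, hh⟩ := by
      apply huniq
      rw [← hρ]
      exact hz ⟨h, hh⟩
    show ((ρ ⟨h, hk⟩ : H) : G) = h
    rw [h1]

end vr

section base

variable {G X : Type} [Group G] [DecidableEq X] {j : FreeGroup X →* G} {H : Subgroup G} {r : G → G}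

omit [DecidableEq X] in
theorem Cx.exists_T0 (c : Cx G X j H r) [j.range.FiniteIndex] (hH : H.FG) :
    ∃ T0 : Set X, T0.Finite ∧ ∀ h ∈ H, h ∈ j.range → h ∈ FS j T0 := by
  have h1 : Group.FG H := (Group.fg_iff_subgroup_fg H).2 hH
  have h2 : Group.FG (j.range.subgroupOf H) := Subgroup.fg_of_index_ne_zero _
  obtain ⟨Y, hY⟩ := (Group.fg_iff_subgroup_fg _).1 h2
  choose U hU1 hU2 using fun f : FreeGroup X => exists_supp f
  refine ⟨⋃ y ∈ (Y : Set H), U (c.ph (y : G)), Set.Finite.biUnion Y.finite_toSet fun y _ => hU1 _,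
    ?_⟩
  intro h hh hN
  have h3 : (⟨h, hh⟩ : H) ∈ j.range.subgroupOf H := Subgroup.mem_subgroupOf.2 hN
  have h4 : j.range.subgroupOf H ≤ (FS j (⋃ y ∈ (Y : Set H), U (c.ph (y : G)))).subgroupOf H := by
    have hYsub : ∀ y ∈ (Y : Set H), (y : G) ∈ j.range := by
      intro y hy
      have : y ∈ j.range.subgroupOf H := by
        rw [← hY]
        exact Subgroup.subset_closure hy
      exact Subgroup.mem_subgroupOf.1 this
    conv_lhs => rw [← hY]
    rw [Subgroup.closure_le]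
    intro y hy
    refine Subgroup.mem_subgroupOf.2 ?_
    rw [← c.j_ph_mem (hYsub y hy)]
    refine c.mem_FS.2 (FL_mono ?_ (hU2 _))
    exact Set.subset_biUnion_of_mem (u := fun y : H => U (c.ph (y : G))) hy
  exact Subgroup.mem_subgroupOf.1 (h4 h3)

omit [DecidableEq X] in
theorem Cx.LS_fg (c : Cx G X j H r) (hH : H.FG) {T0 : Set X} (hT0 : T0.Finite)
    (hR : ∀ h ∈ H, h ∈ j.range → h ∈ FS j T0) : (LS j H T0).FG := by
  classical
  have he : FS j (∅ : Set X) = ⊥ := by
    rw [eq_bot_iff]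
    rintro _ ⟨f, hf, rfl⟩
    have : f = 1 := by
      have hf' : f ∈ Subgroup.closure (of '' (∅ : Set X)) := hf
      rwa [Set.image_empty, Subgroup.closure_empty, Subgroup.mem_bot] at hf'
    rw [this, map_one]
    exact Subgroup.one_mem _
  have e0 : (∅ : Set X) ∪ T0 = T0 := Set.empty_union T0
  obtain ⟨Y, h1, h2⟩ := c.fg_DS (S := ∅) hT0 (by rwa [e0]) (by
    rw [he]
    exact bot_le)
  rw [e0] at h1 h2
  rw [he] at h2
  obtain ⟨Z, hZ⟩ := hH
  refine ⟨Z ∪ Y, ?_⟩
  apply le_antisymm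
  · rw [Subgroup.closure_le, Finset.coe_union]
    rintro y (hy | hy)
    · apply H_le_LS
      rw [← hZ]
      exact Subgroup.subset_closure hy
    · exact DS_le_LS (h1 y hy)
  · rintro _ ⟨h, hh, d, hd, rfl⟩
    refine Subgroup.mul_mem _ ?_ ?_
    · rw [← hZ] at hh
      refine Subgroup.closure_mono ?_ hh
      rw [Finset.coe_union]
      exact Set.subset_union_left
    · have h3 := h2 d hd
      have h4 : Subgroup.closure (((⊥ : Subgroup G) : Set G) ∪ Y) ≤
          Subgroup.closure (((Z ∪ Y : Finset G) : Set G)) := by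
        rw [Subgroup.closure_le]
        rintro y (hy | hy)
        · rw [SetLike.mem_coe, Subgroup.mem_bot] at hy
          rw [hy]
          exact Subgroup.one_mem _
        · refine Subgroup.subset_closure ?_
          rw [Finset.coe_union]
          exact Or.inr hy
      exact h4 h3

/-- the tree -/
theorem Cx.exists_tree1 (c : Cx G X j H r) (L : Subgroup G) (hL : L.FG) :
    ∃ (V : Type) (_ : MulAction L V) (X' : SimpleGraph V), IsTr L X' ∧
      ∀ s ∈ j.range.subgroupOf L, ∀ x : V, s • x = x → s = 1 := by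
  classical
  have h1 : Group.FG L := (Group.fg_iff_subgroup_fg L).2 hL
  obtain ⟨Y, hY⟩ := h1.out
  choose K hK using c.Wl_fin
  set Y2 : Finset L := Y ∪ Y.image (fun y => y⁻¹) with hY2def
  have hpow : ∀ (s : L) (t : FreeGroup X), j t = s → ∀ n : ℕ, ((s ^ n : L) : G) = j (t ^ n) := by
    intro s t hst n
    rw [Subgroup.coe_pow, map_pow, hst]
  refine exists_free_tree (j.range.subgroupOf L) ?_ Y hY (∑ y ∈ Y2, K (y : G)) ?_
  · intro s hs hs1 n hn h
    obtain ⟨t, ht⟩ := Subgroup.mem_subgroupOf.1 hs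
    have h2 : j (t ^ n) = 1 := by
      rw [← hpow s t ht n, h]
      rfl
    have h3 : t ^ n = 1 := c.inj (h2.trans (map_one j).symm)
    have h4 : t = 1 := (pow_eq_one_iff_left hn).1 h3
    apply hs1
    apply Subtype.ext
    rw [← ht, h4, map_one]
    rfl
  · intro s hs hs1
    obtain ⟨t, ht⟩ := Subgroup.mem_subgroupOf.1 hs
    have ht1 : t ≠ 1 := by
      rintro rfl
      apply hs1
      apply Subtype.ext
      rw [← ht, map_one]
      rfl
    obtain ⟨p, x, hpx⟩ := En_ends ht1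
    refine ⟨{w | (w : G) ∈ c.Wl p x}, ?_, ?_⟩
    · intro n hn
      obtain ⟨h2, h3⟩ := hpx n hn
      constructor
      · show ¬ ((c.ph ((s ^ n : L) : G))⁻¹ * p ∈ En x)
        rw [hpow s t ht n, c.ph_j]
        exact h3
      · show (c.ph (((s ^ n)⁻¹ : L) : G))⁻¹ * p ∈ En x
        rw [Subgroup.coe_inv, hpow s t ht n, ← map_inv, c.ph_j, inv_inv]
        exact h2
    · intro y hy
      obtain ⟨h2, h3⟩ := hK (y : G) p x 1
      have himg : (fun x : L => (x : G)) '' {w : L | w ∈ {w : L | (w : G) ∈ c.Wl p x} ∧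
          w * y ∉ {w : L | (w : G) ∈ c.Wl p x}} ⊆
          {w | 1 * w ∈ c.Wl p x ∧ 1 * (w * (y : G)) ∉ c.Wl p x} := by
        rintro _ ⟨w, ⟨hw1, hw2⟩, rfl⟩
        refine ⟨?_, ?_⟩
        · rw [one_mul]
          exact hw1
        · rw [one_mul]
          exact hw2
      refine ⟨Set.Finite.of_finite_image (h2.subset himg) (fun a _ b _ e => Subtype.ext e), ?_⟩
      rw [← Set.ncard_image_of_injective _ (Subtype.val_injective (p := fun x => x ∈ L))]
      refine (Set.ncard_le_ncard himg h2).trans (h3.trans ?_)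
      refine Finset.single_le_sum (f := fun y : L => K (y : G)) (fun _ _ => Nat.zero_le _) ?_
      rw [hY2def, Finset.mem_union, Finset.mem_image]
      rcases hy with hy | hy
      · exact Or.inl hy
      · exact Or.inr ⟨y⁻¹, hy, inv_inv y⟩

end base

end Pool.Agent.R647
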