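import Pool.Agent.R647.Final

/-!
# Virtually free groups: the action
-/

set_option autoImplicit false

namespace Pool.Agent.R647

open Pool.Agent.H97R3.VR Pool.Agent.TH97.VR

theorem pai {α : Type} (f : Equiv.Perm α) (x : α) : f (f⁻¹ x) = x := Equiv.apply_symm_apply f x

theorem pia {α : Type} (f : Equiv.Perm α) (x : α) : f⁻¹ (f x) = x := Equiv.symm_apply_apply f x

section action

variable {G : Type} [Group G]

theorem base_action (N : Subgroup G) [N.Normal] [N.FiniteIndex] (L H : Subgroup G) (hHL : H ≤ L)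
    (hsurj : ∀ g : G, ∃ l ∈ L, l⁻¹ * g ∈ N) (hH : H.FG) {V : Type} [MulAction L V]
    {X : SimpleGraph V} (T : IsTr L X) (hfree : ∀ s ∈ N.subgroupOf L, ∀ x : V, s • x = x → s = 1) :
    ∃ (Z : Type) (η : H →* Equiv.Perm Z) (M : Subgroup (Equiv.Perm Z))
      (π : G →* M) (f0 : G → M) (z0 : Z) (T0 : Set Z),
      (∀ σ ∈ M, ∀ (h : H) (z : Z), σ (η h z) = η h (σ z)) ∧ PHom L f0 ∧ Good π L f0 ∧
      (∀ h : H, (f0 (h : G)⁻¹ : Equiv.Perm Z) z0 = η h z0) ∧ (∀ h : H, η h z0 = z0 → h = 1) ∧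
      T0.Finite ∧ ∀ z, ∃ h : H, η h z ∈ T0 := by
  classical
  let mkq : G →* G ⧸ N := QuotientGroup.mk' N
  have hmk : ∀ a b : G, mkq a = mkq b ↔ a⁻¹ * b ∈ N := fun a b => QuotientGroup.eq
  have hrep : ∀ q : G ⧸ N, ∃ l : L, mkq (l : G) = q := by
    intro q
    induction q using QuotientGroup.induction_on with
    | H g =>
    obtain ⟨l, hl, h⟩ := hsurj g
    exact ⟨⟨l, hl⟩, QuotientGroup.eq.2 h⟩
  choose rep hrep using hrep
  obtain ⟨c0⟩ := T.med.conn.nonempty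
  have hH1 : (H.subgroupOf L).FG := by
    have h1 : Group.FG H := (Group.fg_iff_subgroup_fg H).2 hH
    have h2 : Group.FG (H.subgroupOf L) := by
      refine Group.fg_of_surjective (f := (Subgroup.subgroupOfEquivOfLe hHL).symm.toMonoidHom) ?_
      exact (Subgroup.subgroupOfEquivOfLe hHL).symm.surjective
    exact (Group.fg_iff_subgroup_fg _).1 h2
  obtain ⟨C, T0, hc0, hconv, hinv, hT0, hcov⟩ := T.exists_convex (H.subgroupOf L) hH1 c0
  have D : Dat X (N.subgroupOf L) (H.subgroupOf L) C := ⟨T.med, T.act, T.special hfree, hconv, hinv⟩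
  let hl : H → L := fun h => ⟨(h : G), hHL h.2⟩
  have hlmem : ∀ h : H, hl h ∈ H.subgroupOf L := fun h => Subgroup.mem_subgroupOf.2 h.2
  have hlmul : ∀ a b : H, hl (a * b) = hl a * hl b := fun a b => rfl
  have hlinv : ∀ a : H, hl a⁻¹ = (hl a)⁻¹ := fun a => rfl
  -- the action of `H`
  let ηe : H → Equiv.Perm (C × (G ⧸ N)) := fun h =>
    { toFun := fun z => (⟨hl h • (z.1 : V), hinv _ (hlmem h) _ z.1.2⟩, mkq (h : G) * z.2)
      invFun := fun z => (⟨(hl h)⁻¹ • (z.1 : V), hinv _ ((H.subgroupOf L).inv_mem (hlmem h)) _ z.1.2⟩,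
        (mkq (h : G))⁻¹ * z.2)
      left_inv := by
        intro z
        refine Prod.ext (Subtype.ext ?_) ?_
        · exact inv_smul_smul _ _
        · exact inv_mul_cancel_left _ _
      right_inv := by
        intro z
        refine Prod.ext (Subtype.ext ?_) ?_
        · exact smul_inv_smul _ _
        · exact mul_inv_cancel_left _ _ }
  let η : H →* Equiv.Perm (C × (G ⧸ N)) := MonoidHom.mk' ηe (by
    intro a b
    refine Equiv.ext fun z => Prod.ext (Subtype.ext ?_) ?_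
    · exact mul_smul (hl a) (hl b) (z.1 : V)
    · show mkq ((a * b : H) : G) * z.2 = mkq (a : G) * (mkq (b : G) * z.2)
      rw [Subgroup.coe_mul, map_mul, mul_assoc])
  have hη : ∀ (h : H) (z : C × (G ⧸ N)), η h z =
      (⟨hl h • (z.1 : V), hinv _ (hlmem h) _ z.1.2⟩, mkq (h : G) * z.2) := fun h z => rfl
  -- the twisted action
  have hF : ∀ a b : L, mkq (a : G) = mkq (b : G) → ∀ v, D.F c0 a v = D.F c0 b v := by
    intro a b hab v
    have h1 : (a : G) * (b : G)⁻¹ ∈ N := by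
      have h2 : mkq (a : G)⁻¹ = mkq (b : G)⁻¹ := by rw [map_inv, map_inv, hab]
      have h3 := (hmk _ _).1 h2
      rwa [inv_inv] at h3
    have h4 := D.F1 c0 (n := a * b⁻¹) (Subgroup.mem_subgroupOf.2 h1) b v
    rwa [inv_mul_cancel_right] at h4
  let R : L → C × (G ⧸ N) → C × (G ⧸ N) := fun g z =>
    (D.F c0 (rep z.2) (g • c0) z.1, z.2 * mkq (g : G))
  have R_one : ∀ z, R 1 z = z := by
    intro z
    refine Prod.ext ?_ ?_
    · show D.F c0 (rep z.2) ((1 : L) • c0) z.1 = z.1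
      rw [one_smul, D.F0]
      rfl
    · show z.2 * mkq ((1 : L) : G) = z.2
      rw [Subgroup.coe_one, map_one, mul_one]
  have R_mul : ∀ (g g' : L) z, R g' (R g z) = R (g * g') z := by
    intro g g' z
    refine Prod.ext ?_ ?_
    · show D.F c0 (rep (z.2 * mkq (g : G))) (g' • c0) (D.F c0 (rep z.2) (g • c0) z.1) =
        D.F c0 (rep z.2) ((g * g') • c0) z.1
      have h1 : mkq ((rep (z.2 * mkq (g : G)) : L) : G) = mkq ((rep z.2 * g : L) : G) := by
        rw [hrep, Subgroup.coe_mul, map_mul, hrep]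
      rw [hF _ _ h1, mul_smul, D.F2 c0 (rep z.2) g (g' • c0)]
      rfl
    · show z.2 * mkq (g : G) * mkq (g' : G) = z.2 * mkq ((g * g' : L) : G)
      rw [Subgroup.coe_mul, map_mul, mul_assoc]
  let ψe : L → Equiv.Perm (C × (G ⧸ N)) := fun g =>
    { toFun := R g⁻¹
      invFun := R g
      left_inv := by
        intro z
        rw [R_mul, inv_mul_cancel, R_one]
      right_inv := by
        intro z
        rw [R_mul, mul_inv_cancel, R_one] }
  let ψ1 : L →* Equiv.Perm (C × (G ⧸ N)) := MonoidHom.mk' ψe (by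
    intro a b
    refine Equiv.ext fun z => ?_
    show R (a * b)⁻¹ z = R a⁻¹ (R b⁻¹ z)
    rw [R_mul, mul_inv_rev])
  have hψ1 : ∀ g z, ψ1 g z = R g⁻¹ z := fun g z => rfl
  let πe : G → Equiv.Perm (C × (G ⧸ N)) := fun g =>
    { toFun := fun z => (z.1, z.2 * (mkq g)⁻¹)
      invFun := fun z => (z.1, z.2 * mkq g)
      left_inv := by
        intro z
        exact Prod.ext rfl (inv_mul_cancel_right _ _)
      right_inv := by
        intro z
        exact Prod.ext rfl (mul_inv_cancel_right _ _) }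
  let M : Subgroup (Equiv.Perm (C × (G ⧸ N))) := Subgroup.centralizer (Set.range η)
  have hM : ∀ σ : Equiv.Perm (C × (G ⧸ N)), (∀ (h : H) z, σ (η h z) = η h (σ z)) → σ ∈ M := by
    intro σ h
    rw [Subgroup.mem_centralizer_iff]
    rintro _ ⟨k, rfl⟩
    exact Equiv.ext fun z => (h k z).symm
  have hM' : ∀ σ ∈ M, ∀ (h : H) z, σ (η h z) = η h (σ z) := by
    intro σ hσ h z
    have h1 := Subgroup.mem_centralizer_iff.1 hσ (η h) ⟨h, rfl⟩
    exact (congrArg (fun τ : Equiv.Perm (C × (G ⧸ N)) => τ z) h1).symm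
  -- equivariance of the developing maps
  have hFH : ∀ (h : H) (q : G ⧸ N) (v : V) (x : C),
      D.F c0 (rep (mkq (h : G) * q)) v ⟨hl h • (x : V), hinv _ (hlmem h) _ x.2⟩ =
        ⟨hl h • ((D.F c0 (rep q) v x : C) : V), hinv _ (hlmem h) _ (D.F c0 (rep q) v x).2⟩ := by
    intro h q v x
    have h1 : mkq ((rep (mkq (h : G) * q) : L) : G) = mkq ((hl h * rep q : L) : G) := by
      rw [hrep, Subgroup.coe_mul, map_mul, hrep]
    rw [hF _ _ h1]
    exact D.F3 c0 (hlmem h) (rep q) v x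
  have hψM : ∀ g, ψ1 g ∈ M := by
    intro g
    refine hM _ fun h z => ?_
    rw [hψ1, hψ1]
    refine Prod.ext ?_ ?_
    · exact hFH h z.2 (g⁻¹ • c0) z.1
    · exact mul_assoc _ _ _
  have hπM : ∀ g, πe g ∈ M := by
    intro g
    refine hM _ fun h z => ?_
    exact Prod.ext rfl (mul_assoc _ _ _)
  let π : G →* M := MonoidHom.mk' (fun g => ⟨πe g, hπM g⟩) (by
    intro a b
    refine Subtype.ext (Equiv.ext fun z => Prod.ext rfl ?_)
    show z.2 * (mkq (a * b))⁻¹ = z.2 * (mkq b)⁻¹ * (mkq a)⁻¹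
    rw [map_mul, mul_inv_rev, mul_assoc])
  let f0 : G → M := fun g => if h : g ∈ L then ⟨ψ1 ⟨g, h⟩, hψM _⟩ else 1
  have hf0 : ∀ g (h : g ∈ L), f0 g = ⟨ψ1 ⟨g, h⟩, hψM _⟩ := fun g h => dif_pos h
  refine ⟨C × (G ⧸ N), η, M, π, f0, (⟨c0, hc0⟩, 1), {z | (z.1 : V) ∈ T0}, hM', ?_, ?_, ?_, ?_, ?_, ?_⟩
  · intro a ha b hb
    rw [hf0 _ (L.mul_mem ha hb), hf0 a ha, hf0 b hb]
    refine Subtype.ext ?_
    show ψ1 ⟨a * b, _⟩ = ψ1 ⟨a, ha⟩ * ψ1 ⟨b, hb⟩
    rw [← map_mul]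
    rfl
  · intro U hU hUL
    have hU' : ((U.subgroupOf L : Subgroup L) : Set L).Finite := by
      refine Set.Finite.of_finite_image (f := fun x : L => (x : G)) (hU.subset ?_)
        (fun a _ b _ e => Subtype.ext e)
      rintro _ ⟨x, hx, rfl⟩
      exact Subgroup.mem_subgroupOf.1 hx
    obtain ⟨x0, hx0⟩ := T.fix _ hU' c0
    let m : Equiv.Perm (C × (G ⧸ N)) :=
      { toFun := fun z => ((D.F c0 (rep z.2) x0)⁻¹ z.1, z.2)
        invFun := fun z => (D.F c0 (rep z.2) x0 z.1, z.2)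
        left_inv := by
          intro z
          exact Prod.ext (pai _ _) rfl
        right_inv := by
          intro z
          exact Prod.ext (pia _ _) rfl }
    have hmM : m ∈ M := by
      refine hM _ fun h z => ?_
      refine Prod.ext ?_ rfl
      show (D.F c0 (rep (mkq (h : G) * z.2)) x0)⁻¹ ⟨hl h • (z.1 : V), _⟩ =
        ⟨hl h • (((D.F c0 (rep z.2) x0)⁻¹ z.1 : C) : V), _⟩
      rw [Equiv.Perm.inv_eq_iff_eq]
      have h1 := hFH h z.2 x0 ((D.F c0 (rep z.2) x0)⁻¹ z.1)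
      rw [h1]
      refine Subtype.ext ?_
      show hl h • (z.1 : V) = hl h • ((D.F c0 (rep z.2) x0 ((D.F c0 (rep z.2) x0)⁻¹ z.1) : C) : V)
      rw [pai]
    refine ⟨⟨m, hmM⟩, fun u hu => ?_⟩
    rw [eq_mul_inv_iff_mul_eq, hf0 u (hUL hu)]
    refine Subtype.ext (Equiv.ext fun z => ?_)
    refine Prod.ext ?_ rfl
    show D.F c0 (rep z.2) ((⟨u, hUL hu⟩ : L)⁻¹ • c0) ((D.F c0 (rep z.2) x0)⁻¹ z.1) =
      (D.F c0 (rep (z.2 * (mkq u)⁻¹)) x0)⁻¹ z.1
    have h1 : mkq ((rep (z.2 * (mkq u)⁻¹) : L) : G) =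
        mkq ((rep z.2 * (⟨u, hUL hu⟩ : L)⁻¹ : L) : G) := by
      rw [hrep, Subgroup.coe_mul, map_mul, hrep, Subgroup.coe_inv, map_inv]
    have h2 := D.F2 c0 (rep z.2) (⟨u, hUL hu⟩ : L)⁻¹ x0
    have h3 : (⟨u, hUL hu⟩ : L)⁻¹ • x0 = x0 := by
      rw [inv_smul_eq_iff]
      exact (hx0 _ (Subgroup.mem_subgroupOf.2 hu)).symm
    rw [h3] at h2
    rw [hF _ _ h1, h2, mul_inv_rev, Equiv.Perm.mul_apply, pai]
  · intro h
    have h1 : (h : G)⁻¹ ∈ L := L.inv_mem (hHL h.2)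
    rw [hf0 _ h1]
    show ψ1 ⟨(h : G)⁻¹, h1⟩ (⟨c0, hc0⟩, 1) = η h (⟨c0, hc0⟩, 1)
    rw [hψ1, hη]
    have e1 : (⟨(h : G)⁻¹, h1⟩ : L)⁻¹ = hl h := by
      refine Subtype.ext ?_
      show ((h : G)⁻¹)⁻¹ = (h : G)
      rw [inv_inv]
    rw [e1]
    refine Prod.ext ?_ ?_
    · show D.F c0 (rep 1) (hl h • c0) ⟨c0, hc0⟩ = _
      have h2 : mkq ((rep 1 : L) : G) = mkq ((1 : L) : G) := by
        rw [hrep, Subgroup.coe_one, map_one]
      rw [hF _ _ h2]
      exact D.F4 c0 hc0 _ ⟨hl h • c0, hinv _ (hlmem h) _ hc0⟩ rfl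
    · show 1 * mkq (h : G) = mkq (h : G) * 1
      rw [one_mul, mul_one]
  · intro h hh
    rw [hη, Prod.mk.injEq] at hh
    obtain ⟨h1, h2⟩ := hh
    have h3 : hl h • c0 = c0 := congrArg Subtype.val h1
    have h4 : mkq (h : G) = 1 := by
      have : mkq (h : G) * 1 = 1 := h2
      rwa [mul_one] at this
    have h5 : hl h ∈ N.subgroupOf L := by
      rw [Subgroup.mem_subgroupOf]
      exact (QuotientGroup.eq_one_iff _).1 h4
    have h6 := hfree _ h5 c0 h3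
    refine Subtype.ext ?_
    exact congrArg (fun x : L => (x : G)) h6
  · have : Finite (G ⧸ N) := Subgroup.finite_quotient_of_finiteIndex
    have h1 : ({x : C | (x : V) ∈ T0}).Finite :=
      Set.Finite.preimage (fun a _ b _ e => Subtype.ext e) hT0
    refine (h1.prod (Set.finite_univ : (Set.univ : Set (G ⧸ N)).Finite)).subset ?_
    intro z hz
    exact ⟨hz, Set.mem_univ _⟩
  · intro z
    obtain ⟨h, hh, h1⟩ := hcov z.1 z.1.2
    refine ⟨⟨(h : G), Subgroup.mem_subgroupOf.1 hh⟩, ?_⟩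
    show hl ⟨(h : G), _⟩ • (z.1 : V) ∈ T0
    exact h1

end action

section main

variable {G X : Type} [Group G] {j : FreeGroup X →* G} {H : Subgroup G} {r : G → G}

/-- finitely generated subgroups meeting all cosets of the free subgroup -/
theorem Cx.main (c : Cx G X j H r) [j.range.FiniteIndex] (hH : H.FG) :
    ∃ K : Subgroup G, K.FiniteIndex ∧ H ≤ K ∧
      ∃ ρ : K →* G, (∀ k : K, ρ k ∈ H) ∧ ∀ h : G, ∀ hk : h ∈ K, h ∈ H → ρ ⟨h, hk⟩ = h := by
  classical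
  have : j.range.Normal := c.nor
  obtain ⟨T0, hT0, hR⟩ := c.exists_T0 hH
  obtain ⟨V, act, X', T, hfree⟩ := c.exists_tree1 (LS j H T0) (c.LS_fg hH hT0 hR)
  obtain ⟨Z, η, M, π, f0, z0, T1, h1, h2, h3, h4, h5, h6, h7⟩ := base_action j.range (LS j H T0) H
    H_le_LS (fun g => ⟨r g, H_le_LS (c.rH g), by
      have e : (r g)⁻¹ * g = (r g)⁻¹ * (g * (r g)⁻¹) * (r g)⁻¹⁻¹ := by group
      rw [e]
      exact c.conj _ (c.rN g)⟩) hH T hfree
  obtain ⟨ψ, hψ⟩ := c.extend_all π hT0 hR f0 h2 h3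
  refine vr_of_action H η (M.subtype.comp ψ) (fun g h z => h1 _ (ψ g).2 h z) z0 ?_ h5 T1 h6 h7
  intro h
  have h8 : ψ (h : G)⁻¹ = f0 (h : G)⁻¹ := hψ _ ((LS j H T0).inv_mem (H_le_LS h.2))
  show ((ψ (h : G)⁻¹ : M) : Equiv.Perm Z) z0 = η h z0
  rw [h8]
  exact h4 h

end main

end Pool.Agent.R647
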