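import Mathlib

/-!
# Walls in free groups
-/

set_option autoImplicit false

namespace Pool.Agent.R647

open FreeGroup

section walls

variable {X : Type} [DecidableEq X]

/-- the elements whose reduced words end with the letter `x` -/
def En (x : X × Bool) : Set (FreeGroup X) := {h | h.toWord.getLast? = some x}

theorem mem_En {x : X × Bool} {h : FreeGroup X} : h ∈ En x ↔ h.toWord.getLast? = some x := Iff.rfl

theorem toWord_letter_mul (y : X × Bool) (h : FreeGroup X) :
    (mk [y] * h).toWord = [y] ++ h.toWord ∨ h.toWord = (y.1, !y.2) :: (mk [y] * h).toWord := by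
  have e : (mk [y] * h).toWord = reduce (y :: h.toWord) := by
    rw [toWord_mul, toWord_mk, reduce_singleton]
    rfl
  rw [e, reduce.cons, reduce_toWord]
  cases hw : h.toWord with
  | nil => exact Or.inl rfl
  | cons a l =>
    show (if y.1 = a.1 ∧ y.2 = !a.2 then l else y :: a :: l) = _ ∨ _
    by_cases hc : y.1 = a.1 ∧ y.2 = !a.2
    · right
      show a :: l = (y.1, !y.2) :: (if y.1 = a.1 ∧ y.2 = !a.2 then l else y :: a :: l)
      rw [if_pos hc, hc.1, hc.2, Bool.not_not]
    · left
      rw [if_neg hc]
      rfl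

/-- left multiplication by a letter changes the last letter of one word only -/
theorem En_letter {x y : X × Bool} {h : FreeGroup X} (h1 : h ∈ En x) (h2 : mk [y] * h ∉ En x) :
    h = mk [x] ∧ y.1 = x.1 := by
  rw [mem_En] at h1 h2
  rcases toWord_letter_mul y h with e | e
  · exfalso
    apply h2
    rw [e, List.getLast?_append, h1]
    rfl
  · by_cases hn : (mk [y] * h).toWord = []
    · rw [hn] at e
      rw [e] at h1
      have h3 : (y.1, !y.2) = x := by simpa using h1
      constructor
      · rw [← mk_toWord (x := h), e, h3]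
      · rw [← h3]
    · exfalso
      apply h2
      rw [e] at h1
      obtain ⟨a, l, hal⟩ := List.exists_cons_of_ne_nil hn
      rw [hal] at h1 ⊢
      rwa [List.getLast?_cons_cons] at h1

/-- left multiplication by an element changes the last letters of finitely many words -/
theorem En_finite (z : FreeGroup X) : ∃ K : ℕ, ∀ x : X × Bool,
    {h | h ∈ En x ∧ z * h ∉ En x}.Finite ∧ {h | h ∈ En x ∧ z * h ∉ En x}.ncard ≤ K := by
  have hl : ∀ (y : X × Bool) (x : X × Bool), {h | h ∈ En x ∧ mk [y] * h ∉ En x}.Finite ∧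
      {h | h ∈ En x ∧ mk [y] * h ∉ En x}.ncard ≤ 1 := by
    intro y x
    have hs : {h | h ∈ En x ∧ mk [y] * h ∉ En x} ⊆ {mk [x]} := fun h hh => (En_letter hh.1 hh.2).1
    refine ⟨(Set.finite_singleton _).subset hs, ?_⟩
    have := Set.ncard_le_ncard hs (Set.finite_singleton _)
    rwa [Set.ncard_singleton] at this
  induction z using FreeGroup.induction_on with
  | C1 =>
    refine ⟨0, fun x => ?_⟩
    have e : {h : FreeGroup X | h ∈ En x ∧ 1 * h ∉ En x} = ∅ := by
      ext h
      simp
    rw [e, Set.ncard_empty]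
    exact ⟨Set.finite_empty, le_rfl⟩
  | of a => exact ⟨1, fun x => hl (a, true) x⟩
  | inv_of a _ => exact ⟨1, fun x => hl (a, false) x⟩
  | mul a b ha hb =>
    obtain ⟨K1, h1⟩ := ha
    obtain ⟨K2, h2⟩ := hb
    refine ⟨K2 + K1, fun x => ?_⟩
    have hs : {h | h ∈ En x ∧ a * b * h ∉ En x} ⊆ {h | h ∈ En x ∧ b * h ∉ En x} ∪
        (fun h => b⁻¹ * h) '' {h | h ∈ En x ∧ a * h ∉ En x} := by
      rintro h ⟨g1, g2⟩
      by_cases g3 : b * h ∈ En x
      · refine Or.inr ⟨b * h, ⟨g3, ?_⟩, inv_mul_cancel_left b h⟩
        rwa [← mul_assoc]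
      · exact Or.inl ⟨g1, g3⟩
    have hf : ({h | h ∈ En x ∧ b * h ∉ En x} ∪
        (fun h => b⁻¹ * h) '' {h | h ∈ En x ∧ a * h ∉ En x}).Finite :=
      (h2 x).1.union ((h1 x).1.image _)
    refine ⟨hf.subset hs, (Set.ncard_le_ncard hs hf).trans ((Set.ncard_union_le _ _).trans ?_)⟩
    exact Nat.add_le_add (h2 x).2 ((Set.ncard_image_le (h1 x).1).trans (h1 x).2)

/-- the subgroup generated by a set of letters -/
def FL (S : Set X) : Subgroup (FreeGroup X) := Subgroup.closure (FreeGroup.of '' S)

/-- the sets `En x` are invariant under the subgroups not using the letter -/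
theorem En_inv {S : Set X} {x : X × Bool} (hx : x.1 ∉ S) {s : FreeGroup X} (hs : s ∈ FL S)
    (h : FreeGroup X) : s * h ∈ En x ↔ h ∈ En x := by
  have hl : ∀ (y : X × Bool), y.1 ∈ S → ∀ h, h ∈ En x → mk [y] * h ∈ En x := by
    intro y hy h hh
    by_contra hc
    exact hx ((En_letter hh hc).2 ▸ hy)
  have key : ∀ h, s * h ∈ En x ↔ h ∈ En x := by
    unfold FL at hs
    induction hs using Subgroup.closure_induction with
    | mem s hs =>
      intro h
      obtain ⟨a, ha, rfl⟩ := hs
      constructor
      · intro h1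
        have h2 := hl (a, false) ha _ h1
        have e : mk [(a, false)] * (of a * h) = h := by
          have : (mk [(a, false)] : FreeGroup X) = (of a)⁻¹ := rfl
          rw [this, inv_mul_cancel_left]
        rwa [e] at h2
      · exact hl (a, true) ha h
    | one =>
      intro h
      rw [one_mul]
    | mul a b _ _ ha hb =>
      intro h
      rw [mul_assoc, ha, hb]
    | inv a _ ha =>
      intro h
      rw [← ha, mul_inv_cancel_left]
  exact key h

omit [DecidableEq X] in
theorem mk_mem_FL {S : Set X} (l : List (X × Bool)) (h : ∀ x ∈ l, x.1 ∈ S) : mk l ∈ FL S := by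
  induction l with
  | nil => exact (FL S).one_mem
  | cons a l ih =>
    have e : (mk (a :: l) : FreeGroup X) = mk [a] * mk l := rfl
    rw [e]
    refine (FL S).mul_mem ?_ (ih fun x hx => h x (List.mem_cons_of_mem _ hx))
    have ha := h a List.mem_cons_self
    obtain ⟨a, b⟩ := a
    have h1 : of a ∈ FL S := Subgroup.subset_closure ⟨a, ha, rfl⟩
    cases b with
    | true => exact h1
    | false => exact (FL S).inv_mem h1

theorem sub_toWord {u : FreeGroup X} {l1 l l2 : List (X × Bool)} (h : u.toWord = l1 ++ l ++ l2) :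
    (mk l).toWord = l := by
  have h1 : FreeGroup.IsReduced u.toWord := isReduced_toWord
  rw [h] at h1
  have h2 : FreeGroup.IsReduced l := List.IsChain.right_of_append (List.IsChain.left_of_append h1)
  exact h2.reduce_eq

/-- separation of the cosets of a subgroup generated by letters -/
theorem En_sep {S : Set X} {v : FreeGroup X} (hv : v ∉ FL S) :
    ∃ (p : FreeGroup X) (x : X × Bool), x.1 ∉ S ∧ p ∉ En x ∧ v * p ∈ En x := by
  have h1 : ∃ x ∈ v.toWord, x.1 ∉ S := by
    by_contra hc
    push Not at hc
    apply hv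
    rw [← mk_toWord (x := v)]
    exact mk_mem_FL _ hc
  obtain ⟨x, hx, hxS⟩ := h1
  obtain ⟨l1, l2, hl⟩ := List.append_of_mem hx
  refine ⟨(mk l2)⁻¹, x, hxS, ?_, ?_⟩
  · rw [mem_En, toWord_inv]
    have e : (mk l2).toWord = l2 := sub_toWord (u := v) (l1 := l1 ++ [x]) (l2 := []) (by
      rw [hl]
      simp)
    rw [e]
    cases l2 with
    | nil =>
      intro h
      simp at h
    | cons a l =>
      intro h
      have h2 : (invRev (a :: l)).getLast? = some (a.1, !a.2) := by
        unfold invRev
        simp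
      rw [h2, Option.some.injEq] at h
      have h3 : FreeGroup.IsReduced ([x, a] : List (X × Bool)) := by
        have h4 : FreeGroup.IsReduced v.toWord := isReduced_toWord
        rw [hl] at h4
        have e5 : l1 ++ x :: a :: l = l1 ++ [x, a] ++ l := by simp
        rw [e5] at h4
        exact List.IsChain.right_of_append (List.IsChain.left_of_append h4)
      have h5 : x.1 = a.1 → x.2 = a.2 := by
        rw [FreeGroup.IsReduced, List.isChain_pair] at h3
        exact h3
      have h6 := h5 (by rw [← h])
      rw [← h] at h6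
      simp at h6
  · have e : v = mk (l1 ++ [x]) * mk l2 := by
      rw [mul_mk, ← mk_toWord (x := v), hl]
      simp
    have e2 : (mk (l1 ++ [x])).toWord = l1 ++ [x] := sub_toWord (u := v) (l1 := []) (l2 := l2) (by
      rw [hl]
      simp)
    rw [mem_En]
    conv_lhs => rw [e]
    rw [mul_inv_cancel_right, e2]
    simp

/-- subgroups generated by letters are malnormal -/
theorem FL_malnormal {S : Set X} {g : FreeGroup X} (hg : g ∉ FL S) {s : FreeGroup X} (hs : s ∈ FL S)
    (hs' : g⁻¹ * s * g ∈ FL S) : s = 1 := by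
  have hg' : g⁻¹ ∉ FL S := fun h => hg (by simpa using (FL S).inv_mem h)
  obtain ⟨p, x, hxS, hp, hgp⟩ := En_sep hg'
  by_contra hne
  obtain ⟨K, hK⟩ := En_finite g
  have hfin := (hK x).1
  have hinj : Function.Injective (fun n : ℕ => g⁻¹ * s ^ n * p) := by
    intro m n h
    have h1 : s ^ m = s ^ n := by
      have h2 : g⁻¹ * s ^ m * p = g⁻¹ * s ^ n * p := h
      exact mul_left_cancel (mul_right_cancel h2)
    exact IsMulTorsionFree.pow_right_injective hne h1
  have hsub : Set.range (fun n : ℕ => g⁻¹ * s ^ n * p) ⊆ {h | h ∈ En x ∧ g * h ∉ En x} := by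
    rintro _ ⟨n, rfl⟩
    constructor
    · have e : g⁻¹ * s ^ n * p = (g⁻¹ * s * g) ^ n * (g⁻¹ * p) := by
        have : (g⁻¹ * s * g) ^ n = g⁻¹ * s ^ n * g := by
          have := conj_pow (a := g⁻¹) (b := s) (i := n)
          rwa [inv_inv] at this
        rw [this]
        group
      show g⁻¹ * s ^ n * p ∈ En x
      rw [e]
      exact (En_inv hxS ((FL S).pow_mem hs' n) _).2 hgp
    · have e : g * (g⁻¹ * s ^ n * p) = s ^ n * p := by group
      show g * (g⁻¹ * s ^ n * p) ∉ En x
      rw [e, En_inv hxS ((FL S).pow_mem hs n)]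
      exact hp
  exact (Set.infinite_range_of_injective hinj) (hfin.subset hsub)

/-- the two ends of an infinite cyclic subgroup are separated by a wall -/
theorem En_ends {t : FreeGroup X} (ht : t ≠ 1) : ∃ (p : FreeGroup X) (x : X × Bool),
    ∀ n : ℕ, n ≠ 0 → t ^ n * p ∈ En x ∧ (t ^ n)⁻¹ * p ∉ En x := by
  set L := t.toWord with hL
  set u := reduceCyclically.conjugator L with hu
  set c := reduceCyclically L with hc
  have hLr : FreeGroup.IsReduced L := isReduced_toWord
  have hLe : u ++ c ++ invRev u = L := reduceCyclically.conj_conjugator_reduceCyclically L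
  have hcr : IsCyclicallyReduced c := reduceCyclically.isCyclicallyReduced hLr
  have hcne : c ≠ [] := by
    intro h
    apply ht
    rw [← mk_toWord (x := t), ← hL, ← hLe, h, List.append_nil, ← mul_mk, ← inv_mk, mul_inv_cancel]
  obtain ⟨x, hx⟩ : ∃ x, c.getLast? = some x := ⟨_, List.getLast?_eq_some_getLast hcne⟩
  obtain ⟨y, hy⟩ : ∃ y, c.head? = some y := ⟨_, List.head?_eq_some_head hcne⟩
  have hxy : x.1 = y.1 → x.2 = y.2 := hcr.2 x hx y hy
  refine ⟨mk u, x, fun n hn => ?_⟩
  obtain ⟨m, rfl⟩ := Nat.exists_eq_succ_of_ne_zero hn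
  have hw : (t ^ (m + 1)).toWord = u ++ (List.replicate (m + 1) c).flatten ++ invRev u := by
    rw [toWord_pow, ← hL]
    exact reduceCyclically.reduce_flatten_replicate_succ hLr m
  set w := (List.replicate (m + 1) c).flatten with hwdef
  have hwne : w ≠ [] := by
    rw [hwdef]
    simp [hcne]
  have hwl : w.getLast? = some x := by
    rw [hwdef, List.getLast?_flatten_replicate (by omega), hx]
  have hwh : w.head? = some y := by
    rw [hwdef, List.head?_flatten_replicate (by omega), hy]
  constructor
  · have e1 : t ^ (m + 1) * mk u = mk (u ++ w) := by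
      rw [← mk_toWord (x := t ^ (m + 1)), hw, ← mul_mk, ← inv_mk, inv_mul_cancel_right]
    show t ^ (m + 1) * mk u ∈ En x
    rw [mem_En, e1, sub_toWord (u := t ^ (m + 1)) (l1 := []) (l2 := invRev u) (by
      rw [hw, List.nil_append]), List.getLast?_append, hwl]
    rfl
  · have hw2 : ((t ^ (m + 1))⁻¹).toWord = u ++ invRev w ++ invRev u := by
      rw [toWord_inv, hw, invRev_append, invRev_append, invRev_invRev, List.append_assoc]
    have e1 : (t ^ (m + 1))⁻¹ * mk u = mk (u ++ invRev w) := by
      rw [← mk_toWord (x := (t ^ (m + 1))⁻¹), hw2, ← mul_mk, ← inv_mk, inv_mul_cancel_right]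
    show (t ^ (m + 1))⁻¹ * mk u ∉ En x
    rw [mem_En, e1, sub_toWord (u := (t ^ (m + 1))⁻¹) (l1 := []) (l2 := invRev u) (by
      rw [hw2, List.nil_append]), List.getLast?_append]
    have h2 : (invRev w).getLast? = some (y.1, !y.2) := by
      unfold invRev
      rw [List.getLast?_reverse, List.head?_map, hwh]
      rfl
    rw [h2]
    intro h3
    have h4 : (y.1, !y.2) = x := by simpa using h3
    have h5 := hxy (by rw [← h4])
    rw [← h4] at h5
    simp at h5

end walls

end Pool.Agent.R647
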