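import Pool.Agent.R647.Free1

/-!
# Retracts of subgroups of free groups
-/

set_option autoImplicit false

namespace Pool.Agent.R647

open FreeGroup (of)

section ret

variable {G : Type} [Group G]

/-- `A` is a retract of `B` -/
def Ret (A B : Subgroup G) : Prop :=
  A ≤ B ∧ ∃ ρ : G → G, (∀ a ∈ B, ∀ b ∈ B, ρ (a * b) = ρ a * ρ b) ∧ (∀ b ∈ B, ρ b ∈ A) ∧
    ∀ a ∈ A, ρ a = a

theorem Ret.refl (A : Subgroup G) : Ret A A := ⟨le_rfl, id, fun _ _ _ _ => rfl, fun _ h => h, fun _ _ => rfl⟩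

theorem Ret.trans {A B C : Subgroup G} (h : Ret A B) (h' : Ret B C) : Ret A C := by
  obtain ⟨h1, ρ, h2, h3, h4⟩ := h
  obtain ⟨h1', ρ', h2', h3', h4'⟩ := h'
  refine ⟨h1.trans h1', fun x => ρ (ρ' x), ?_, ?_, ?_⟩
  · intro a ha b hb
    show ρ (ρ' (a * b)) = ρ (ρ' a) * ρ (ρ' b)
    rw [h2' a ha b hb, h2 _ (h3' a ha) _ (h3' b hb)]
  · intro b hb
    exact h3 _ (h3' b hb)
  · intro a ha
    show ρ (ρ' a) = a
    rw [h4' a (h1 ha), h4 a ha]

theorem Ret.map {A B : Subgroup G} (h : Ret A B) (e : G ≃* G) :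
    Ret (A.map e.toMonoidHom) (B.map e.toMonoidHom) := by
  obtain ⟨h1, ρ, h2, h3, h4⟩ := h
  refine ⟨Subgroup.map_mono h1, fun x => e (ρ (e.symm x)), ?_, ?_, ?_⟩
  · rintro _ ⟨a, ha, rfl⟩ _ ⟨b, hb, rfl⟩
    show e (ρ (e.symm (e a * e b))) = e (ρ (e.symm (e a))) * e (ρ (e.symm (e b)))
    rw [map_mul, e.symm_apply_apply, e.symm_apply_apply, h2 a ha b hb, map_mul]
  · rintro _ ⟨b, hb, rfl⟩
    show e (ρ (e.symm (e b))) ∈ _
    rw [e.symm_apply_apply]
    exact ⟨ρ b, h3 b hb, rfl⟩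
  · rintro _ ⟨a, ha, rfl⟩
    show e (ρ (e.symm (e a))) = e a
    rw [e.symm_apply_apply, h4 a ha]

end ret

section free

variable {X : Type}

/-- the intersection of a subgroup with a subgroup generated by letters is a retract -/
theorem ret_FL (S : Set X) (B : Subgroup (FreeGroup X)) : Ret (FL S ⊓ B) B := by
  classical
  set b0 : FreeGroup X ⧸ B := ((1 : FreeGroup X) : FreeGroup X ⧸ B) with hb0
  let O : FreeGroup X ⧸ B → Prop := fun q => ∃ s ∈ FL S, ((s : FreeGroup X) : FreeGroup X ⧸ B) = q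
  let t : FreeGroup X ⧸ B → FreeGroup X := fun q =>
    if q = b0 then 1 else if h : O q then h.choose else 1
  have ht0 : t b0 = 1 := if_pos rfl
  have ht : ∀ q, O q → t q ∈ FL S ∧ ((t q : FreeGroup X) : FreeGroup X ⧸ B) = q := by
    intro q hq
    by_cases h : q = b0
    · rw [h, ht0]
      exact ⟨(FL S).one_mem, rfl⟩
    · have e : t q = hq.choose := by
        show (if q = b0 then 1 else if h : O q then h.choose else 1) = _
        rw [if_neg h, dif_pos hq]
      rw [e]
      exact hq.choose_spec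
  have hO : ∀ s ∈ FL S, ∀ q, O q → O (s • q) := by
    rintro s hs q ⟨s', hs', rfl⟩
    exact ⟨s * s', (FL S).mul_mem hs hs', rfl⟩
  have hmem : ∀ s ∈ FL S, ∀ q, O q → (t (s • q))⁻¹ * s * t q ∈ FL S ⊓ B := by
    intro s hs q hq
    obtain ⟨h1, h2⟩ := ht q hq
    obtain ⟨h3, h4⟩ := ht (s • q) (hO s hs q hq)
    refine ⟨(FL S).mul_mem ((FL S).mul_mem ((FL S).inv_mem h3) hs) h1, ?_⟩
    rw [mul_assoc]
    refine QuotientGroup.eq.1 ?_
    rw [h4]
    conv_lhs => rw [← h2]
    rfl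
  let al : X → FreeGroup X ⧸ B → (FL S ⊓ B : Subgroup (FreeGroup X)) := fun x q =>
    if h : x ∈ S ∧ O q then ⟨_, hmem (of x) (Subgroup.subset_closure ⟨x, h.1, rfl⟩) q h.2⟩ else 1
  let σ : X → Equiv.Perm ((FreeGroup X ⧸ B) × (FL S ⊓ B : Subgroup (FreeGroup X))) := fun x =>
    { toFun := fun p => (of x • p.1, al x p.1 * p.2)
      invFun := fun p => ((of x)⁻¹ • p.1, (al x ((of x)⁻¹ • p.1))⁻¹ * p.2)
      left_inv := by
        intro p
        refine Prod.ext ?_ ?_
        · exact inv_smul_smul _ _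
        · show (al x ((of x)⁻¹ • of x • p.1))⁻¹ * (al x p.1 * p.2) = p.2
          rw [inv_smul_smul, inv_mul_cancel_left]
      right_inv := by
        intro p
        refine Prod.ext ?_ ?_
        · exact smul_inv_smul _ _
        · exact mul_inv_cancel_left _ _ }
  let Φ : FreeGroup X →* Equiv.Perm ((FreeGroup X ⧸ B) × (FL S ⊓ B : Subgroup (FreeGroup X))) :=
    FreeGroup.lift σ
  have hΦ : ∀ x, Φ (of x) = σ x := fun x => FreeGroup.lift_apply_of
  have h1 : ∀ g p, (Φ g p).1 = g • p.1 := by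
    intro g
    induction g using FreeGroup.induction_on with
    | C1 =>
      intro p
      rw [map_one, one_smul]
      rfl
    | of x =>
      intro p
      rw [hΦ]
      rfl
    | inv_of x _ =>
      intro p
      rw [map_inv, hΦ]
      rfl
    | mul a b ha hb =>
      intro p
      rw [map_mul, Equiv.Perm.mul_apply, ha, hb, mul_smul]
  have h2 : ∀ g q a a', Φ g (q, a * a') = ((Φ g (q, a)).1, (Φ g (q, a)).2 * a') := by
    intro g
    induction g using FreeGroup.induction_on with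
    | C1 =>
      intro q a a'
      rw [map_one]
      rfl
    | of x =>
      intro q a a'
      rw [hΦ]
      exact Prod.ext rfl (mul_assoc (al x q) a a').symm
    | inv_of x _ =>
      intro q a a'
      rw [map_inv, hΦ]
      exact Prod.ext rfl (mul_assoc (al x ((of x)⁻¹ • q))⁻¹ a a').symm
    | mul g g' ha hb =>
      intro q a a'
      rw [map_mul, Equiv.Perm.mul_apply, Equiv.Perm.mul_apply, hb, ha]
  have h3 : ∀ s ∈ FL S, ∀ q, O q → ∀ a, ((Φ s (q, a)).2 : FreeGroup X) =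
      (t (s • q))⁻¹ * s * t q * a := by
    intro s hs
    unfold FL at hs
    induction hs using Subgroup.closure_induction with
    | mem s hs =>
      obtain ⟨x, hx, rfl⟩ := hs
      intro q hq a
      rw [hΦ]
      show ((al x q * a : (FL S ⊓ B : Subgroup (FreeGroup X))) : FreeGroup X) = _
      have e : al x q = ⟨_, hmem (of x) (Subgroup.subset_closure ⟨x, hx, rfl⟩) q hq⟩ :=
        dif_pos ⟨hx, hq⟩
      rw [e]
      rfl
    | one =>
      intro q hq a
      rw [map_one, one_smul, mul_one, inv_mul_cancel, one_mul]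
      rfl
    | mul s s' hs hs' ih ih' =>
      intro q hq a
      have e1 : Φ s' (q, a) = (s' • q, (Φ s' (q, a)).2) := Prod.ext (h1 s' _) rfl
      rw [map_mul, Equiv.Perm.mul_apply, e1, ih _ (hO s' hs' q hq), ih' q hq, mul_smul]
      group
    | inv s hs ih =>
      intro q hq a
      have hs' : s⁻¹ ∈ FL S := (FL S).inv_mem hs
      have e1 : Φ s⁻¹ (q, a) = (s⁻¹ • q, (Φ s⁻¹ (q, a)).2) := Prod.ext (h1 s⁻¹ _) rfl
      have e2 : Φ s (Φ s⁻¹ (q, a)) = (q, a) := by
        rw [← Equiv.Perm.mul_apply, ← map_mul, mul_inv_cancel, map_one]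
        rfl
      have e3 := ih (s⁻¹ • q) (hO _ hs' q hq) (Φ s⁻¹ (q, a)).2
      rw [← e1, e2, smul_inv_smul] at e3
      have e4 : (a : FreeGroup X) = (t q)⁻¹ * s * t (s⁻¹ • q) * ((Φ s⁻¹ (q, a)).2 : FreeGroup X) := e3
      rw [e4]
      group
  have hb : ∀ b ∈ B, b • b0 = b0 := by
    intro b hb
    show ((b * 1 : FreeGroup X) : FreeGroup X ⧸ B) = ((1 : FreeGroup X) : FreeGroup X ⧸ B)
    rw [mul_one]
    refine QuotientGroup.eq.2 ?_
    rw [mul_one]
    exact B.inv_mem hb
  refine ⟨inf_le_right, fun b => ((Φ b (b0, 1)).2 : FreeGroup X), ?_, ?_, ?_⟩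
  · intro a ha b hb'
    show ((Φ (a * b) (b0, 1)).2 : FreeGroup X) = (Φ a (b0, 1)).2 * (Φ b (b0, 1)).2
    have e1 : Φ b (b0, 1) = (b0, 1 * (Φ b (b0, 1)).2) := by
      rw [one_mul]
      refine Prod.ext ?_ rfl
      rw [h1]
      exact hb b hb'
    have e2 : Φ a (Φ b (b0, 1)) = ((Φ a (b0, 1)).1, (Φ a (b0, 1)).2 * (Φ b (b0, 1)).2) := by
      conv_lhs => rw [e1]
      exact h2 a b0 1 _
    rw [map_mul, Equiv.Perm.mul_apply, e2]
    rfl
  · intro b _
    exact (Φ b (b0, 1)).2.2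
  · intro a ha
    show ((Φ a (b0, 1)).2 : FreeGroup X) = a
    rw [h3 a ha.1 b0 ⟨1, (FL S).one_mem, rfl⟩, hb a ha.2, ht0]
    show (1 : FreeGroup X)⁻¹ * a * 1 * 1 = a
    group

theorem ret_FL' (S : Set X) (B : Subgroup (FreeGroup X)) (e : FreeGroup X ≃* FreeGroup X) :
    Ret ((FL S).map e.toMonoidHom ⊓ B) B := by
  have h := (ret_FL S (B.map e.symm.toMonoidHom)).map e
  have e1 : (B.map e.symm.toMonoidHom).map e.toMonoidHom = B := by
    ext b
    constructor
    · rintro ⟨_, ⟨c, hc, rfl⟩, rfl⟩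
      show e (e.symm c) ∈ B
      rw [e.apply_symm_apply]
      exact hc
    · intro hb
      exact ⟨e.symm b, ⟨b, hb, rfl⟩, e.apply_symm_apply b⟩
  rw [Subgroup.map_inf _ _ _ e.injective, e1] at h
  exact h

theorem ret_finset {ι : Type} (s : Finset ι) (S : Set X) (α : ι → FreeGroup X ≃* FreeGroup X)
    (B : Subgroup (FreeGroup X)) : Ret ((⨅ i ∈ s, (FL S).map (α i).toMonoidHom) ⊓ B) B := by
  classical
  induction s using Finset.induction_on with
  | empty =>
    simp only [Finset.notMem_empty, iInf_false, iInf_top, top_inf_eq]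
    exact Ret.refl B
  | insert i s hi ih =>
    rw [Finset.iInf_insert, inf_assoc]
    exact (ret_FL' S _ (α i)).trans ih

/-- retracts are finitely generated over the letters they contain -/
theorem fg_over {S T : Set X} (hT : T.Finite) {D : Subgroup (FreeGroup X)} (hD : Ret D (FL (S ∪ T)))
    (hS : FL S ≤ D) : ∃ Y : Finset (FreeGroup X), (∀ y ∈ Y, y ∈ D) ∧
      ∀ d ∈ D, d ∈ Subgroup.closure ((FL S : Set (FreeGroup X)) ∪ Y) := by
  classical
  obtain ⟨h1, ρ, h2, h3, h4⟩ := hD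
  set Y : Finset (FreeGroup X) := hT.toFinset.image (fun x => ρ (of x)) with hY
  have hmem : ∀ x ∈ T, of x ∈ FL (S ∪ T) := fun x hx => Subgroup.subset_closure ⟨x, Or.inr hx, rfl⟩
  have h1' : ρ 1 = 1 := h4 1 D.one_mem
  refine ⟨Y, ?_, ?_⟩
  · intro y hy
    rw [hY, Finset.mem_image] at hy
    obtain ⟨x, hx, rfl⟩ := hy
    exact h3 _ (hmem x (hT.mem_toFinset.1 hx))
  · intro d hd
    have key : ∀ b ∈ FL (S ∪ T), ρ b ∈ Subgroup.closure ((FL S : Set (FreeGroup X)) ∪ Y) := by
      intro b hb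
      unfold FL at hb
      induction hb using Subgroup.closure_induction with
      | mem b hb =>
        obtain ⟨x, hx | hx, rfl⟩ := hb
        · have h5 : of x ∈ FL S := Subgroup.subset_closure ⟨x, hx, rfl⟩
          rw [h4 _ (hS h5)]
          exact Subgroup.subset_closure (Or.inl h5)
        · exact Subgroup.subset_closure (Or.inr (Finset.mem_coe.2
            (Finset.mem_image.2 ⟨x, hT.mem_toFinset.2 hx, rfl⟩)))
      | one =>
        rw [h1']
        exact Subgroup.one_mem _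
      | mul a b ha hb iha ihb =>
        rw [h2 a ha b hb]
        exact Subgroup.mul_mem _ iha ihb
      | inv a ha iha =>
        have e : ρ a⁻¹ = (ρ a)⁻¹ := by
          rw [eq_inv_iff_mul_eq_one, ← h2 _ (Subgroup.inv_mem _ ha) _ ha, inv_mul_cancel, h1']
        rw [e]
        exact Subgroup.inv_mem _ iha
    have := key d (h1 hd)
    rwa [h4 d hd] at this

/-- every element lies in the subgroup generated by finitely many letters -/
theorem exists_supp (f : FreeGroup X) : ∃ T : Set X, T.Finite ∧ f ∈ FL T := by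
  induction f using FreeGroup.induction_on with
  | C1 => exact ⟨∅, Set.finite_empty, (FL ∅).one_mem⟩
  | of x => exact ⟨{x}, Set.finite_singleton x, Subgroup.subset_closure ⟨x, rfl, rfl⟩⟩
  | inv_of x _ =>
    exact ⟨{x}, Set.finite_singleton x, (FL {x}).inv_mem (Subgroup.subset_closure ⟨x, rfl, rfl⟩)⟩
  | mul a b ha hb =>
    obtain ⟨T, hT, h1⟩ := ha
    obtain ⟨T', hT', h2⟩ := hb
    refine ⟨T ∪ T', hT.union hT', (FL (T ∪ T')).mul_mem ?_ ?_⟩
    · exact Subgroup.closure_mono (Set.image_mono Set.subset_union_left) h1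
    · exact Subgroup.closure_mono (Set.image_mono Set.subset_union_right) h2

theorem FL_mono {S T : Set X} (h : S ⊆ T) : FL S ≤ FL T := Subgroup.closure_mono (Set.image_mono h)

end free

end Pool.Agent.R647
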