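import Pool.Agent.R647.Free2
import Pool.Agent.R647.Estep2

/-!
# Finite extensions of free groups: walls
-/

set_option autoImplicit false

namespace Pool.Agent.R647

open FreeGroup (of)

/-- a group with a free normal subgroup, the range of `j`, and a map `r` choosing representatives
in `H` of the cosets of this subgroup -/
structure Cx (G X : Type) [Group G] (j : FreeGroup X →* G) (H : Subgroup G) (r : G → G) : Prop where
  inj : Function.Injective j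
  nor : j.range.Normal
  rH : ∀ g, r g ∈ H
  rN : ∀ g, g * (r g)⁻¹ ∈ j.range
  rc : ∀ g g', g * g'⁻¹ ∈ j.range → r g = r g'
  r1 : r 1 = 1
  rfin : (Set.range r).Finite

section cx

variable {G X : Type} [Group G] {j : FreeGroup X →* G} {H : Subgroup G} {r : G → G}

/-- the coordinate in the free subgroup -/
noncomputable def Cx.ph (c : Cx G X j H r) (g : G) : FreeGroup X := (c.rN g).choose

theorem Cx.j_ph (c : Cx G X j H r) (g : G) : j (c.ph g) = g * (r g)⁻¹ := (c.rN g).choose_spec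

theorem Cx.j_mem (_c : Cx G X j H r) (f : FreeGroup X) : j f ∈ j.range := ⟨f, rfl⟩

theorem Cx.r_j (c : Cx G X j H r) (f : FreeGroup X) : r (j f) = 1 := by
  rw [← c.r1]
  apply c.rc
  rw [inv_one, mul_one]
  exact c.j_mem f

theorem Cx.ph_j (c : Cx G X j H r) (f : FreeGroup X) : c.ph (j f) = f := by
  apply c.inj
  rw [c.j_ph, c.r_j, inv_one, mul_one]

theorem Cx.r_mul (c : Cx G X j H r) (g y : G) : r (r g * y) = r (g * y) := by
  apply c.rc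
  have h := j.range.inv_mem (c.rN g)
  have e : r g * y * (g * y)⁻¹ = (g * (r g)⁻¹)⁻¹ := by group
  rwa [e]

theorem Cx.ph_mul (c : Cx G X j H r) (g y : G) : c.ph (g * y) = c.ph g * c.ph (r g * y) := by
  apply c.inj
  rw [map_mul, c.j_ph, c.j_ph, c.j_ph, c.r_mul]
  group

theorem Cx.eq_j (c : Cx G X j H r) (g : G) : g = j (c.ph g) * r g := by
  rw [c.j_ph, inv_mul_cancel_right]

theorem Cx.conj (c : Cx G X j H r) (g : G) {n : G} (h : n ∈ j.range) : g * n * g⁻¹ ∈ j.range :=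
  c.nor.conj_mem n h g

variable [DecidableEq X]

/-- the walls -/
def Cx.Wl (c : Cx G X j H r) (p : FreeGroup X) (x : X × Bool) : Set G :=
  {g | (c.ph g)⁻¹ * p ∈ En x}

theorem Cx.Wl_fin (c : Cx G X j H r) (y : G) : ∃ K : ℕ, ∀ (p : FreeGroup X) (x : X × Bool) (k : G),
    {w | k * w ∈ c.Wl p x ∧ k * (w * y) ∉ c.Wl p x}.Finite ∧
      {w | k * w ∈ c.Wl p x ∧ k * (w * y) ∉ c.Wl p x}.ncard ≤ K := by
  classical
  choose K hK using fun a : G => En_finite (c.ph (a * y))⁻¹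
  refine ⟨∑ a ∈ c.rfin.toFinset, K a, fun p x k => ?_⟩
  have hsub : {w | k * w ∈ c.Wl p x ∧ k * (w * y) ∉ c.Wl p x} ⊆ ⋃ a ∈ c.rfin.toFinset,
      (fun h => k⁻¹ * (j (p * h⁻¹) * a)) '' {h | h ∈ En x ∧ (c.ph (a * y))⁻¹ * h ∉ En x} := by
    rintro w ⟨h1, h2⟩
    refine Set.mem_biUnion (c.rfin.mem_toFinset.2 ⟨k * w, rfl⟩) ⟨(c.ph (k * w))⁻¹ * p, ⟨h1, ?_⟩, ?_⟩
    · intro h3
      apply h2
      show (c.ph (k * (w * y)))⁻¹ * p ∈ En x
      rw [← mul_assoc, c.ph_mul, mul_inv_rev, mul_assoc]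
      exact h3
    · show k⁻¹ * (j (p * ((c.ph (k * w))⁻¹ * p)⁻¹) * r (k * w)) = w
      rw [mul_inv_rev, inv_inv, mul_inv_cancel_left, ← c.eq_j, inv_mul_cancel_left]
  have hf : (⋃ a ∈ c.rfin.toFinset, (fun h => k⁻¹ * (j (p * h⁻¹) * a)) ''
      {h | h ∈ En x ∧ (c.ph (a * y))⁻¹ * h ∉ En x}).Finite :=
    Set.Finite.biUnion (Finset.finite_toSet _) fun a _ => (hK a x).1.image _
  refine ⟨hf.subset hsub, (Set.ncard_le_ncard hsub hf).trans ?_⟩
  refine (Finset.set_ncard_biUnion_le _ _).trans ?_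
  exact Finset.sum_le_sum fun a _ => (Set.ncard_image_le (hK a x).1).trans (hK a x).2

end cx

section sub

variable {G X : Type} [Group G] {j : FreeGroup X →* G} {H : Subgroup G} {r : G → G}

/-- the subgroup generated by a set of letters -/
def FS (j : FreeGroup X →* G) (S : Set X) : Subgroup G := (FL S).map j

/-- the elements all of whose conjugates by `H` lie in `FS` -/
def DS (j : FreeGroup X →* G) (H : Subgroup G) (S : Set X) : Subgroup G where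
  carrier := {g | ∀ h ∈ H, h * g * h⁻¹ ∈ FS j S}
  one_mem' := by
    intro h _
    rw [mul_one, mul_inv_cancel]
    exact (FS j S).one_mem
  mul_mem' := by
    intro a b ha hb h hh
    have e : h * (a * b) * h⁻¹ = (h * a * h⁻¹) * (h * b * h⁻¹) := by group
    rw [e]
    exact (FS j S).mul_mem (ha h hh) (hb h hh)
  inv_mem' := by
    intro a ha h hh
    have e : h * a⁻¹ * h⁻¹ = (h * a * h⁻¹)⁻¹ := by group
    show h * a⁻¹ * h⁻¹ ∈ FS j S
    rw [e]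
    exact (FS j S).inv_mem (ha h hh)

theorem mem_DS {S : Set X} {g : G} : g ∈ DS j H S ↔ ∀ h ∈ H, h * g * h⁻¹ ∈ FS j S := Iff.rfl

theorem DS_conj {S : Set X} {g : G} (hg : g ∈ DS j H S) {h : G} (hh : h ∈ H) :
    h * g * h⁻¹ ∈ DS j H S := by
  intro h' hh'
  have e : h' * (h * g * h⁻¹) * h'⁻¹ = (h' * h) * g * (h' * h)⁻¹ := by group
  rw [e]
  exact hg _ (H.mul_mem hh' hh)

theorem DS_le_FS {S : Set X} : DS j H S ≤ FS j S := by
  intro g hg
  have := hg 1 H.one_mem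
  rwa [one_mul, inv_one, mul_one] at this

/-- the subgroup generated by `H` and `DS` -/
def LS (j : FreeGroup X →* G) (H : Subgroup G) (S : Set X) : Subgroup G where
  carrier := {g | ∃ h ∈ H, ∃ d ∈ DS j H S, g = h * d}
  one_mem' := ⟨1, H.one_mem, 1, (DS j H S).one_mem, (mul_one 1).symm⟩
  mul_mem' := by
    rintro _ _ ⟨h, hh, d, hd, rfl⟩ ⟨h', hh', d', hd', rfl⟩
    refine ⟨h * h', H.mul_mem hh hh', (h'⁻¹ * d * h'⁻¹⁻¹) * d',
      (DS j H S).mul_mem (DS_conj hd (H.inv_mem hh')) hd', ?_⟩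
    group
  inv_mem' := by
    rintro _ ⟨h, hh, d, hd, rfl⟩
    refine ⟨h⁻¹, H.inv_mem hh, h * d⁻¹ * h⁻¹, DS_conj ((DS j H S).inv_mem hd) hh, ?_⟩
    group

theorem H_le_LS {S : Set X} : H ≤ LS j H S := fun h hh =>
  ⟨h, hh, 1, (DS j H S).one_mem, (mul_one h).symm⟩

theorem DS_le_LS {S : Set X} : DS j H S ≤ LS j H S := fun d hd =>
  ⟨1, H.one_mem, d, hd, (one_mul d).symm⟩

theorem FS_mono {S T : Set X} (h : S ⊆ T) : FS j S ≤ FS j T := Subgroup.map_mono (FL_mono h)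

theorem DS_mono {S T : Set X} (h : S ⊆ T) : DS j H S ≤ DS j H T := fun _ hg k hk =>
  FS_mono h (hg k hk)

theorem LS_mono {S T : Set X} (h : S ⊆ T) : LS j H S ≤ LS j H T := by
  rintro _ ⟨k, hk, d, hd, rfl⟩
  exact ⟨k, hk, d, DS_mono h hd, rfl⟩

theorem FS_le {S : Set X} : FS j S ≤ j.range := by
  rintro _ ⟨f, -, rfl⟩
  exact ⟨f, rfl⟩

theorem Cx.mem_FS (c : Cx G X j H r) {S : Set X} {f : FreeGroup X} : j f ∈ FS j S ↔ f ∈ FL S := by
  constructor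
  · rintro ⟨f', hf', e⟩
    rwa [← c.inj e]
  · intro h
    exact ⟨f, h, rfl⟩

variable (c : Cx G X j H r) {S : Set X} (hS : ∀ h ∈ H, h ∈ j.range → h ∈ FS j S)

include c hS

theorem Cx.key {h h' l : G} (hh : h ∈ H) (hh' : h' ∈ H) (hl : l ∈ LS j H S)
    (hN : h * l * h'⁻¹ ∈ j.range) : h * l * h'⁻¹ ∈ FS j S := by
  obtain ⟨k, hk, d, hd, rfl⟩ := hl
  have e : h * (k * d) * h'⁻¹ = ((h * k) * d * (h * k)⁻¹) * (h * k * h'⁻¹) := by group
  have h1 := hd _ (H.mul_mem hh hk)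
  have h2 : h * k * h'⁻¹ ∈ j.range := by
    have e2 : h * k * h'⁻¹ = ((h * k) * d * (h * k)⁻¹)⁻¹ * (h * (k * d) * h'⁻¹) := by group
    rw [e2]
    exact j.range.mul_mem (j.range.inv_mem (FS_le h1)) hN
  rw [e]
  exact (FS j S).mul_mem h1 (hS _ (H.mul_mem (H.mul_mem hh hk) (H.inv_mem hh')) h2)

theorem Cx.Wl_inv [DecidableEq X] {x : X × Bool} (hx : x.1 ∉ S) (p : FreeGroup X) (w : G) {l : G}
    (hl : l ∈ LS j H S) : w * l ∈ c.Wl p x ↔ w ∈ c.Wl p x := by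
  have h1 : c.ph (r w * l) ∈ FL S := by
    rw [← c.mem_FS, c.j_ph]
    refine c.key hS (c.rH w) (c.rH _) hl ?_
    exact c.rN _
  show (c.ph (w * l))⁻¹ * p ∈ En x ↔ (c.ph w)⁻¹ * p ∈ En x
  rw [c.ph_mul, mul_inv_rev, mul_assoc]
  exact En_inv hx ((FL S).inv_mem h1) _

theorem Cx.sep [DecidableEq X] {g : G} (hg : g ∉ LS j H S) :
    ∃ (k : G) (p : FreeGroup X) (x : X × Bool), x.1 ∉ S ∧
      ¬ (k * 1 ∈ c.Wl p x ↔ k * g ∈ c.Wl p x) := by
  have h1 : (r g)⁻¹ * g ∉ DS j H S := fun h =>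
    hg ⟨r g, c.rH g, _, h, (mul_inv_cancel_left _ _).symm⟩
  have h2 : ∃ h' ∈ H, h' * ((r g)⁻¹ * g) * h'⁻¹ ∉ FS j S := by
    by_contra hc
    push Not at hc
    exact h1 hc
  obtain ⟨h', hh', h3⟩ := h2
  have h4 : (r g)⁻¹ * g ∈ j.range := by
    have e : (r g)⁻¹ * g = (r g)⁻¹ * (g * (r g)⁻¹) * (r g)⁻¹⁻¹ := by group
    rw [e]
    exact c.conj _ (c.rN g)
  obtain ⟨v, hv⟩ := c.conj h' h4
  have hvS : v⁻¹ ∉ FL S := by
    intro h
    apply h3
    rw [← hv]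
    exact c.mem_FS.2 (by simpa using (FL S).inv_mem h)
  obtain ⟨p, x, hx, hp1, hp2⟩ := En_sep hvS
  have hHL : H ≤ LS j H S := H_le_LS
  refine ⟨h' * (r g)⁻¹, p, x, hx, ?_⟩
  have e1 : h' * (r g)⁻¹ * 1 ∈ c.Wl p x ↔ p ∈ En x := by
    rw [mul_one, ← one_mul (h' * (r g)⁻¹), c.Wl_inv hS hx p 1
      (hHL (H.mul_mem hh' (H.inv_mem (c.rH g))))]
    show (c.ph 1)⁻¹ * p ∈ En x ↔ _
    have : c.ph 1 = 1 := by
      have := c.ph_j 1
      rwa [map_one] at this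
    rw [this, inv_one, one_mul]
  have e2 : h' * (r g)⁻¹ * g ∈ c.Wl p x ↔ v⁻¹ * p ∈ En x := by
    have e3 : h' * (r g)⁻¹ * g = j v * h' := by
      rw [hv]
      group
    rw [e3, c.Wl_inv hS hx p _ (hHL hh')]
    show (c.ph (j v))⁻¹ * p ∈ En x ↔ _
    rw [c.ph_j]
  rw [e1, e2]
  tauto

theorem Cx.LS_inter {g : G} (hg : g ∈ LS j H S) (hN : g ∈ j.range) : g ∈ DS j H S := by
  intro h hh
  exact c.key hS hh hh hg (c.conj h hN)

theorem Cx.mal [DecidableEq X] {g : G} (hg : g ∉ LS j H S) {x : G} (hx : x ∈ LS j H S)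
    (hxN : x ∈ j.range) (hx' : g⁻¹ * x * g ∈ LS j H S) : x = 1 := by
  have h1 : (r g)⁻¹ * g ∉ DS j H S := fun h =>
    hg ⟨r g, c.rH g, _, h, (mul_inv_cancel_left _ _).symm⟩
  have h2 : ∃ h' ∈ H, h' * ((r g)⁻¹ * g) * h'⁻¹ ∉ FS j S := by
    by_contra hc
    push Not at hc
    exact h1 hc
  obtain ⟨h', hh', h3⟩ := h2
  have h4 : (r g)⁻¹ * g ∈ j.range := by
    have e : (r g)⁻¹ * g = (r g)⁻¹ * (g * (r g)⁻¹) * (r g)⁻¹⁻¹ := by group
    rw [e]
    exact c.conj _ (c.rN g)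
  obtain ⟨v, hv⟩ := c.conj h' h4
  have hvS : v ∉ FL S := fun h => h3 (by rw [← hv]; exact c.mem_FS.2 h)
  have hxD := c.LS_inter hS hx hxN
  have hxN' : g⁻¹ * x * g ∈ j.range := by
    have := c.conj g⁻¹ hxN
    rwa [inv_inv] at this
  have hxD' := c.LS_inter hS hx' hxN'
  have a1 := hxD (h' * (r g)⁻¹) (H.mul_mem hh' (H.inv_mem (c.rH g)))
  have a2 := hxD' h' hh'
  obtain ⟨s, hs⟩ := FS_le a1
  have hsS : s ∈ FL S := c.mem_FS.1 (hs ▸ a1)
  have e : j (v⁻¹ * s * v) = h' * (g⁻¹ * x * g) * h'⁻¹ := by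
    rw [map_mul, map_mul, map_inv, hv, hs]
    group
  have hsS' : v⁻¹ * s * v ∈ FL S := c.mem_FS.1 (e ▸ a2)
  have h5 := FL_malnormal hvS hsS hsS'
  rw [h5, map_one] at hs
  have e6 : x = (h' * (r g)⁻¹)⁻¹ * 1 * (h' * (r g)⁻¹) := by
    rw [hs]
    group
  rw [e6]
  group

theorem Cx.mal_fin [DecidableEq X] {g : G} (hg : g ∉ LS j H S) :
    {x | x ∈ LS j H S ∧ g⁻¹ * x * g ∈ LS j H S}.Finite := by
  refine Set.Finite.of_finite_image (f := r) (c.rfin.subset ?_) ?_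
  · rintro _ ⟨x, -, rfl⟩
    exact ⟨x, rfl⟩
  · rintro x ⟨hx1, hx2⟩ y ⟨hy1, hy2⟩ e
    have h1 : x * y⁻¹ ∈ j.range := by
      have e1 : x * y⁻¹ = (x * (r x)⁻¹) * (y * (r y)⁻¹)⁻¹ := by
        rw [e]
        group
      rw [e1]
      exact j.range.mul_mem (c.rN x) (j.range.inv_mem (c.rN y))
    have h2 := c.mal hS hg ((LS j H S).mul_mem hx1 ((LS j H S).inv_mem hy1)) h1 (by
      have e2 : g⁻¹ * (x * y⁻¹) * g = (g⁻¹ * x * g) * (g⁻¹ * y * g)⁻¹ := by group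
      rw [e2]
      exact (LS j H S).mul_mem hx2 ((LS j H S).inv_mem hy2))
    exact mul_inv_eq_one.1 h2

end sub

end Pool.Agent.R647
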