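import Pool.Agent.R647.Setup

/-!
# Finite extensions of free groups: extension of homomorphisms
-/

set_option autoImplicit false

namespace Pool.Agent.R647

open FreeGroup (of)

section fg

variable {G X : Type} [Group G] {j : FreeGroup X →* G} {H : Subgroup G} {r : G → G}

theorem Cx.j_ph_mem (c : Cx G X j H r) {n : G} (hn : n ∈ j.range) : j (c.ph n) = n := by
  obtain ⟨f, rfl⟩ := hn
  rw [c.ph_j]

/-- conjugation -/
noncomputable def Cx.al (c : Cx G X j H r) (a : G) : FreeGroup X ≃* FreeGroup X where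
  toFun f := c.ph (a⁻¹ * j f * a)
  invFun f := c.ph (a * j f * a⁻¹)
  left_inv f := by
    apply c.inj
    have h1 : a⁻¹ * j f * a ∈ j.range := by
      have := c.conj a⁻¹ (c.j_mem f)
      rwa [inv_inv] at this
    show j (c.ph (a * j (c.ph (a⁻¹ * j f * a)) * a⁻¹)) = j f
    rw [c.j_ph_mem h1, c.j_ph_mem (c.conj a h1)]
    group
  right_inv f := by
    apply c.inj
    have h1 := c.conj a (c.j_mem f)
    have h2 : a⁻¹ * (a * j f * a⁻¹) * a ∈ j.range := by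
      have := c.conj a⁻¹ h1
      rwa [inv_inv] at this
    show j (c.ph (a⁻¹ * j (c.ph (a * j f * a⁻¹)) * a)) = j f
    rw [c.j_ph_mem h1, c.j_ph_mem h2]
    group
  map_mul' f g := by
    apply c.inj
    have h1 : ∀ f, a⁻¹ * j f * a ∈ j.range := by
      intro f
      have := c.conj a⁻¹ (c.j_mem f)
      rwa [inv_inv] at this
    rw [c.j_ph_mem (h1 (f * g)), map_mul, map_mul, c.j_ph_mem (h1 f), c.j_ph_mem (h1 g)]
    group

theorem Cx.al_apply (c : Cx G X j H r) (a : G) (f : FreeGroup X) :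
    c.al a f = c.ph (a⁻¹ * j f * a) := rfl

theorem Cx.conj_r {R : Set X} (hR : ∀ h ∈ H, h ∈ j.range → h ∈ FS j R) (c : Cx G X j H r)
    {f : G} (h1 : ∀ a ∈ Set.range r, a * f * a⁻¹ ∈ FS j R) {h : G} (hh : h ∈ H) :
    h * f * h⁻¹ ∈ FS j R := by
  have h2 := hR (h * (r h)⁻¹) (H.mul_mem hh (H.inv_mem (c.rH h))) (c.rN h)
  have h3 := h1 (r h) ⟨h, rfl⟩
  have e : h * f * h⁻¹ = (h * (r h)⁻¹) * (r h * f * (r h)⁻¹) * (h * (r h)⁻¹)⁻¹ := by group
  rw [e]
  exact (FS j R).mul_mem ((FS j R).mul_mem h2 h3) ((FS j R).inv_mem h2)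

theorem Cx.ret_DS (c : Cx G X j H r) {R : Set X} (hR : ∀ h ∈ H, h ∈ j.range → h ∈ FS j R) :
    Ret ((DS j H R).comap j) (FL R) := by
  have h := ret_finset c.rfin.toFinset R c.al (FL R)
  have e : (⨅ a ∈ c.rfin.toFinset, (FL R).map (c.al a).toMonoidHom) ⊓ FL R =
      (DS j H R).comap j := by
    ext f
    constructor
    · rintro ⟨h1, h2⟩
      show j f ∈ DS j H R
      intro h hh
      refine Cx.conj_r hR c ?_ hh
      intro a ha
      have h3 := (Subgroup.mem_iInf.1 ((Subgroup.mem_iInf.1 h1) a)) (c.rfin.mem_toFinset.2 ha)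
      obtain ⟨f', hf', e⟩ := h3
      have e' : c.ph (a⁻¹ * j f' * a) = f := e
      have h4 : a⁻¹ * j f' * a ∈ j.range := by
        have := c.conj a⁻¹ (c.j_mem f')
        rwa [inv_inv] at this
      have e2 : a * j f * a⁻¹ = j f' := by
        rw [← e', c.j_ph_mem h4]
        group
      rw [e2]
      exact c.mem_FS.2 hf'
    · intro hf
      have hf' : j f ∈ DS j H R := hf
      refine ⟨?_, c.mem_FS.1 (DS_le_FS hf')⟩
      refine Subgroup.mem_iInf.2 fun a => Subgroup.mem_iInf.2 fun ha => ?_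
      obtain ⟨g, rfl⟩ := c.rfin.mem_toFinset.1 ha
      have h1 := hf' (r g) (c.rH g)
      obtain ⟨f', hf1, hf2⟩ := h1
      refine ⟨f', hf1, ?_⟩
      show c.ph ((r g)⁻¹ * j f' * r g) = f
      rw [hf2]
      have : (r g)⁻¹ * (r g * j f * (r g)⁻¹) * r g = j f := by group
      rw [this, c.ph_j]
  rwa [e] at h

theorem Cx.fg_DS (c : Cx G X j H r) {S T : Set X} (hT : T.Finite)
    (hR : ∀ h ∈ H, h ∈ j.range → h ∈ FS j (S ∪ T)) (hcl : FS j S ≤ DS j H S) :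
    ∃ Y : Finset G, (∀ y ∈ Y, y ∈ DS j H (S ∪ T)) ∧
      ∀ d ∈ DS j H (S ∪ T), d ∈ Subgroup.closure ((FS j S : Set G) ∪ Y) := by
  classical
  obtain ⟨Y, h1, h2⟩ := fg_over hT (c.ret_DS hR) (by
    intro f hf
    show j f ∈ DS j H (S ∪ T)
    exact DS_mono Set.subset_union_left (hcl (c.mem_FS.2 hf)))
  refine ⟨Y.image j, ?_, ?_⟩
  · intro y hy
    obtain ⟨f, hf, rfl⟩ := Finset.mem_image.1 hy
    exact h1 f hf
  · intro d hd
    obtain ⟨f, rfl⟩ := FS_le (DS_le_FS hd)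
    have h3 := Subgroup.mem_map_of_mem j (h2 f hd)
    rw [MonoidHom.map_closure, Set.image_union] at h3
    rw [Finset.coe_image]
    exact h3

theorem Cx.step [DecidableEq X] {M : Type} [Group M] (c : Cx G X j H r) (π : G →* M)
    {S T T' : Set X} (hT' : T'.Finite) (hTT : T ⊆ T')
    (hR : ∀ h ∈ H, h ∈ j.range → h ∈ FS j (S ∪ T)) (hcl : FS j S ≤ DS j H S) (f : G → M)
    (hf : PHom (LS j H (S ∪ T)) f) (hg : Good π (LS j H (S ∪ T)) f) :
    ∃ f' : G → M, PHom (LS j H (S ∪ T')) f' ∧ Good π (LS j H (S ∪ T')) f' ∧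
      ∀ l ∈ LS j H (S ∪ T), f' l = f l := by
  classical
  have hsub : S ∪ T ⊆ S ∪ T' := Set.union_subset_union_right S hTT
  have hR' : ∀ h ∈ H, h ∈ j.range → h ∈ FS j (S ∪ T') := fun h hh hN => FS_mono hsub (hR h hh hN)
  obtain ⟨Y, hY1, hY2⟩ := c.fg_DS hT' hR' hcl
  choose K hK using c.Wl_fin
  set Y2 : Finset G := Y ∪ Y.image (fun y => y⁻¹) with hY2def
  refine estep_sub π (LS_mono hsub) Y (fun y hy => DS_le_LS (hY1 y hy)) ?_ ?_ (∑ y ∈ Y2, K y) ?_ f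
    hf hg
  · rintro _ ⟨h, hh, d, hd, rfl⟩
    refine Subgroup.mul_mem _ (Subgroup.subset_closure (Or.inl (H_le_LS hh))) ?_
    refine (Subgroup.closure_mono ?_) (hY2 d hd)
    refine Set.union_subset_union_left _ fun x hx => ?_
    exact DS_le_LS (DS_mono Set.subset_union_left (hcl hx))
  · intro g _ hg
    exact c.mal_fin hR hg
  · intro g _ hg
    obtain ⟨k, p, x, hx, hk⟩ := c.sep hR hg
    refine ⟨{w | k * w ∈ c.Wl p x}, ?_, hk, ?_⟩
    · intro w l hl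
      show k * (w * l) ∈ c.Wl p x ↔ k * w ∈ c.Wl p x
      rw [← mul_assoc]
      exact c.Wl_inv hR hx p _ hl
    · intro y hy
      obtain ⟨h1, h2⟩ := hK y p x k
      refine ⟨h1, h2.trans ?_⟩
      refine Finset.single_le_sum (f := K) (fun _ _ => Nat.zero_le _) ?_
      rw [hY2def, Finset.mem_union, Finset.mem_image]
      rcases hy with hy | hy
      · exact Or.inl hy
      · exact Or.inr ⟨y⁻¹, hy, inv_inv y⟩

end fg

section dir

variable {G M : Type} [Group G] [Group M]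

/-- directed unions -/
theorem dir_union {ι : Type} [Nonempty ι] (π : G →* M) (L : ι → Subgroup G) (f : ι → G → M)
    (hdir : ∀ i k, ∃ l, L i ≤ L l ∧ L k ≤ L l ∧ (∀ x ∈ L i, f l x = f i x) ∧
      ∀ x ∈ L k, f l x = f k x) (hf : ∀ i, PHom (L i) (f i)) (hg : ∀ i, Good π (L i) (f i))
    (L' : Subgroup G) (hL' : ∀ g, g ∈ L' → ∃ i, g ∈ L i) :
    ∃ f' : G → M, PHom L' f' ∧ Good π L' f' ∧ ∀ i, ∀ x ∈ L i, f' x = f i x := by
  classical
  have hc : ∀ i k x, x ∈ L i → x ∈ L k → f i x = f k x := by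
    intro i k x hi hk
    obtain ⟨l, -, -, h1, h2⟩ := hdir i k
    rw [← h1 x hi, h2 x hk]
  let f' : G → M := fun x => if h : ∃ i, x ∈ L i then f h.choose x else 1
  have hf' : ∀ i x, x ∈ L i → f' x = f i x := by
    intro i x hx
    have h : ∃ i, x ∈ L i := ⟨i, hx⟩
    show (if h : ∃ i, x ∈ L i then f h.choose x else 1) = f i x
    rw [dif_pos h]
    exact hc _ _ _ h.choose_spec hx
  refine ⟨f', ?_, ?_, fun i x hx => hf' i x hx⟩
  · intro a ha b hb
    obtain ⟨i, hi⟩ := hL' a ha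
    obtain ⟨k, hk⟩ := hL' b hb
    obtain ⟨l, h1, h2, -, -⟩ := hdir i k
    rw [hf' l a (h1 hi), hf' l b (h2 hk), hf' l _ ((L l).mul_mem (h1 hi) (h2 hk)),
      hf l a (h1 hi) b (h2 hk)]
  · intro U hU hUL
    have key : ∀ s : Set G, s.Finite → s ⊆ (U : Set G) → ∃ i, s ⊆ (L i : Set G) := by
      intro s hs
      induction s, hs using Set.Finite.induction_on with
      | empty =>
        intro _
        obtain ⟨i⟩ := ‹Nonempty ι›
        exact ⟨i, Set.empty_subset _⟩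
      | @insert a s _ _ ih =>
        intro h
        obtain ⟨i, hi⟩ := ih ((Set.subset_insert a s).trans h)
        obtain ⟨k, hk⟩ := hL' a (hUL (h (Set.mem_insert a s)))
        obtain ⟨l, h1, h2, -, -⟩ := hdir i k
        refine ⟨l, ?_⟩
        rintro x (rfl | hx)
        · exact h2 hk
        · exact h1 (hi hx)
    obtain ⟨i, hi⟩ := key U hU subset_rfl
    obtain ⟨m, hm⟩ := hg i U hU hi
    refine ⟨m, fun u hu => ?_⟩
    rw [hf' i u (hi hu)]
    exact hm u hu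

end dir

section clo

variable {G X : Type} [Group G] {j : FreeGroup X →* G} {H : Subgroup G} {r : G → G}

theorem Cx.exists_cl (c : Cx G X j H r) {S T : Set X} (hT : T.Finite)
    (hR : ∀ h ∈ H, h ∈ j.range → h ∈ FS j (S ∪ T)) (hcl : FS j S ≤ DS j H S) :
    ∃ T' : Set X, T'.Finite ∧ T ⊆ T' ∧ FS j (S ∪ T) ≤ DS j H (S ∪ T') := by
  choose U hU1 hU2 using fun f : FreeGroup X => exists_supp f
  set T' : Set X := T ∪ ⋃ t ∈ T, ⋃ a ∈ Set.range r, U (c.ph (a * j (of t) * a⁻¹)) with hT'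
  have hfin : T'.Finite := hT.union (Set.Finite.biUnion hT fun t _ =>
    Set.Finite.biUnion c.rfin fun a _ => hU1 _)
  have hsub : S ∪ T ⊆ S ∪ T' := Set.union_subset_union_right S Set.subset_union_left
  have hR' : ∀ h ∈ H, h ∈ j.range → h ∈ FS j (S ∪ T') := fun h hh hN => FS_mono hsub (hR h hh hN)
  refine ⟨T', hfin, Set.subset_union_left, ?_⟩
  rintro _ ⟨f, hf, rfl⟩
  show f ∈ (DS j H (S ∪ T')).comap j
  revert f
  show FL (S ∪ T) ≤ (DS j H (S ∪ T')).comap j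
  unfold FL
  rw [Subgroup.closure_le]
  rintro _ ⟨t, ht | ht, rfl⟩
  · show j (of t) ∈ DS j H (S ∪ T')
    refine DS_mono Set.subset_union_left (hcl (c.mem_FS.2 ?_))
    exact Subgroup.subset_closure ⟨t, ht, rfl⟩
  · show j (of t) ∈ DS j H (S ∪ T')
    intro h hh
    refine Cx.conj_r hR' c ?_ hh
    intro a ha
    rw [← c.j_ph_mem (c.conj a (c.j_mem (of t)))]
    refine c.mem_FS.2 (FL_mono ?_ (hU2 (c.ph (a * j (of t) * a⁻¹))))
    refine Set.Subset.trans ?_ Set.subset_union_right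
    refine Set.Subset.trans ?_ Set.subset_union_right
    exact Set.subset_biUnion_of_mem (u := fun t => ⋃ a ∈ Set.range r, U (c.ph (a * j (of t) * a⁻¹)))
      ht |>.trans' (Set.subset_biUnion_of_mem (u := fun a => U (c.ph (a * j (of t) * a⁻¹))) ha)

theorem FS_dir {ι : Type} [Nonempty ι] (S : ι → Set X) (hdir : ∀ i k, ∃ l, S i ⊆ S l ∧ S k ⊆ S l)
    {g : G} (hg : g ∈ FS j (⋃ i, S i)) : ∃ i, g ∈ FS j (S i) := by
  obtain ⟨f, hf, rfl⟩ := hg
  have key : ∃ i, f ∈ FL (S i) := by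
    have hf' : f ∈ Subgroup.closure (of '' ⋃ i, S i) := hf
    clear hf
    induction hf' using Subgroup.closure_induction with
    | mem f hf =>
      obtain ⟨x, hx, rfl⟩ := hf
      obtain ⟨i, hi⟩ := Set.mem_iUnion.1 hx
      exact ⟨i, Subgroup.subset_closure ⟨x, hi, rfl⟩⟩
    | one =>
      obtain ⟨i⟩ := ‹Nonempty ι›
      exact ⟨i, (FL (S i)).one_mem⟩
    | mul a b ha hb iha ihb =>
      obtain ⟨i, hi⟩ := iha
      obtain ⟨k, hk⟩ := ihb
      obtain ⟨l, h1, h2⟩ := hdir i k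
      exact ⟨l, (FL (S l)).mul_mem (FL_mono h1 hi) (FL_mono h2 hk)⟩
    | inv a ha iha =>
      obtain ⟨i, hi⟩ := iha
      exact ⟨i, (FL (S i)).inv_mem hi⟩
  obtain ⟨i, hi⟩ := key
  exact ⟨i, f, hi, rfl⟩

theorem Cx.close [DecidableEq X] {M : Type} [Group M] (c : Cx G X j H r) (π : G →* M)
    {S T : Set X} (hT : T.Finite)
    (hR : ∀ h ∈ H, h ∈ j.range → h ∈ FS j (S ∪ T)) (hcl : FS j S ≤ DS j H S) (f : G → M)
    (hf : PHom (LS j H (S ∪ T)) f) (hg : Good π (LS j H (S ∪ T)) f) :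
    ∃ (S' : Set X) (f' : G → M), S ∪ T ⊆ S' ∧ FS j S' ≤ DS j H S' ∧ PHom (LS j H S') f' ∧
      Good π (LS j H S') f' ∧ ∀ l ∈ LS j H (S ∪ T), f' l = f l := by
  classical
  let St := {p : Set X × (G → M) // p.1.Finite ∧ T ⊆ p.1 ∧ PHom (LS j H (S ∪ p.1)) p.2 ∧
    Good π (LS j H (S ∪ p.1)) p.2}
  have hnext : ∀ p : St, ∃ q : St, p.1.1 ⊆ q.1.1 ∧ FS j (S ∪ p.1.1) ≤ DS j H (S ∪ q.1.1) ∧
      ∀ l ∈ LS j H (S ∪ p.1.1), q.1.2 l = p.1.2 l := by
    rintro ⟨⟨T1, f1⟩, h1, h2, h3, h4⟩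
    have hR1 : ∀ h ∈ H, h ∈ j.range → h ∈ FS j (S ∪ T1) := fun h hh hN =>
      FS_mono (Set.union_subset_union_right S h2) (hR h hh hN)
    obtain ⟨T2, g1, g2, g3⟩ := c.exists_cl h1 hR1 hcl
    obtain ⟨f2, k1, k2, k3⟩ := c.step π g1 g2 hR1 hcl f1 h3 h4
    exact ⟨⟨⟨T2, f2⟩, g1, h2.trans g2, k1, k2⟩, g2, g3, k3⟩
  choose nx hn1 hn2 hn3 using hnext
  let s : ℕ → St := fun n => Nat.rec ⟨⟨T, f⟩, hT, subset_rfl, hf, hg⟩ (fun _ p => nx p) n
  have hs0 : s 0 = ⟨⟨T, f⟩, hT, subset_rfl, hf, hg⟩ := rfl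
  have hs : ∀ n, s (n + 1) = nx (s n) := fun n => rfl
  have hmono : ∀ m n, m ≤ n → (s m).1.1 ⊆ (s n).1.1 ∧
      ∀ l ∈ LS j H (S ∪ (s m).1.1), (s n).1.2 l = (s m).1.2 l := by
    intro m n hmn
    induction n, hmn using Nat.le_induction with
    | base => exact ⟨subset_rfl, fun _ _ => rfl⟩
    | succ n _ ih =>
      rw [hs]
      refine ⟨ih.1.trans (hn1 _), fun l hl => ?_⟩
      rw [hn3 _ l (LS_mono (Set.union_subset_union_right S ih.1) hl), ih.2 l hl]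
  have hsubs : ∀ m n, m ≤ n → S ∪ (s m).1.1 ⊆ S ∪ (s n).1.1 := fun m n h =>
    Set.union_subset_union_right S (hmono m n h).1
  set S' : Set X := ⋃ n, (S ∪ (s n).1.1) with hS'
  have hle : ∀ n, S ∪ (s n).1.1 ⊆ S' := fun n => Set.subset_iUnion (fun n => S ∪ (s n).1.1) n
  have hFD : ∀ g ∈ FS j S', ∃ n, g ∈ DS j H (S ∪ (s n).1.1) := by
    intro g hg
    obtain ⟨n, hn⟩ := FS_dir (fun n => S ∪ (s n).1.1)
      (fun i k => ⟨max i k, hsubs _ _ (le_max_left _ _), hsubs _ _ (le_max_right _ _)⟩) hg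
    refine ⟨n + 1, ?_⟩
    rw [hs]
    exact hn2 _ hn
  have hcl' : FS j S' ≤ DS j H S' := by
    intro g hg
    obtain ⟨n, hn⟩ := hFD g hg
    exact DS_mono (hle n) hn
  obtain ⟨f', h1, h2, h3⟩ := dir_union π (fun n => LS j H (S ∪ (s n).1.1)) (fun n => (s n).1.2)
    (fun i k => ⟨max i k, LS_mono (hsubs _ _ (le_max_left _ _)),
      LS_mono (hsubs _ _ (le_max_right _ _)), (hmono _ _ (le_max_left _ _)).2,
      (hmono _ _ (le_max_right _ _)).2⟩) (fun n => (s n).2.2.2.1) (fun n => (s n).2.2.2.2)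
    (LS j H S') (by
      rintro _ ⟨h, hh, d, hd, rfl⟩
      obtain ⟨n, hn⟩ := hFD d (DS_le_FS hd)
      exact ⟨n, h, hh, d, hn, rfl⟩)
  exact ⟨S', f', hle 0, hcl', h1, h2, h3 0⟩

/-- extension to the whole group -/
theorem Cx.extend_all [DecidableEq X] {M : Type} [Group M] (c : Cx G X j H r) (π : G →* M)
    {T0 : Set X} (hT0 : T0.Finite) (hR : ∀ h ∈ H, h ∈ j.range → h ∈ FS j T0) (f0 : G → M)
    (hf : PHom (LS j H T0) f0) (hg : Good π (LS j H T0) f0) :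
    ∃ ψ : G →* M, ∀ l ∈ LS j H T0, ψ l = f0 l := by
  classical
  have he : FS j (∅ : Set X) ≤ DS j H (∅ : Set X) := by
    rintro _ ⟨f, hf, rfl⟩
    have : f = 1 := by
      have hf' : f ∈ Subgroup.closure (of '' (∅ : Set X)) := hf
      rwa [Set.image_empty, Subgroup.closure_empty, Subgroup.mem_bot] at hf'
    rw [this, map_one]
    exact (DS j H ∅).one_mem
  have e0 : (∅ : Set X) ∪ T0 = T0 := Set.empty_union T0
  obtain ⟨S1, f1, a1, a2, a3, a4, a5⟩ := c.close π (S := ∅) hT0 (by rwa [e0]) he f0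
    (by rwa [e0]) (by rwa [e0])
  rw [e0] at a1 a5
  let St := {p : Set X × (G → M) // T0 ⊆ p.1 ∧ FS j p.1 ≤ DS j H p.1 ∧ PHom (LS j H p.1) p.2 ∧
    Good π (LS j H p.1) p.2 ∧ ∀ l ∈ LS j H T0, p.2 l = f0 l}
  let le : St → St → Prop := fun p q => p.1.1 ⊆ q.1.1 ∧ ∀ l ∈ LS j H p.1.1, q.1.2 l = p.1.2 l
  let p1 : St := ⟨⟨S1, f1⟩, a1, a2, a3, a4, a5⟩
  have htr : ∀ {a b d : St}, le a b → le b d → le a d := by
    rintro a b d ⟨h1, h2⟩ ⟨h3, h4⟩
    exact ⟨h1.trans h3, fun l hl => by rw [h4 l (LS_mono h1 hl), h2 l hl]⟩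
  obtain ⟨p, hp⟩ := exists_maximal_of_chains_bounded (r := le) (by
    intro C hC
    by_cases hne : C.Nonempty
    · have : Nonempty C := hne.to_subtype
      have htot : ∀ i k : C, ∃ l : C, le i l ∧ le k l := by
        intro i k
        by_cases h : i = k
        · subst h
          exact ⟨i, ⟨subset_rfl, fun _ _ => rfl⟩, ⟨subset_rfl, fun _ _ => rfl⟩⟩
        · rcases hC i.2 k.2 (fun e => h (Subtype.ext e)) with h' | h'
          · exact ⟨k, h', ⟨subset_rfl, fun _ _ => rfl⟩⟩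
          · exact ⟨i, ⟨subset_rfl, fun _ _ => rfl⟩, h'⟩
      set S' : Set X := ⋃ i : C, i.1.1.1 with hS'
      have hle : ∀ i : C, i.1.1.1 ⊆ S' := fun i => Set.subset_iUnion (fun i : C => i.1.1.1) i
      have hFD : ∀ g ∈ FS j S', ∃ i : C, g ∈ DS j H i.1.1.1 := by
        intro g hg
        obtain ⟨i, hi⟩ := FS_dir (fun i : C => i.1.1.1) (fun i k => by
          obtain ⟨l, h1, h2⟩ := htot i k
          exact ⟨l, h1.1, h2.1⟩) hg
        exact ⟨i, i.1.2.2.1 hi⟩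
      have hcl' : FS j S' ≤ DS j H S' := by
        intro g hg
        obtain ⟨n, hn⟩ := hFD g hg
        exact DS_mono (hle n) hn
      obtain ⟨f', h1, h2, h3⟩ := dir_union π (fun i : C => LS j H i.1.1.1)
        (fun i : C => i.1.1.2) (fun i k => by
          obtain ⟨l, h1, h2⟩ := htot i k
          exact ⟨l, LS_mono h1.1, LS_mono h2.1, h1.2, h2.2⟩) (fun i => i.1.2.2.2.1)
        (fun i => i.1.2.2.2.2.1) (LS j H S') (by
          rintro _ ⟨h, hh, d, hd, rfl⟩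
          obtain ⟨n, hn⟩ := hFD d (DS_le_FS hd)
          exact ⟨n, h, hh, d, hn, rfl⟩)
      obtain ⟨q, hq⟩ := hne
      refine ⟨⟨⟨S', f'⟩, q.2.1.trans (hle ⟨q, hq⟩), hcl', h1, h2, ?_⟩, ?_⟩
      · intro l hl
        show f' l = f0 l
        rw [h3 ⟨q, hq⟩ l (LS_mono q.2.1 hl)]
        exact q.2.2.2.2.2 l hl
      · intro a ha
        exact ⟨hle ⟨a, ha⟩, h3 ⟨a, ha⟩⟩
    · exact ⟨p1, fun a ha => absurd ⟨a, ha⟩ hne⟩) htr
  obtain ⟨⟨S, f⟩, b1, b2, b3, b4, b5⟩ := p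
  have hRS : ∀ h ∈ H, h ∈ j.range → h ∈ FS j S := fun h hh hN => FS_mono b1 (hR h hh hN)
  have hall : ∀ x : X, x ∈ S := by
    intro x
    have e1 : S ∪ ∅ = S := Set.union_empty S
    obtain ⟨f2, k1, k2, k3⟩ := c.step π (S := S) (T := ∅) (T' := {x}) (Set.finite_singleton x)
      (Set.empty_subset _) (by rwa [e1]) b2 f (by rwa [e1]) (by rwa [e1])
    rw [e1] at k3
    obtain ⟨S3, f3, m1, m2, m3, m4, m5⟩ := c.close π (S := S) (T := {x}) (Set.finite_singleton x)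
      (fun h hh hN => FS_mono Set.subset_union_left (hRS h hh hN)) b2 f2 k1 k2
    have hSS3 : S ⊆ S3 := Set.subset_union_left.trans m1
    have h5 := hp ⟨⟨S3, f3⟩, b1.trans hSS3, m2, m3, m4, fun l hl => by
      show f3 l = f0 l
      rw [m5 l (LS_mono (b1.trans Set.subset_union_left) hl), k3 l (LS_mono b1 hl)]
      exact b5 l hl⟩ ⟨hSS3, fun l hl => by
        show f3 l = f l
        rw [m5 l (LS_mono Set.subset_union_left hl), k3 l hl]⟩
    exact h5.1 (m1 (Or.inr rfl))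
  have hSu : S = Set.univ := Set.eq_univ_of_forall hall
  have hFL : ∀ f, f ∈ FL S := by
    intro f
    obtain ⟨T, -, hT⟩ := exists_supp f
    rw [hSu]
    exact FL_mono (Set.subset_univ T) hT
  have htop : ∀ g, g ∈ LS j H S := by
    intro g
    refine ⟨r g, c.rH g, (r g)⁻¹ * g, ?_, (mul_inv_cancel_left _ _).symm⟩
    intro h hh
    have h4 : (r g)⁻¹ * g ∈ j.range := by
      have e : (r g)⁻¹ * g = (r g)⁻¹ * (g * (r g)⁻¹) * (r g)⁻¹⁻¹ := by group
      rw [e]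
      exact c.conj _ (c.rN g)
    obtain ⟨v, hv⟩ := c.conj h h4
    rw [← hv]
    exact c.mem_FS.2 (hFL v)
  refine ⟨MonoidHom.mk' f fun a b => b3 a (htop a) b (htop b), fun l hl => b5 l hl⟩

end clo

end Pool.Agent.R647
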