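import Pool.Agent.R647.Tree2

/-!
# Extension of homomorphisms from a vertex stabiliser of a tree
-/

set_option autoImplicit false

namespace Pool.Agent.R647

open Pool.Agent.H97R3.VR Pool.Agent.TH97.VR

section tel

variable {G V M : Type} [Group G] [MulAction G V] [Group M] {X : SimpleGraph V}

/-- equivariant frames on the edges at the base vertex -/
theorem exists_nu (v0 : V) (hG : ∀ (g : G) (x y : V), X.Adj x y → X.Adj (g • x) (g • y))
    (π : G →* M) (L : Subgroup G) (hL : ∀ g, g ∈ L ↔ g • v0 = v0) (ψ : L →* M)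
    (hψ : ∀ x, X.Adj v0 x → ∃ m : M, ∀ u : L, (u : G) • x = x → ψ u = m * π u * m⁻¹) :
    ∃ ν : V → M, ∀ (l : L) (x : V), X.Adj v0 x → ν ((l : G) • x) * ψ l = π l * ν x := by
  classical
  choose m hm using fun x (h : X.Adj v0 x) => hψ x h
  let rp : V → V := fun x => (Quotient.mk (MulAction.orbitRel L V) x).out
  have hrp : ∀ x, ∃ l : L, l • rp x = x := by
    intro x
    have h1 : (MulAction.orbitRel L V) (rp x) x := Quotient.mk_out (s := MulAction.orbitRel L V) x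
    rw [MulAction.orbitRel_apply] at h1
    obtain ⟨l, hl⟩ := h1
    refine ⟨l⁻¹, ?_⟩
    have hl' : l • x = rp x := hl
    rw [← hl', inv_smul_smul]
  choose s hs using hrp
  have hrp2 : ∀ (l : L) (x : V), rp (l • x) = rp x := by
    intro l x
    have h1 : Quotient.mk (MulAction.orbitRel L V) (l • x) = Quotient.mk (MulAction.orbitRel L V) x := by
      apply Quotient.sound
      show (MulAction.orbitRel L V) (l • x) x
      rw [MulAction.orbitRel_apply]
      exact ⟨l, rfl⟩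
    show (Quotient.mk (MulAction.orbitRel L V) (l • x)).out = _
    rw [h1]
  have hadj : ∀ x, X.Adj v0 x → X.Adj v0 (rp x) := by
    intro x hx
    have h1 := hG ((s x : G))⁻¹ _ _ hx
    have h2 : ((s x : G))⁻¹ • v0 = v0 := (hL _).1 (s x)⁻¹.2
    have h3 : ((s x : G))⁻¹ • x = rp x := by
      have h4 : (s x : G) • rp x = x := hs x
      rw [inv_smul_eq_iff]
      exact h4.symm
    rwa [h2, h3] at h1
  let mm : V → M := fun x => if h : X.Adj v0 x then m x h else 1
  have hmm : ∀ x, X.Adj v0 x → ∀ u : L, (u : G) • x = x → ψ u = mm x * π u * (mm x)⁻¹ := by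
    intro x hx u hu
    show ψ u = (if h : X.Adj v0 x then m x h else 1) * π u * (if h : X.Adj v0 x then m x h else 1)⁻¹
    rw [dif_pos hx]
    exact hm x hx u hu
  refine ⟨fun x => π (s x) * (mm (rp x))⁻¹ * (ψ (s x))⁻¹, ?_⟩
  intro l x hx
  have e1 : rp ((l : G) • x) = rp x := hrp2 l x
  have hu : (((s ((l : G) • x))⁻¹ * l * s x : L) : G) • rp x = rp x := by
    have h1 : (s x : G) • rp x = x := hs x
    have h2 : (s ((l : G) • x) : G) • rp ((l : G) • x) = (l : G) • x := hs _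
    rw [e1] at h2
    push_cast
    rw [mul_smul, mul_smul, h1, inv_smul_eq_iff]
    exact h2.symm
  have h3 := hmm (rp x) (hadj x hx) _ hu
  have h4 : (mm (rp x))⁻¹ * ψ ((s ((l : G) • x))⁻¹ * l * s x) =
      π (((s ((l : G) • x))⁻¹ * l * s x : L) : G) * (mm (rp x))⁻¹ := by
    rw [h3]
    group
  show π (s ((l : G) • x)) * (mm (rp ((l : G) • x)))⁻¹ * (ψ (s ((l : G) • x)))⁻¹ * ψ l =
    π l * (π (s x) * (mm (rp x))⁻¹ * (ψ (s x))⁻¹)
  rw [e1]
  have h5 : (ψ (s ((l : G) • x)))⁻¹ * ψ l = ψ ((s ((l : G) • x))⁻¹ * l * s x) * (ψ (s x))⁻¹ := by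
    rw [map_mul, map_mul, map_inv]
    group
  have h6 : π (((s ((l : G) • x))⁻¹ * l * s x : L) : G) =
      (π (s ((l : G) • x)))⁻¹ * π l * π (s x) := by
    push_cast
    rw [map_mul, map_mul, map_inv]
  rw [mul_assoc _ (ψ (s ((l : G) • x)))⁻¹, h5, ← mul_assoc, mul_assoc (π (s ((l : G) • x))), h4, h6]
  group

/-- homomorphisms extend from a vertex stabiliser if their restrictions to the stabilisers of the
adjacent edges are conjugate to the restrictions of a fixed homomorphism of the group -/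
theorem tel (hX : IsMedian X) (hG : ∀ (g : G) (x y : V), X.Adj x y → X.Adj (g • x) (g • y))
    (hns : ∀ x y w z, ¬ Square X x y w z) (v0 : V) (π : G →* M)
    (L : Subgroup G) (hL : ∀ g, g ∈ L ↔ g • v0 = v0) (ψ : L →* M)
    (hψ : ∀ x, X.Adj v0 x → ∃ m : M, ∀ u : L, (u : G) • x = x → ψ u = m * π u * m⁻¹) :
    ∃ ψ' : G →* M, (∀ u : L, ψ' u = ψ u) ∧
      ∀ y, (¬ ∃ g : G, g • v0 = y) → ∃ m : M, ∀ u : G, u • y = y → ψ' u = m * π u * m⁻¹ := by
  classical
  obtain ⟨ν, hν⟩ := exists_nu v0 hG π L hL ψ hψ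
  let O : V → Prop := fun y => ∃ g : G, g • v0 = y
  have hO : ∀ (g : G) y, O (g • y) ↔ O y := by
    intro g y
    constructor
    · rintro ⟨h, hh⟩
      refine ⟨g⁻¹ * h, ?_⟩
      rw [mul_smul, hh, inv_smul_smul]
    · rintro ⟨h, hh⟩
      refine ⟨g * h, ?_⟩
      rw [mul_smul, hh]
  let s : V → G := fun y => if y = v0 then 1 else if h : O y then h.choose else 1
  have hs0 : s v0 = 1 := if_pos rfl
  have hs : ∀ y, O y → s y • v0 = y := by
    intro y hy
    show (if y = v0 then 1 else if h : O y then h.choose else 1) • v0 = y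
    by_cases h : y = v0
    · rw [if_pos h, one_smul, h]
    · rw [if_neg h, dif_pos hy]
      exact hy.choose_spec
  let ψe : G → M := fun g => if h : g ∈ L then ψ ⟨g, h⟩ else 1
  have hψe : ∀ g (h : g ∈ L), ψe g = ψ ⟨g, h⟩ := fun g h => dif_pos h
  have hψe2 : ∀ a ∈ L, ∀ b ∈ L, ψe (a * b) = ψe a * ψe b := by
    intro a ha b hb
    rw [hψe _ (L.mul_mem ha hb), hψe a ha, hψe b hb, ← map_mul]
    rfl
  have hν' : ∀ l ∈ L, ∀ x, X.Adj v0 x → ν (l • x) * ψe l = π l * ν x := by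
    intro l hl x hx
    rw [hψe l hl]
    exact hν ⟨l, hl⟩ x hx
  have hmem : ∀ g y, O y → (s (g • y))⁻¹ * g * s y ∈ L := by
    intro g y hy
    rw [hL]
    rw [mul_smul, mul_smul, hs y hy, inv_smul_eq_iff]
    exact (hs (g • y) ((hO g y).2 hy)).symm
  -- the cocycle
  let c : G → V → M := fun g y => if O y then ψe ((s (g • y))⁻¹ * g * s y) else π g
  have hcO : ∀ g y, O y → c g y = ψe ((s (g • y))⁻¹ * g * s y) := fun g y h => if_pos h
  have hcN : ∀ g y, ¬ O y → c g y = π g := fun g y h => if_neg h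
  have hcmul : ∀ g g' y, c (g * g') y = c g (g' • y) * c g' y := by
    intro g g' y
    by_cases hy : O y
    · rw [hcO _ y hy, hcO _ _ ((hO g' y).2 hy), hcO _ y hy,
        ← hψe2 _ (hmem g (g' • y) ((hO g' y).2 hy)) _ (hmem g' y hy)]
      congr 1
      rw [mul_smul]
      group
    · rw [hcN _ y hy, hcN _ _ (fun h => hy ((hO g' y).1 h)), hcN _ y hy, map_mul]
  -- the frames
  let n : V → V → M := fun y z => if O y then π (s y) * ν ((s y)⁻¹ • z) else 1
  have hnO : ∀ y z, O y → n y z = π (s y) * ν ((s y)⁻¹ • z) := fun y z h => if_pos h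
  have hnN : ∀ y z, ¬ O y → n y z = 1 := fun y z h => if_neg h
  have hn : ∀ g y z, X.Adj y z → n (g • y) (g • z) * c g y = π g * n y z := by
    intro g y z hyz
    by_cases hy : O y
    · rw [hnO _ _ ((hO g y).2 hy), hcO _ _ hy, hnO _ _ hy]
      have e1 : (s (g • y))⁻¹ • g • z = ((s (g • y))⁻¹ * g * s y) • (s y)⁻¹ • z := by
        rw [mul_smul, mul_smul, smul_inv_smul]
      have e2 : X.Adj v0 ((s y)⁻¹ • z) := by
        have := hG (s y)⁻¹ _ _ hyz
        rwa [inv_smul_eq_iff.2 (hs y hy).symm] at this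
      have e3 := hν' _ (hmem g y hy) _ e2
      rw [e1, mul_assoc, e3, map_mul, map_mul, map_inv]
      group
    · rw [hnN _ _ (fun h => hy ((hO g y).1 h)), hcN _ _ hy, hnN _ _ hy, one_mul, mul_one]
  let θ : V → V → M := fun y z => (n z y)⁻¹ * n y z
  have hθ : ∀ g y z, X.Adj y z → θ (g • y) (g • z) * c g y = c g z * θ y z := by
    intro g y z hyz
    show (n (g • z) (g • y))⁻¹ * n (g • y) (g • z) * c g y = c g z * ((n z y)⁻¹ * n y z)
    have h1 := hn g y z hyz
    have h2 := hn g z y hyz.symm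
    have h3 : (n (g • z) (g • y))⁻¹ = c g z * (n z y)⁻¹ * (π g)⁻¹ := by
      rw [inv_eq_iff_mul_eq_one, ← mul_assoc, ← mul_assoc, h2]
      group
    rw [mul_assoc, h1, h3]
    group
  obtain ⟨F, hF0, hF⟩ := exists_pot hX v0 θ (fun x y _ => by
    show (n x y)⁻¹ * n y x * ((n y x)⁻¹ * n x y) = 1
    group) (fun x y w z h => absurd h (hns x y w z))
  let ψ' : G → M := fun g => c g (g⁻¹ • v0) * F (g⁻¹ • v0)
  have key : ∀ g y, c g (g⁻¹ • y) * F (g⁻¹ • y) = F y * ψ' g := by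
    intro g y
    refine conn_ind hX.conn (fun y => c g (g⁻¹ • y) * F (g⁻¹ • y) = F y * ψ' g) v0 ?_ ?_ y
    · rw [hF0, one_mul]
    · intro x y hxy ih
      have h1 := hG g⁻¹ _ _ hxy
      have h2 := hθ g _ _ h1
      rw [smul_inv_smul, smul_inv_smul] at h2
      calc c g (g⁻¹ • y) * F (g⁻¹ • y)
          = (c g (g⁻¹ • y) * θ (g⁻¹ • x) (g⁻¹ • y)) * F (g⁻¹ • x) := by
            rw [hF _ _ h1, mul_assoc (c g (g⁻¹ • y))]
        _ = θ x y * (c g (g⁻¹ • x) * F (g⁻¹ • x)) := by rw [← h2, mul_assoc (θ x y)]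
        _ = F y * ψ' g := by rw [ih, hF _ _ hxy, mul_assoc (θ x y)]
  refine ⟨MonoidHom.mk' ψ' ?_, ?_, ?_⟩
  · intro a b
    have h1 : ψ' (a * b) = c a (a⁻¹ • v0) * (c b (b⁻¹ • a⁻¹ • v0) * F (b⁻¹ • a⁻¹ • v0)) := by
      show c (a * b) ((a * b)⁻¹ • v0) * F ((a * b)⁻¹ • v0) = _
      rw [hcmul, mul_inv_rev, mul_smul, smul_inv_smul, mul_assoc]
    rw [h1, key b, ← mul_assoc]
  · intro u
    show c u ((u : G)⁻¹ • v0) * F ((u : G)⁻¹ • v0) = ψ u
    have h1 : (u : G)⁻¹ • v0 = v0 := (hL _).1 (u⁻¹).2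
    rw [h1, hF0, mul_one, hcO _ _ ⟨1, one_smul G v0⟩]
    have h2 : (u : G) • v0 = v0 := (hL _).1 u.2
    rw [h2, hs0, inv_one, one_mul, mul_one, hψe _ u.2]
  · intro y hy
    refine ⟨(F y)⁻¹, fun u hu => ?_⟩
    have h1 := key u y
    rw [inv_smul_eq_iff.2 hu.symm, hcN _ _ hy] at h1
    show ψ' u = _
    rw [inv_inv, mul_assoc, h1]
    group

end tel

end Pool.Agent.R647
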