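import Pool.Agent.R647.Final2

/-!
# Virtually free groups of arbitrary rank are LR
-/

set_option autoImplicit false

namespace Pool.Agent.R647

theorem exists_cx {G X : Type} [Group G] (j : FreeGroup X →* G) (hj : Function.Injective j)
    (hn : j.range.Normal) (hfi : j.range.FiniteIndex) (H : Subgroup G)
    (hsurj : ∀ g : G, ∃ h ∈ H, g * h⁻¹ ∈ j.range) : ∃ r : G → G, Cx G X j H r := by
  classical
  let mkq : G →* G ⧸ j.range := QuotientGroup.mk' j.range
  have hmk : ∀ a b : G, mkq a = mkq b ↔ a * b⁻¹ ∈ j.range := by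
    intro a b
    rw [← QuotientGroup.eq_one_iff (N := j.range), QuotientGroup.mk_mul, QuotientGroup.mk_inv,
      mul_inv_eq_one]
    exact Iff.rfl
  have h1 : ∀ q : G ⧸ j.range, ∃ h ∈ H, mkq h = q := by
    intro q
    induction q using QuotientGroup.induction_on with
    | H g =>
    obtain ⟨h, hh, h2⟩ := hsurj g
    exact ⟨h, hh, ((hmk _ _).2 h2).symm⟩
  choose rr hrH hrq using h1
  let s : G ⧸ j.range → G := fun q => if q = 1 then 1 else rr q
  have hsH : ∀ q, s q ∈ H := by
    intro q
    show (if q = 1 then 1 else rr q) ∈ H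
    split_ifs
    · exact H.one_mem
    · exact hrH q
  have hsq : ∀ q, mkq (s q) = q := by
    intro q
    show mkq (if q = 1 then 1 else rr q) = q
    split_ifs with h
    · rw [map_one, h]
    · exact hrq q
  refine ⟨fun g => s (mkq g), hj, hn, fun g => hsH _, fun g => (hmk _ _).1 (hsq _).symm, ?_, ?_, ?_⟩
  · intro g g' h
    show s (mkq g) = s (mkq g')
    rw [(hmk _ _).2 h]
  · show s (mkq 1) = 1
    rw [map_one]
    exact if_pos rfl
  · have : Finite (G ⧸ j.range) := Subgroup.finite_quotient_of_finiteIndex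
    refine (Set.finite_range s).subset ?_
    rintro _ ⟨g, rfl⟩
    exact ⟨mkq g, rfl⟩

/-- in a group having a free subgroup of finite index, the finitely generated subgroups are
virtual retracts -/
theorem main_top (G : Type) [Group G] (hG : ∃ F : Subgroup G, F.FiniteIndex ∧ IsFreeGroup F)
    (H : Subgroup G) (hH : H.FG) : ∃ K : Subgroup G, K.FiniteIndex ∧ H ≤ K ∧
      ∃ ρ : K →* G, (∀ k : K, ρ k ∈ H) ∧ ∀ h : G, ∀ hk : h ∈ K, h ∈ H → ρ ⟨h, hk⟩ = h := by
  obtain ⟨F, hF1, hF2⟩ := hG
  -- the normal core is free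
  let N : Subgroup G := F.normalCore
  have hNn : N.Normal := F.normalCore_normal
  have hNfi : N.FiniteIndex := inferInstance
  have hNF : N ≤ F := F.normalCore_le
  have hfree : IsFreeGroup N := by
    have h1 : IsFreeGroup (N.subgroupOf F) := inferInstance
    exact IsFreeGroup.ofMulEquiv (Subgroup.subgroupOfEquivOfLe hNF)
  obtain ⟨X, ⟨b⟩⟩ := hfree.nonempty_basis
  -- the subgroup generated by `H` and the normal core
  let G' : Subgroup G := H ⊔ N
  have hHG : H ≤ G' := le_sup_left
  have hNG : N ≤ G' := le_sup_right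
  have hG'fi : G'.FiniteIndex := Subgroup.finiteIndex_of_le hNG
  let j : FreeGroup X →* G' := (Subgroup.inclusion hNG).comp b.repr.symm.toMonoidHom
  have hj : Function.Injective j :=
    (Subgroup.inclusion_injective hNG).comp b.repr.symm.injective
  have hjr : j.range = N.subgroupOf G' := by
    ext g
    constructor
    · rintro ⟨f, rfl⟩
      exact Subgroup.mem_subgroupOf.2 (b.repr.symm f).2
    · intro hg
      refine ⟨b.repr ⟨(g : G), Subgroup.mem_subgroupOf.1 hg⟩, ?_⟩
      apply Subtype.ext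
      show ((b.repr.symm (b.repr ⟨(g : G), Subgroup.mem_subgroupOf.1 hg⟩) : N) : G) = g
      rw [MulEquiv.symm_apply_apply]
  have hn : j.range.Normal := by
    rw [hjr]
    infer_instance
  have hfi : j.range.FiniteIndex := by
    rw [hjr]
    infer_instance
  let H' : Subgroup G' := H.subgroupOf G'
  have hH' : H'.FG := by
    have h1 : Group.FG H := (Group.fg_iff_subgroup_fg H).2 hH
    have h2 : Group.FG H' := by
      refine Group.fg_of_surjective (f := (Subgroup.subgroupOfEquivOfLe hHG).symm.toMonoidHom) ?_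
      exact (Subgroup.subgroupOfEquivOfLe hHG).symm.surjective
    exact (Group.fg_iff_subgroup_fg _).1 h2
  obtain ⟨r, c⟩ := exists_cx j hj hn hfi H' (by
    intro g
    have h1 : (g : G) ∈ N ⊔ H := by
      rw [sup_comm]
      exact g.2
    rw [← SetLike.mem_coe, Subgroup.normal_mul] at h1
    obtain ⟨n, hn1, h, hh, e⟩ := Set.mem_mul.1 h1
    refine ⟨⟨h, hHG hh⟩, Subgroup.mem_subgroupOf.2 hh, ?_⟩
    rw [hjr, Subgroup.mem_subgroupOf]
    show (g : G) * h⁻¹ ∈ N
    rw [← e, mul_inv_cancel_right]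
    exact hn1)
  obtain ⟨K', hK1, hK2, ρ', hρ1, hρ2⟩ := c.main hH'
  refine ⟨K'.map G'.subtype, ?_, ?_, G'.subtype.comp (ρ'.comp
    (K'.equivMapOfInjective G'.subtype G'.subtype_injective).symm.toMonoidHom), ?_, ?_⟩
  · constructor
    rw [Subgroup.index_map_subtype]
    exact mul_ne_zero hK1.index_ne_zero hG'fi.index_ne_zero
  · intro h hh
    exact ⟨⟨h, hHG hh⟩, hK2 (Subgroup.mem_subgroupOf.2 hh), rfl⟩
  · intro k
    exact Subgroup.mem_subgroupOf.1 (hρ1 _)
  · intro h hk hh
    have h1 : (⟨h, hHG hh⟩ : G') ∈ H' := Subgroup.mem_subgroupOf.2 hh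
    have e : (K'.equivMapOfInjective G'.subtype G'.subtype_injective).symm ⟨h, hk⟩ =
        ⟨⟨h, hHG hh⟩, hK2 h1⟩ := by
      rw [MulEquiv.symm_apply_eq]
      rfl
    show ((ρ' ((K'.equivMapOfInjective G'.subtype G'.subtype_injective).symm ⟨h, hk⟩) : G') : G) = h
    rw [e, hρ2 _ (hK2 h1) h1]

end Pool.Agent.R647
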