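import Pool.Agent.R647.Cut3
import Pool.Agent.TH97.VR.Act

/-!
# Trees dual to nested families of half spaces
-/

set_option autoImplicit false
set_option linter.style.haveILetI false

namespace Pool.Agent.R647

open Pool.Agent.H97R3.VR Pool.Agent.TH97.VR
open Pointwise

section tsys

variable {G P : Type} [Group G] [MulAction G P]

/-- an invariant family of half spaces, no two of which cross -/
structure TSys (G : Type) {P : Type} [Group G] [MulAction G P] (𝓗 : Set (Set P)) : Prop where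
  sys : HSys 𝓗
  nst : ∀ h ∈ 𝓗, ∀ k ∈ 𝓗, ¬ Crs h k
  inv : ∀ (g : G), ∀ h ∈ 𝓗, g • h ∈ 𝓗

/-- the action on the vertices of the dual graph -/
def gT {𝓗 : Set (Set P)} (S : TSys G 𝓗) (o : P) (g : G) (σ : Vt 𝓗 o) : Vt 𝓗 o :=
  ⟨g • σ.1, by
    refine ⟨?_, ?_, ?_, ?_⟩
    · rintro _ ⟨h, hh, rfl⟩
      exact S.inv g _ (σ.2.sub hh)
    · intro h hh
      rw [Set.mem_smul_set_iff_inv_smul_mem, Set.mem_smul_set_iff_inv_smul_mem,
        Set.smul_set_compl]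
      exact σ.2.alt _ (S.inv _ _ hh)
    · intro h hh k hk hsub
      rw [Set.mem_smul_set_iff_inv_smul_mem] at hh ⊢
      exact σ.2.up _ hh _ (S.inv _ _ hk) (Set.smul_set_mono hsub)
    · refine ((σ.2.fin.union (S.sys.fin o (g⁻¹ • o))).image (fun h => g • h)).subset ?_
      rintro _ ⟨⟨h, hh, rfl⟩, h1⟩
      refine ⟨h, ?_, rfl⟩
      by_cases h2 : o ∈ h
      · right
        refine ⟨σ.2.sub hh, h2, fun h3 => h1 ?_⟩
        show o ∈ g • h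
        rw [Set.mem_smul_set_iff_inv_smul_mem]
        exact h3
      · exact Or.inl ⟨hh, h2⟩⟩

/-- the action -/
@[reducible] def actT {𝓗 : Set (Set P)} (S : TSys G 𝓗) (o : P) : MulAction G (Vt 𝓗 o) where
  smul g σ := gT S o g σ
  one_smul σ := Subtype.ext (one_smul G σ.1)
  mul_smul g g' σ := Subtype.ext (mul_smul g g' σ.1)

theorem smulT {𝓗 : Set (Set P)} (S : TSys G 𝓗) (o : P) (g : G) (σ : Vt 𝓗 o) :
    letI := actT S o
    (g • σ).1 = g • σ.1 := rfl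

theorem smulT_pt {𝓗 : Set (Set P)} (S : TSys G 𝓗) (o : P) (g : G) (a : P) :
    letI := actT S o
    g • pt S.sys o a = pt S.sys o (g • a) := by
  letI := actT S o
  apply Subtype.ext
  rw [smulT S o]
  ext h
  rw [Set.mem_smul_set_iff_inv_smul_mem]
  constructor
  · rintro ⟨h1, h2⟩
    rw [Set.mem_smul_set_iff_inv_smul_mem, inv_inv] at h2
    have := S.inv g _ h1
    rw [smul_inv_smul] at this
    exact ⟨this, h2⟩
  · rintro ⟨h1, h2⟩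
    refine ⟨S.inv _ _ h1, ?_⟩
    rw [Set.mem_smul_set_iff_inv_smul_mem, inv_inv]
    exact h2

theorem adjT {𝓗 : Set (Set P)} (S : TSys G 𝓗) (o : P) (g : G) (σ τ : Vt 𝓗 o) :
    letI := actT S o
    (ZG S.sys o).Adj σ τ → (ZG S.sys o).Adj (g • σ) (g • τ) := by
  letI := actT S o
  intro h
  show DD (g • σ) (g • τ) = 1
  have e : DD (g • σ) (g • τ) = DD σ τ := by
    unfold DD
    rw [smulT S o, smulT S o, ← Set.smul_set_sdiff]
    exact Set.ncard_image_of_injective _ (MulAction.injective g)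
  rw [e]
  exact h

/-- two half spaces for which all four choices occur at vertices cross -/
theorem quad {𝓗 : Set (Set P)} (S : TSys G 𝓗) {o : P} {h k : Set P} (hh : h ∈ 𝓗) (hk : k ∈ 𝓗)
    {a b c d : Vt 𝓗 o} (a1 : h ∈ a.1) (a2 : k ∈ a.1) (b1 : h ∈ b.1) (b2 : k ∉ b.1)
    (c1 : h ∉ c.1) (c2 : k ∈ c.1) (d1 : h ∉ d.1) (d2 : k ∉ d.1) : False := by
  rcases not_crs.1 (S.nst h hh k hk) with e | e | e | e
  · exact not_of_mem a2 (a.2.up _ a1 _ (S.sys.compl _ hk) e)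
  · exact b2 (b.2.up _ b1 _ hk e)
  · exact not_of_mem c2 (c.2.up _ (mem_of_not hh c1) _ (S.sys.compl _ hk) e)
  · exact d2 (d.2.up _ (mem_of_not hh d1) _ hk e)

theorem treeT {𝓗 : Set (Set P)} (S : TSys G 𝓗) {o : P} (u v p m : Vt 𝓗 o)
    (h : Btw (ZG S.sys o) u v m) : Btw (ZG S.sys o) p u m ∨ Btw (ZG S.sys o) p v m := by
  rw [btw_iff] at h ⊢
  rw [btw_iff]
  by_contra hc
  push Not at hc
  obtain ⟨h1, h2⟩ := hc
  rw [Set.not_subset] at h1 h2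
  obtain ⟨a, ⟨a1, a2⟩, a3⟩ := h1
  obtain ⟨b, ⟨b1, b2⟩, b3⟩ := h2
  have a4 : a ∉ v.1 := fun e => a3 (h ⟨a2, e⟩)
  have b4 : b ∉ u.1 := fun e => b3 (h ⟨e, b2⟩)
  exact quad S (p.2.sub a1) (p.2.sub b1) a1 b1 a2 b4 a4 b2 a3 b3

theorem nosqT {𝓗 : Set (Set P)} (S : TSys G 𝓗) {o : P} (x y w z : Vt 𝓗 o) :
    ¬ Square (ZG S.sys o) x y w z := by
  intro hs
  have e1 := sq_lab S.sys hs
  have e2 := sq_lab S.sys hs.rev
  obtain ⟨h, h1, h1'⟩ := adj_lab S.sys hs.xy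
  obtain ⟨k, k1, k1'⟩ := adj_lab S.sys hs.zx.symm
  have g1 : h ∈ y.1 \ x.1 := by rw [h1]; rfl
  have g2 : h ∈ w.1 \ z.1 := by rw [← e1, h1]; rfl
  have f1 : k ∈ z.1 \ x.1 := by rw [k1]; rfl
  have f2 : k ∈ w.1 \ y.1 := by rw [← e2, k1]; rfl
  exact quad S (y.2.sub g1.1) (z.2.sub f1.1) g2.1 f2.1 g1.1 f2.2 g2.2 f1.1 g1.2 f1.2

end tsys

/-! ### subdivision -/

section subd

variable {G P : Type} [Group G] [MulAction G P] {𝓗 : Set (Set P)}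

/-- the inner of the two half spaces of the subdivision given by `E` -/
def j1 (𝓗 : Set (Set P)) (E : Set P) : Set (P ⊕ 𝓗) :=
  {x | (∃ a ∈ E, x = Sum.inl a) ∨ ∃ D : 𝓗, (D.1 ⊂ E ∨ D.1ᶜ ⊂ E) ∧ x = Sum.inr D}

/-- the outer of the two half spaces of the subdivision given by `E` -/
def j2 (𝓗 : Set (Set P)) (E : Set P) : Set (P ⊕ 𝓗) :=
  {x | (∃ a ∈ E, x = Sum.inl a) ∨ ∃ D : 𝓗, (D.1 ⊆ E ∨ D.1ᶜ ⊆ E) ∧ x = Sum.inr D}

theorem inl_j1 {E : Set P} {a : P} : (Sum.inl a : P ⊕ 𝓗) ∈ j1 𝓗 E ↔ a ∈ E := by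
  constructor
  · rintro (⟨b, hb, e⟩ | ⟨D, -, e⟩)
    · rw [Sum.inl.injEq] at e
      rw [e]
      exact hb
    · exact absurd e (by simp)
  · intro h
    exact Or.inl ⟨a, h, rfl⟩

theorem inl_j2 {E : Set P} {a : P} : (Sum.inl a : P ⊕ 𝓗) ∈ j2 𝓗 E ↔ a ∈ E := by
  constructor
  · rintro (⟨b, hb, e⟩ | ⟨D, -, e⟩)
    · rw [Sum.inl.injEq] at e
      rw [e]
      exact hb
    · exact absurd e (by simp)
  · intro h
    exact Or.inl ⟨a, h, rfl⟩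

theorem inr_j1 {E : Set P} {D : 𝓗} : (Sum.inr D : P ⊕ 𝓗) ∈ j1 𝓗 E ↔ (D.1 ⊂ E ∨ D.1ᶜ ⊂ E) := by
  constructor
  · rintro (⟨b, -, e⟩ | ⟨D', h, e⟩)
    · exact absurd e (by simp)
    · rw [Sum.inr.injEq] at e
      rw [e]
      exact h
  · intro h
    exact Or.inr ⟨D, h, rfl⟩

theorem inr_j2 {E : Set P} {D : 𝓗} : (Sum.inr D : P ⊕ 𝓗) ∈ j2 𝓗 E ↔ (D.1 ⊆ E ∨ D.1ᶜ ⊆ E) := by
  constructor
  · rintro (⟨b, -, e⟩ | ⟨D', h, e⟩)
    · exact absurd e (by simp)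
    · rw [Sum.inr.injEq] at e
      rw [e]
      exact h
  · intro h
    exact Or.inr ⟨D, h, rfl⟩

theorem j1_sub_j2 (E : Set P) : j1 𝓗 E ⊆ j2 𝓗 E := by
  rintro (a | D) h
  · exact inl_j2.2 (inl_j1.1 h)
  · rw [inr_j1] at h
    rw [inr_j2]
    exact h.imp (fun h => h.subset) fun h => h.subset

theorem j2_sub_j1 {E E' : Set P} (h : E ⊂ E') : j2 𝓗 E ⊆ j1 𝓗 E' := by
  rintro (a | D) h'
  · exact inl_j1.2 (h.subset (inl_j2.1 h'))
  · rw [inr_j2] at h'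
    rw [inr_j1]
    exact h'.imp (fun h' => lt_of_le_of_lt h' h) fun h' => lt_of_le_of_lt h' h

theorem j1_inj {E E' : Set P} (h : j1 𝓗 E = j1 𝓗 E') : E = E' := by
  ext a
  rw [← inl_j1 (𝓗 := 𝓗), h, inl_j1]

theorem j2_inj {E E' : Set P} (h : j2 𝓗 E = j2 𝓗 E') : E = E' := by
  ext a
  rw [← inl_j2 (𝓗 := 𝓗), h, inl_j2]

theorem j1_compl (S : TSys G 𝓗) {E : Set P} (hE : E ∈ 𝓗) : (j1 𝓗 E)ᶜ = j2 𝓗 Eᶜ := by
  ext x
  rcases x with a | D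
  · rw [Set.mem_compl_iff, inl_j1, inl_j2]
    rfl
  · rw [Set.mem_compl_iff, inr_j1, inr_j2]
    obtain ⟨D, hD⟩ := D
    obtain ⟨d, hd⟩ := S.sys.ne D hD
    obtain ⟨d', hd'⟩ := S.sys.ne Dᶜ (S.sys.compl D hD)
    show ¬ (D ⊂ E ∨ Dᶜ ⊂ E) ↔ (D ⊆ Eᶜ ∨ Dᶜ ⊆ Eᶜ)
    constructor
    · intro h
      push Not at h
      obtain ⟨h1, h2⟩ := h
      rcases not_crs.1 (S.nst D hD E hE) with e | e | e | e
      · exact Or.inl e
      · right
        by_cases h3 : E ⊆ D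
        · exact Set.compl_subset_compl.2 h3
        · exact absurd ⟨e, h3⟩ h1
      · exact Or.inr e
      · left
        by_cases h3 : E ⊆ Dᶜ
        · intro x hx hxE
          exact h3 hxE hx
        · exact absurd ⟨e, h3⟩ h2
    · rintro (h | h) (h' | h')
      · exact h hd (h'.subset hd)
      · exact h'.2 fun x hx hxD => h hxD hx
      · exact h'.2 (Set.compl_subset_compl.1 h)
      · exact h hd' (h'.subset hd')

theorem j2_compl (S : TSys G 𝓗) {E : Set P} (hE : E ∈ 𝓗) : (j2 𝓗 E)ᶜ = j1 𝓗 Eᶜ := by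
  have h := j1_compl S (S.sys.compl E hE)
  rw [compl_compl] at h
  rw [← h, compl_compl]

/-- the family of half spaces of the subdivision -/
def Hb (𝓗 : Set (Set P)) : Set (Set (P ⊕ 𝓗)) := {h | ∃ E ∈ 𝓗, h = j1 𝓗 E ∨ h = j2 𝓗 E}

/-- the action on the half spaces -/
@[reducible] def actH (S : TSys G 𝓗) : MulAction G 𝓗 where
  smul g D := ⟨g • D.1, S.inv g _ D.2⟩
  one_smul D := Subtype.ext (one_smul G D.1)
  mul_smul g g' D := Subtype.ext (mul_smul g g' D.1)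

/-- the action on points and half spaces -/
@[reducible] def actS (S : TSys G 𝓗) : MulAction G (P ⊕ 𝓗) where
  smul g x := Sum.map (fun a => g • a) (fun D => ⟨g • D.1, S.inv g _ D.2⟩) x
  one_smul x := by
    rcases x with a | D
    · exact congrArg Sum.inl (one_smul G a)
    · exact congrArg Sum.inr (Subtype.ext (one_smul G D.1))
  mul_smul g g' x := by
    rcases x with a | D
    · exact congrArg Sum.inl (mul_smul g g' a)
    · exact congrArg Sum.inr (Subtype.ext (mul_smul g g' D.1))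

theorem smul_inl (S : TSys G 𝓗) (g : G) (a : P) :
    letI := actS S
    g • (Sum.inl a : P ⊕ 𝓗) = Sum.inl (g • a) := rfl

theorem smul_inr (S : TSys G 𝓗) (g : G) (D : 𝓗) :
    letI := actS S
    g • (Sum.inr D : P ⊕ 𝓗) = Sum.inr ⟨g • D.1, S.inv g _ D.2⟩ := rfl

theorem ss_iff (g : G) (A B : Set P) : g⁻¹ • A ⊂ B ↔ A ⊂ g • B := by
  constructor
  · rintro ⟨h1, h2⟩
    refine ⟨Set.subset_smul_set_iff.2 h1, fun h3 => h2 ?_⟩
    rw [Set.subset_smul_set_iff, inv_inv]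
    exact h3
  · rintro ⟨h1, h2⟩
    refine ⟨Set.subset_smul_set_iff.1 h1, fun h3 => h2 ?_⟩
    rw [Set.subset_smul_set_iff, inv_inv] at h3
    exact h3

theorem smul_j1 (S : TSys G 𝓗) (g : G) (E : Set P) :
    letI := actS S
    g • j1 𝓗 E = j1 𝓗 (g • E) := by
  letI := actS S
  ext x
  rw [Set.mem_smul_set_iff_inv_smul_mem]
  rcases x with a | D
  · rw [smul_inl, inl_j1, inl_j1, Set.mem_smul_set_iff_inv_smul_mem]
  · rw [smul_inr, inr_j1, inr_j1]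
    show (g⁻¹ • D.1 ⊂ E ∨ (g⁻¹ • D.1)ᶜ ⊂ E) ↔ _
    rw [← Set.smul_set_compl, ss_iff, ss_iff]

theorem smul_j2 (S : TSys G 𝓗) (g : G) (E : Set P) :
    letI := actS S
    g • j2 𝓗 E = j2 𝓗 (g • E) := by
  letI := actS S
  ext x
  rw [Set.mem_smul_set_iff_inv_smul_mem]
  rcases x with a | D
  · rw [smul_inl, inl_j2, inl_j2, Set.mem_smul_set_iff_inv_smul_mem]
  · rw [smul_inr, inr_j2, inr_j2]
    show (g⁻¹ • D.1 ⊆ E ∨ (g⁻¹ • D.1)ᶜ ⊆ E) ↔ _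
    rw [← Set.smul_set_compl, Set.subset_smul_set_iff, Set.subset_smul_set_iff]

theorem nst_aux {E E' : Set P} (h : E ⊆ E') {A B : Set (P ⊕ 𝓗)} (hA : A = j1 𝓗 E ∨ A = j2 𝓗 E)
    (hB : B = j1 𝓗 E' ∨ B = j2 𝓗 E') : ¬ Crs A B := by
  have key : ∀ A B : Set (P ⊕ 𝓗), A ⊆ B ∨ B ⊆ A → ¬ Crs A B := by
    rintro A B (h | h) ⟨-, ⟨b, hb⟩, ⟨c, hc⟩, -⟩
    · exact hb.2 (h hb.1)
    · exact hc.1 (h hc.2)
  apply key
  by_cases e : E' ⊆ E
  · have : E = E' := Set.Subset.antisymm h e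
    subst this
    rcases hA with rfl | rfl <;> rcases hB with rfl | rfl
    · exact Or.inl subset_rfl
    · exact Or.inl (j1_sub_j2 E)
    · exact Or.inr (j1_sub_j2 E)
    · exact Or.inl subset_rfl
  · have h1 := j2_sub_j1 (𝓗 := 𝓗) (E := E) (E' := E') ⟨h, e⟩
    left
    rcases hA with rfl | rfl <;> rcases hB with rfl | rfl
    · exact (j1_sub_j2 E).trans h1
    · exact (j1_sub_j2 E).trans (h1.trans (j1_sub_j2 E'))
    · exact h1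
    · exact h1.trans (j1_sub_j2 E')

theorem Hb_compl_aux (S : TSys G 𝓗) {E : Set P} (hE : E ∈ 𝓗) {A : Set (P ⊕ 𝓗)}
    (hA : A = j1 𝓗 E ∨ A = j2 𝓗 E) : Aᶜ = j1 𝓗 Eᶜ ∨ Aᶜ = j2 𝓗 Eᶜ := by
  rcases hA with rfl | rfl
  · exact Or.inr (j1_compl S hE)
  · exact Or.inl (j2_compl S hE)

theorem Hb_nst (S : TSys G 𝓗) : ∀ h ∈ Hb 𝓗, ∀ k ∈ Hb 𝓗, ¬ Crs h k := by
  rintro A ⟨E, hE, hA⟩ B ⟨E', hE', hB⟩
  have hA' := Hb_compl_aux S hE hA
  have hB' := Hb_compl_aux S hE' hB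
  rcases not_crs.1 (S.nst E hE E' hE') with e | e | e | e
  · rw [← crs_compl_right]
    exact nst_aux e hA hB'
  · exact nst_aux e hA hB
  · rw [← crs_compl_right, ← crs_compl_left]
    exact nst_aux e hA' hB'
  · rw [← crs_compl_left]
    exact nst_aux e hA' hB

theorem Hb_sub {E : Set P} {A : Set (P ⊕ 𝓗)} (hA : A = j1 𝓗 E ∨ A = j2 𝓗 E) (a : P) :
    Sum.inl a ∈ A ↔ a ∈ E := by
  rcases hA with rfl | rfl
  · exact inl_j1
  · exact inl_j2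

theorem Hb_sys (S : TSys G 𝓗) : HSys (Hb 𝓗) := by
  have hc : ∀ h ∈ Hb 𝓗, hᶜ ∈ Hb 𝓗 := by
    rintro A ⟨E, hE, hA⟩
    exact ⟨Eᶜ, S.sys.compl E hE, Hb_compl_aux S hE hA⟩
  have hsym : ∀ a b : P ⊕ 𝓗, {h | h ∈ Hb 𝓗 ∧ a ∈ h ∧ b ∉ h}.Finite →
      {h | h ∈ Hb 𝓗 ∧ b ∈ h ∧ a ∉ h}.Finite := by
    intro a b h
    refine (h.image compl).subset ?_
    rintro A ⟨h1, h2, h3⟩
    exact ⟨Aᶜ, ⟨hc A h1, h3, fun h => h h2⟩, compl_compl A⟩
  have h0 : ∀ a b : P, {h | h ∈ Hb 𝓗 ∧ Sum.inl a ∈ h ∧ Sum.inl b ∉ h}.Finite := by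
    intro a b
    refine (((S.sys.fin a b).image (j1 𝓗)).union ((S.sys.fin a b).image (j2 𝓗))).subset ?_
    rintro A ⟨⟨E, hE, hA⟩, h1, h2⟩
    rw [Hb_sub hA] at h1 h2
    rcases hA with rfl | rfl
    · exact Or.inl ⟨E, ⟨hE, h1, h2⟩, rfl⟩
    · exact Or.inr ⟨E, ⟨hE, h1, h2⟩, rfl⟩
  have h1 : ∀ x : P ⊕ 𝓗, ∃ a : P, {h | h ∈ Hb 𝓗 ∧ x ∈ h ∧ Sum.inl a ∉ h}.Finite := by
    rintro (a | ⟨D, hD⟩)
    · exact ⟨a, h0 a a⟩
    · obtain ⟨a, ha⟩ := S.sys.ne D hD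
      obtain ⟨b, hb⟩ := S.sys.ne Dᶜ (S.sys.compl D hD)
      refine ⟨a, (h0 b a).subset ?_⟩
      rintro A ⟨⟨E, hE, hA⟩, h2, h3⟩
      refine ⟨⟨E, hE, hA⟩, ?_, h3⟩
      rw [Hb_sub hA] at h3 ⊢
      have h4 : Sum.inr ⟨D, hD⟩ ∈ j2 𝓗 E := by
        rcases hA with rfl | rfl
        · exact j1_sub_j2 E h2
        · exact h2
      rw [inr_j2] at h4
      rcases h4 with h4 | h4
      · exact absurd (h4 ha) h3
      · exact h4 hb
  refine ⟨hc, ?_, ?_⟩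
  · rintro A ⟨E, hE, hA⟩
    obtain ⟨a, ha⟩ := S.sys.ne E hE
    exact ⟨Sum.inl a, (Hb_sub hA a).2 ha⟩
  · intro x y
    obtain ⟨a, ha⟩ := h1 x
    obtain ⟨b, hb⟩ := h1 y
    refine ((ha.union (h0 a b)).union (hsym _ _ hb)).subset ?_
    rintro A ⟨g1, g2, g3⟩
    by_cases ga : Sum.inl a ∈ A
    · by_cases gb : Sum.inl b ∈ A
      · exact Or.inr ⟨g1, gb, g3⟩
      · exact Or.inl (Or.inr ⟨g1, ga, gb⟩)
    · exact Or.inl (Or.inl ⟨g1, g2, ga⟩)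

theorem Hb_tsys (S : TSys G 𝓗) :
    letI := actS S
    TSys G (Hb 𝓗) := by
  letI := actS S
  refine ⟨Hb_sys S, Hb_nst S, ?_⟩
  rintro g A ⟨E, hE, rfl | rfl⟩
  · exact ⟨g • E, S.inv g E hE, Or.inl (smul_j1 S g E)⟩
  · exact ⟨g • E, S.inv g E hE, Or.inr (smul_j2 S g E)⟩

/-- midpoints -/
def Mid {o : P ⊕ 𝓗} (x : Vt (Hb 𝓗) o) : Prop := ∃ D ∈ 𝓗, j2 𝓗 D ∈ x.1 ∧ j2 𝓗 Dᶜ ∈ x.1

theorem j_ne (S : TSys G 𝓗) {E E' : Set P} (hE : E ∈ 𝓗) (hE' : E' ∈ 𝓗) : j1 𝓗 E ≠ j2 𝓗 E' := by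
  intro h
  have e : E = E' := by
    ext a
    rw [← inl_j1 (𝓗 := 𝓗), h, inl_j2]
  subst e
  have h1 : (Sum.inr ⟨E, hE⟩ : P ⊕ 𝓗) ∈ j2 𝓗 E := inr_j2.2 (Or.inl subset_rfl)
  rw [← h, inr_j1] at h1
  obtain ⟨a, ha⟩ := S.sys.ne Eᶜ (S.sys.compl E hE)
  rcases h1 with h1 | h1
  · exact h1.2 subset_rfl
  · exact ha (h1.subset ha)

/-- an inner half space is exchanged at a midpoint -/
theorem mid_aux (S : TSys G 𝓗) {o : P ⊕ 𝓗} {x y : Vt (Hb 𝓗) o} {E : Set P} (hE : E ∈ 𝓗)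
    (h1 : y.1 \ x.1 = {j1 𝓗 E}) (h2 : x.1 \ y.1 = {(j1 𝓗 E)ᶜ}) : Mid x ∧ ¬ Mid y := by
  have S' := Hb_sys S
  have hy : j1 𝓗 E ∈ y.1 \ x.1 := by rw [h1]; rfl
  have hx : (j1 𝓗 E)ᶜ ∈ x.1 \ y.1 := by rw [h2]; rfl
  have hjE2 : j2 𝓗 E ∈ Hb 𝓗 := ⟨E, hE, Or.inr rfl⟩
  have hy2 : j2 𝓗 E ∈ y.1 := y.2.up _ hy.1 _ hjE2 (j1_sub_j2 E)
  have hx2 : j2 𝓗 E ∈ x.1 := by
    by_contra hc
    have : j2 𝓗 E ∈ y.1 \ x.1 := ⟨hy2, hc⟩
    rw [h1] at this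
    exact j_ne S hE hE (Set.mem_singleton_iff.1 this).symm
  refine ⟨⟨E, hE, hx2, ?_⟩, ?_⟩
  · rw [← j1_compl S hE]
    exact hx.1
  · rintro ⟨D, hD, hD1, hD2⟩
    have hDc := S.sys.compl D hD
    have key : ∀ D ∈ 𝓗, j2 𝓗 D ∈ y.1 → D ⊂ E → False := by
      intro D hD hDy hss
      have h3 : j2 𝓗 D ∈ x.1 := by
        by_contra hc
        have : j2 𝓗 D ∈ y.1 \ x.1 := ⟨hDy, hc⟩
        rw [h1] at this
        exact j_ne S hE hD (Set.mem_singleton_iff.1 this).symm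
      exact hy.2 (x.2.up _ h3 _ ⟨E, hE, Or.inl rfl⟩ (j2_sub_j1 hss))
    have key2 : ∀ D ∈ 𝓗, j2 𝓗 D ∈ y.1 → D ⊂ Eᶜ → False := by
      intro D hD hDy hss
      have h3 := y.2.up _ hDy _ ⟨Eᶜ, S.sys.compl E hE, Or.inl rfl⟩ (j2_sub_j1 hss)
      rw [← j2_compl S hE] at h3
      exact not_of_mem hy2 h3
    have hne1 : D ≠ Eᶜ := by
      rintro rfl
      rw [← j1_compl S hE] at hD1
      exact not_of_mem hy.1 hD1
    have hne2 : Dᶜ ≠ Eᶜ := by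
      intro e
      rw [e, ← j1_compl S hE] at hD2
      exact not_of_mem hy.1 hD2
    have hne3 : Dᶜ ≠ E := by
      intro e
      apply hne1
      rw [← e, compl_compl]
    have hne4 : D ≠ E := by
      intro e
      apply hne2
      rw [e]
    rcases not_crs.1 (S.nst D hD E hE) with e | e | e | e
    · exact key2 D hD hD1 (lt_of_le_of_ne e hne1)
    · exact key D hD hD1 (lt_of_le_of_ne e hne4)
    · exact key2 Dᶜ hDc hD2 (lt_of_le_of_ne e hne2)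
    · exact key Dᶜ hDc hD2 (lt_of_le_of_ne e hne3)

theorem mid_adj (S : TSys G 𝓗) {o : P ⊕ 𝓗} {x y : Vt (Hb 𝓗) o}
    (h : (ZG (Hb_sys S) o).Adj x y) : Mid x ↔ ¬ Mid y := by
  obtain ⟨k, h1, h2⟩ := adj_lab (Hb_sys S) h
  have hk : k ∈ y.1 \ x.1 := by rw [h1]; rfl
  obtain ⟨E, hE, rfl | rfl⟩ := y.2.sub hk.1
  · have := mid_aux S hE h1 h2
    tauto
  · have hEc := S.sys.compl E hE
    have e : (j2 𝓗 E)ᶜ = j1 𝓗 Eᶜ := j2_compl S hE
    have e' : j2 𝓗 E = (j1 𝓗 Eᶜ)ᶜ := by rw [← e, compl_compl]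
    rw [e] at h2
    rw [e'] at h1
    have := mid_aux S hEc h2 h1
    tauto

theorem mid_smul (S : TSys G 𝓗) {o : P ⊕ 𝓗} (g : G) (x : Vt (Hb 𝓗) o) :
    letI := actS S
    letI := actT (Hb_tsys S) o
    Mid x → Mid (g • x) := by
  letI := actS S
  letI := actT (Hb_tsys S) o
  rintro ⟨D, hD, h1, h2⟩
  refine ⟨g • D, S.inv g D hD, ?_, ?_⟩
  · rw [smulT (Hb_tsys S) o, ← smul_j2 S]
    exact Set.smul_mem_smul_set h1
  · rw [smulT (Hb_tsys S) o, ← Set.smul_set_compl, ← smul_j2 S]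
    exact Set.smul_mem_smul_set h2

theorem noadj (S : TSys G 𝓗) {o : P ⊕ 𝓗} (g : G) (x : Vt (Hb 𝓗) o) :
    letI := actS S
    letI := actT (Hb_tsys S) o
    ¬ (ZG (Hb_sys S) o).Adj x (g • x) := by
  letI := actS S
  letI := actT (Hb_tsys S) o
  intro h
  have h1 := mid_adj S h
  have h2 : Mid (g • x) → Mid x := by
    intro h3
    have h4 := mid_smul S g⁻¹ _ h3
    rwa [inv_smul_smul] at h4
  have h3 := mid_smul S g x
  tauto

end subd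

/-! ### the tree -/

/-- an action on a tree without inversions, in which no vertex is moved to an adjacent one -/
structure IsTr (G : Type) {V : Type} [Group G] [MulAction G V] (X : SimpleGraph V) : Prop where
  med : IsMedian X
  act : ∀ (g : G) (x y : V), X.Adj x y → X.Adj (g • x) (g • y)
  tree : ∀ u v p m : V, Btw X u v m → Btw X p u m ∨ Btw X p v m
  nosq : ∀ x y w z : V, ¬ Square X x y w z
  noadj : ∀ (g : G) (x : V), ¬ X.Adj x (g • x)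

section exi

variable {G P : Type} [Group G] [MulAction G P] {𝓗 : Set (Set P)}

/-- the tree dual to a nested family -/
theorem exists_tree (S : TSys G 𝓗) (o : P) : ∃ (V : Type) (_ : MulAction G V) (X : SimpleGraph V)
    (pp : P → V) (sd : V → Set P → Prop), IsTr G X ∧ (∀ (g : G) (a : P), g • pp a = pp (g • a)) ∧
    (∀ a b, pp a = pp b ↔ ∀ h ∈ 𝓗, (a ∈ h ↔ b ∈ h)) ∧
    (∀ x y, X.Adj x y → ∃ h ∈ 𝓗, ∀ g : G, g • x = x → g • y = y → g • h = h) ∧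
    (∀ a, ∀ h ∈ 𝓗, (sd (pp a) h ↔ a ∈ h)) ∧ (∀ (g : G) x h, sd (g • x) (g • h) ↔ sd x h) ∧
    (∀ x y, {h | h ∈ 𝓗 ∧ sd x h ∧ ¬ sd y h}.Finite) := by
  letI := actS S
  have S' := Hb_tsys S
  letI := actT (Hb_tsys S) (Sum.inl o)
  refine ⟨Vt (Hb 𝓗) (Sum.inl o), actT (Hb_tsys S) (Sum.inl o), ZG (Hb_sys S) (Sum.inl o),
    fun a => pt (Hb_sys S) (Sum.inl o) (Sum.inl a), fun x h => j1 𝓗 h ∈ x.1, ?_, ?_, ?_, ?_, ?_,
    ?_, ?_⟩
  · exact ⟨ZG_median _ _, fun g x y => adjT S' _ g x y, fun u v p m => treeT S' u v p m,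
      fun x y w z => nosqT S' x y w z, fun g x => noadj S g x⟩
  · intro g a
    exact smulT_pt S' _ g (Sum.inl a)
  · intro a b
    constructor
    · intro h k hk
      have h1 : ∀ c, j1 𝓗 k ∈ (pt (Hb_sys S) (Sum.inl o) (Sum.inl c)).1 ↔ c ∈ k := by
        intro c
        rw [mem_pt]
        constructor
        · intro h2
          exact inl_j1.1 h2.2
        · intro h2
          exact ⟨⟨k, hk, Or.inl rfl⟩, inl_j1.2 h2⟩
      have h' : pt (Hb_sys S) (Sum.inl o) (Sum.inl a) = pt (Hb_sys S) (Sum.inl o) (Sum.inl b) := h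
      rw [← h1 a, ← h1 b, h']
    · intro h
      apply Subtype.ext
      ext A
      show (A ∈ Hb 𝓗 ∧ Sum.inl a ∈ A) ↔ (A ∈ Hb 𝓗 ∧ Sum.inl b ∈ A)
      refine and_congr_right ?_
      rintro ⟨E, hE, hA⟩
      rw [Hb_sub hA, Hb_sub hA]
      exact h E hE
  · intro x y hxy
    obtain ⟨k, h1, -⟩ := adj_lab (Hb_sys S) hxy
    have hk : k ∈ y.1 \ x.1 := by rw [h1]; rfl
    obtain ⟨E, hE, hkE⟩ := y.2.sub hk.1
    refine ⟨E, hE, fun g hx hy => ?_⟩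
    have hx' : g • x.1 = x.1 := congrArg Subtype.val hx
    have hy' : g • y.1 = y.1 := congrArg Subtype.val hy
    have h3 : g • (y.1 \ x.1) = y.1 \ x.1 := by rw [Set.smul_set_sdiff, hx', hy']
    rw [h1, Set.smul_set_singleton, Set.singleton_eq_singleton_iff] at h3
    rcases hkE with rfl | rfl
    · rw [smul_j1 S] at h3
      exact j1_inj h3
    · rw [smul_j2 S] at h3
      exact j2_inj h3
  · intro a h hh
    show j1 𝓗 h ∈ (pt (Hb_sys S) (Sum.inl o) (Sum.inl a)).1 ↔ a ∈ h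
    rw [mem_pt]
    constructor
    · intro h2
      exact inl_j1.1 h2.2
    · intro h2
      exact ⟨⟨h, hh, Or.inl rfl⟩, inl_j1.2 h2⟩
  · intro g x h
    show j1 𝓗 (g • h) ∈ (g • x : Vt (Hb 𝓗) (Sum.inl o)).1 ↔ j1 𝓗 h ∈ x.1
    rw [smulT S', ← smul_j1 S]
    exact Set.smul_mem_smul_set_iff
  · intro x y
    refine Set.Finite.of_finite_image (f := j1 𝓗) ((diff_finite (Hb_sys S) x y).subset ?_) ?_
    · rintro _ ⟨h, ⟨-, h2, h3⟩, rfl⟩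
      exact ⟨h2, h3⟩
    · intro a _ b _ e
      exact j1_inj e

end exi

end Pool.Agent.R647
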