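import Pool.Agent.R647.Tree1

/-!
# Trees: fixed vertices of finite groups, convex sets, special actions
-/

set_option autoImplicit false

namespace Pool.Agent.R647

open Pool.Agent.H97R3.VR Pool.Agent.TH97.VR

section tr

variable {G V : Type} [Group G] [MulAction G V] {X : SimpleGraph V}

theorem IsTr.dist_smul (T : IsTr G X) (g : G) (x y : V) : X.dist (g • x) (g • y) = X.dist x y :=
  H97R3.VR.dist_smul T.med.conn T.act g x y

/-- a finite group fixes a vertex -/
theorem IsTr.fix (T : IsTr G X) (U : Subgroup G) (hU : (U : Set G).Finite) (v : V) :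
    ∃ c : V, ∀ u ∈ U, u • c = c := by
  classical
  set f : V → ℕ := fun c => hU.toFinset.sup (fun u => X.dist c (u • v)) with hf
  have hex : ∃ n, ∃ c, f c = n := ⟨_, v, rfl⟩
  obtain ⟨c, hc⟩ := Nat.find_spec hex
  have hmin : ∀ c', f c ≤ f c' := fun c' => by
    rw [hc]
    exact Nat.find_min' hex ⟨c', rfl⟩
  have hle : ∀ u ∈ U, X.dist c (u • v) ≤ f c := fun u hu =>
    Finset.le_sup (f := fun u => X.dist c (u • v)) (hU.mem_toFinset.2 hu)
  have hle2 : ∀ u ∈ U, ∀ w ∈ U, X.dist (u • c) (w • v) ≤ f c := by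
    intro u hu w hw
    have h1 := hle (u⁻¹ * w) (U.mul_mem (U.inv_mem hu) hw)
    rwa [← T.dist_smul u, ← mul_smul, mul_inv_cancel_left] at h1
  refine ⟨c, fun u hu => ?_⟩
  by_contra hne
  have hd0 : X.dist (u • c) c ≠ 0 := fun h => hne (T.med.conn.dist_eq_zero_iff.1 h)
  have hd1 : X.dist (u • c) c ≠ 1 := fun h =>
    T.noadj u c (SimpleGraph.dist_eq_one_iff_adj.1 h).symm
  obtain ⟨n, hn⟩ : ∃ n, X.dist (u • c) c = n + 1 := ⟨X.dist (u • c) c - 1, by omega⟩
  obtain ⟨c', h1, h2⟩ := exists_pred T.med.conn hn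
  have hb : Btw X c (u • c) c' := by
    unfold H97R3.VR.Btw
    have e1 := adj_one h1.symm
    have e2 : X.dist c' (u • c) = X.dist (u • c) c' := SimpleGraph.dist_comm
    have e3 : X.dist c (u • c) = X.dist (u • c) c := SimpleGraph.dist_comm
    omega
  have key : ∀ w ∈ U, X.dist c' (w • v) + 1 ≤ f c := by
    intro w hw
    have e1 := adj_one h1
    have e2 : X.dist (w • v) c' = X.dist c' (w • v) := SimpleGraph.dist_comm
    have e3 : X.dist (w • v) c = X.dist c (w • v) := SimpleGraph.dist_comm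
    have e4 : X.dist (w • v) (u • c) = X.dist (u • c) (w • v) := SimpleGraph.dist_comm
    have e5 : X.dist c' (u • c) = X.dist (u • c) c' := SimpleGraph.dist_comm
    have e6 := hle w hw
    have e7 := hle2 u hu w hw
    rcases T.tree c (u • c) (w • v) c' hb with h | h
    · unfold H97R3.VR.Btw at h
      omega
    · unfold H97R3.VR.Btw at h
      omega
  have h3 : f c' + 1 ≤ f c := by
    have h4 : f c' ≤ f c - 1 := Finset.sup_le fun w hw => by
      have := key w (hU.mem_toFinset.1 hw)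
      omega
    have h5 := key 1 U.one_mem
    omega
  have := hmin c'
  omega

theorem IsTr.mem_walk (T : IsTr G X) {u v : V} (p : X.Walk u v) : ∀ m, Btw X u v m →
    m ∈ p.support := by
  induction p with
  | nil =>
    intro m hm
    unfold H97R3.VR.Btw at hm
    rw [SimpleGraph.dist_self] at hm
    rw [SimpleGraph.Walk.support_nil, List.mem_singleton]
    exact T.med.conn.dist_eq_zero_iff.1 (by omega : X.dist m _ = 0)
  | @cons a b c hab q ih =>
    intro m hm
    rw [SimpleGraph.Walk.support_cons, List.mem_cons]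
    rcases T.tree a c b m hm with h | h
    · unfold H97R3.VR.Btw at h
      rw [adj_one hab.symm] at h
      by_cases h0 : X.dist b m = 0
      · right
        rw [← T.med.conn.dist_eq_zero_iff.1 h0]
        exact q.start_mem_support
      · left
        exact T.med.conn.dist_eq_zero_iff.1 (by omega : X.dist m a = 0)
    · exact Or.inr (ih m h)

theorem IsTr.convex (T : IsTr G X) {C : Set V}
    (hC : ∀ u ∈ C, ∀ v ∈ C, ∃ p : X.Walk u v, ∀ w ∈ p.support, w ∈ C) : IsConvex X C := by
  intro u hu v hv m hm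
  obtain ⟨p, hp⟩ := hC u hu v hv
  exact hp m (T.mem_walk p m hm)

/-- a finitely generated subgroup acts cocompactly on a convex set -/
theorem IsTr.exists_convex (T : IsTr G X) (H : Subgroup G) (hH : H.FG) (c0 : V) :
    ∃ C T0 : Set V, c0 ∈ C ∧ IsConvex X C ∧ (∀ h ∈ H, ∀ x ∈ C, h • x ∈ C) ∧ T0.Finite ∧
      ∀ x ∈ C, ∃ h ∈ H, h • x ∈ T0 := by
  classical
  obtain ⟨Y, hY⟩ := hH
  have p : ∀ y : G, X.Reachable c0 (y • c0) := fun y => T.med.conn.preconnected c0 (y • c0)
  set T0 : Set V := {c0} ∪ ⋃ y ∈ (Y : Set G), {w | w ∈ (p y).some.support} with hT0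
  set C : Set V := {x | ∃ h ∈ H, ∃ t ∈ T0, x = h • t} with hCdef
  have hfin : T0.Finite := (Set.finite_singleton c0).union
    (Set.Finite.biUnion Y.finite_toSet fun y _ => List.finite_toSet _)
  have hinv : ∀ h ∈ H, ∀ x ∈ C, h • x ∈ C := by
    rintro h hh _ ⟨h', hh', t, ht, rfl⟩
    exact ⟨h * h', H.mul_mem hh hh', t, ht, (mul_smul _ _ _).symm⟩
  have hsub : T0 ⊆ C := fun t ht => ⟨1, H.one_mem, t, ht, (one_smul G t).symm⟩
  have hc0 : c0 ∈ C := hsub (Or.inl rfl)
  let R : V → V → Prop := fun u v => ∃ p : X.Walk u v, ∀ w ∈ p.support, w ∈ C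
  have Rsymm : ∀ u v, R u v → R v u := by
    rintro u v ⟨p, hp⟩
    refine ⟨p.reverse, fun w hw => hp w ?_⟩
    rwa [SimpleGraph.Walk.support_reverse, List.mem_reverse] at hw
  have Rtrans : ∀ u v w, R u v → R v w → R u w := by
    rintro u v w ⟨p, hp⟩ ⟨q, hq⟩
    refine ⟨p.append q, fun x hx => ?_⟩
    rw [SimpleGraph.Walk.mem_support_append_iff] at hx
    exact hx.elim (hp x) (hq x)
  have Rsmul : ∀ h ∈ H, ∀ u v, R u v → R (h • u) (h • v) := by
    rintro h hh u v ⟨p, hp⟩
    let f : X →g X := ⟨fun v => h • v, fun e => T.act h _ _ e⟩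
    refine ⟨p.map f, fun x hx => ?_⟩
    rw [SimpleGraph.Walk.support_map, List.mem_map] at hx
    obtain ⟨y, hy, rfl⟩ := hx
    exact hinv h hh y (hp y hy)
  have hRH : ∀ h ∈ H, R c0 (h • c0) := by
    intro h hh
    rw [← hY] at hh
    induction hh using Subgroup.closure_induction with
    | mem y hy =>
      refine ⟨(p y).some, fun w hw => hsub (Or.inr (Set.mem_biUnion hy hw))⟩
    | one =>
      rw [one_smul]
      exact ⟨SimpleGraph.Walk.nil, fun w hw => by
        rw [SimpleGraph.Walk.support_nil, List.mem_singleton] at hw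
        rw [hw]
        exact hc0⟩
    | mul a b ha _ iha ihb =>
      rw [hY] at ha
      rw [mul_smul]
      exact Rtrans _ _ _ iha (Rsmul a ha _ _ ihb)
    | inv a ha iha =>
      rw [hY] at ha
      have h1 := Rsmul a⁻¹ (H.inv_mem ha) _ _ iha
      rw [inv_smul_smul] at h1
      exact Rsymm _ _ h1
  have hR0 : ∀ t ∈ T0, R c0 t := by
    rintro t (ht | ht)
    · rw [Set.mem_singleton_iff] at ht
      subst ht
      have := hRH 1 H.one_mem
      rwa [one_smul] at this
    · obtain ⟨y, hy, ht⟩ := Set.mem_iUnion₂.1 ht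
      refine ⟨(p y).some.takeUntil t ht, fun w hw => hsub (Or.inr (Set.mem_biUnion hy ?_))⟩
      exact SimpleGraph.Walk.support_takeUntil_subset_support _ ht hw
  have hR : ∀ x ∈ C, R c0 x := by
    rintro _ ⟨h, hh, t, ht, rfl⟩
    exact Rtrans _ _ _ (hRH h hh) (Rsmul h hh _ _ (hR0 t ht))
  refine ⟨C, T0, hc0, T.convex fun u hu v hv => Rtrans _ _ _ (Rsymm _ _ (hR u hu)) (hR v hv),
    hinv, hfin, ?_⟩
  rintro _ ⟨h, hh, t, ht, rfl⟩
  refine ⟨h⁻¹, H.inv_mem hh, ?_⟩
  rw [inv_smul_smul]
  exact ht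

theorem IsTr.par (T : IsTr G X) {N : Subgroup G} {e f : V × V} (h : Par X N e f) :
    ∃ n ∈ N, f = (n • e.1, n • e.2) ∨ f = (n • e.2, n • e.1) := by
  induction h with
  | rel e f h =>
    cases h with
    | flip x y =>
      refine ⟨1, N.one_mem, Or.inr ?_⟩
      rw [one_smul, one_smul]
    | sq x y w z h => exact absurd h (T.nosq _ _ _ _)
    | act n hn x y => exact ⟨n, hn, Or.inl rfl⟩
  | refl e =>
    refine ⟨1, N.one_mem, Or.inl ?_⟩
    rw [one_smul, one_smul]
  | symm e f _ ih =>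
    obtain ⟨n, hn, h | h⟩ := ih
    · refine ⟨n⁻¹, N.inv_mem hn, Or.inl ?_⟩
      rw [h]
      simp
    · refine ⟨n⁻¹, N.inv_mem hn, Or.inr ?_⟩
      rw [h]
      simp
  | trans e f g _ _ ih1 ih2 =>
    obtain ⟨n, hn, h⟩ := ih1
    obtain ⟨m, hm, h'⟩ := ih2
    refine ⟨m * n, N.mul_mem hm hn, ?_⟩
    rcases h with h | h <;> rcases h' with h' | h'
    · left
      rw [h', h, mul_smul, mul_smul]
    · right
      rw [h', h, mul_smul, mul_smul]
    · right
      rw [h', h, mul_smul, mul_smul]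
    · left
      rw [h', h, mul_smul, mul_smul]

/-- free actions on trees are special -/
theorem IsTr.special (T : IsTr G X) {N : Subgroup G} (hfree : ∀ n ∈ N, ∀ x : V, n • x = x → n = 1) :
    IsSpecialAction X N where
  free := hfree
  noself := by
    intro x y z hxy hxz h
    obtain ⟨n, hn, h | h⟩ := T.par h
    · rw [Prod.mk.injEq] at h
      obtain ⟨h1, h2⟩ := h
      have h3 := hfree n hn x h1.symm
      rw [h3, one_smul] at h2
      exact h2.symm
    · rw [Prod.mk.injEq] at h
      obtain ⟨h1, -⟩ := h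
      exact absurd hxy.symm (by
        have h1' : x = n • y := h1
        rw [h1']
        exact T.noadj n y)
  nointer := by
    rintro x y z - - ⟨p, q, r, o, hs, -, -⟩
    exact absurd hs (T.nosq _ _ _ _)

end tr

end Pool.Agent.R647
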